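import Pool.Agent.Work.MP_481a91_al.SD.DefsQ

/-!
# MP_481a91_al, block SD: the definitions of part Q in a shorter form

`F` is the base field, `K` its algebraic closure, `E_i` finite extensions of `F`, `D_i` a central division algebra over `E_i`, `A = ∏ D_i`.
The group is `G = H/Z₀`: `H` is a closed subgroup of the multiplicative group of `A` which contains `∏ SL_1(D_i)`, and `Z₀` is the group of
`F`-points of a subgroup `Z` of the torus `∏ Res GL_1(E_i)`, given by its group `Zk` of `K`-points, which is stable under the Galois group.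
-/

set_option autoImplicit false

noncomputable section

namespace Pool.Agent.Work.MP_481a91_al.SD

open scoped TensorProduct
open MeasureTheory

universe u

/-! ## The algebras -/

/-- Splittings `K_i ⊗ D_i ≃ M_(n_i)(K_i)`, `K_i` the algebraic closure of `E_i`. -/
abbrev Spl {N : ℕ} (E D : Fin N → Type u) [∀ i, Field (E i)] [∀ i, DivisionRing (D i)] [∀ i, Algebra (E i) (D i)]
    (n : Fin N → ℕ) : Type u :=
  ∀ i, AlgebraicClosure (E i) ⊗[E i] D i ≃ₐ[AlgebraicClosure (E i)] Matrix (Fin (n i)) (Fin (n i)) (AlgebraicClosure (E i))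

/-- The elements with `n_i` different eigenvalues in `M_(n_i)(K_i)` for all `i`: their centralizers are tori. -/
def RegP {N : ℕ} {E D : Fin N → Type u} [∀ i, Field (E i)] [∀ i, DivisionRing (D i)] [∀ i, Algebra (E i) (D i)] {n : Fin N → ℕ}
    (φ : Spl E D n) : Set (PU D) := {x | ∀ i, (mat (φ i) ((x i : (D i)ˣ) : D i)).charpoly.Separable}

section

variable (F : Type u) [Field F] {N : ℕ} (E : Fin N → Type u) [∀ i, Field (E i)] [∀ i, Algebra F (E i)]

/-- The multiplicative group of `K ⊗ ∏ E_i`, the group of `K`-points of the torus `∏ Res GL_1(E_i)`. -/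
def ZT : Type u := (KE F E)ˣ

instance : Group (ZT F E) := (inferInstance : Group (KE F E)ˣ)

variable {F E} in
/-- An element of the multiplicative group of `K ⊗ ∏ E_i` as an element of `K ⊗ ∏ E_i`. -/
def uv (z : ZT F E) : KE F E := Units.val z

/-- `Zk` is stable under the Galois group. -/
def GStT (Zk : Subgroup (ZT F E)) : Prop :=
  ∀ (σ : AlgebraicClosure F ≃ₐ[F] AlgebraicClosure F), ∀ z ∈ Zk, ∃ w ∈ Zk, uv w = gal F E σ (uv z)

end

section

variable (F : Type u) [Field F] {N : ℕ} {E D : Fin N → Type u} [∀ i, Field (E i)] [∀ i, DivisionRing (D i)] [∀ i, Algebra F (E i)]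
  [∀ i, Algebra (E i) (D i)] [∀ i, Algebra F (D i)] [∀ i, IsScalarTower F (E i) (D i)]

/-- `x = z` in `K ⊗ A`. -/
def EqZ (z : ZT F E) (x : PU D) : Prop := jK F x = zK F E D (uv z)

/-- `g x g⁻¹ = z y` for some `g` in the multiplicative group of `K ⊗ A`. -/
def Cj (z : ZT F E) (x y : PU D) : Prop := ∃ g : (KD F D)ˣ, (g : KD F D) * jK F x = zK F E D (uv z) * jK F y * g

end

/-! ## The group `G = H/Z₀` -/

/-- `U (h) = U (f)` for all `f`, `h` such that `h (π x) = f (π y)` for all `x`, `y` with `r x y`. -/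
def InvR {X G : Type u} [TopologicalSpace G] (π : X → G) (r : X → X → Prop) (U : Dst G) : Prop :=
  ∀ f h : Tst G, (∀ x y : X, r x y → h.1 (π x) = f.1 (π y)) → U h = U f

section

variable {P T : Type u} [Group P] [Group T]

/-- `Z₀`: the elements of `H` which are equal (`e`) to an element of `Zk`. -/
def ZrG (Zk : Subgroup T) (H : Subgroup P) (e : T → P → Prop) : Set H := {h | ∃ z ∈ Zk, e z (h : P)}

variable (Zk : Subgroup T) {H : Subgroup P} (Z₀ : Subgroup H) [Z₀.Normal] (c : T → P → P → Prop)

/-- Strongly regular semisimple elements of `G = H/Z₀` (`R` the elements with different eigenvalues, `c z x y` the relation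
`g x g⁻¹ = z y` for some `g` in the multiplicative group of `K ⊗ A`): the classes of the `γ` in `R`, such that the centralizer of the
class is the image of the centralizer of `γ`: `g γ g⁻¹ = z γ` with `z ∈ Zk` holds only for `z = 1`. -/
def RegG (R : Set P) : Set (H ⧸ Z₀) := {q | ∃ γ : H, (γ : H ⧸ Z₀) = q ∧ (γ : P) ∈ R ∧ ∀ z ∈ Zk, c z (γ : P) (γ : P) → z = 1}

/-- Stable conjugacy in `G = H/Z₀`: conjugacy modulo `Zk` in the multiplicative group of `K ⊗ A`. -/
def StcG (q r : H ⧸ Z₀) : Prop := ∃ γ δ : H, (γ : H ⧸ Z₀) = q ∧ (δ : H ⧸ Z₀) = r ∧ ∃ z ∈ Zk, c z (γ : P) (δ : P)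

/-- `U` is invariant under conjugation by `d`: `U (h) = U (f)` if `h (x) = f (d x d⁻¹)` for all `x`. -/
def InvG [TopologicalSpace P] (d : P) (U : Dst (H ⧸ Z₀)) : Prop :=
  InvR (fun x : H => (x : H ⧸ Z₀)) (fun x y => (y : P) = d * x * d⁻¹) U

end

/-- What is proved for a group `G` which is compact modulo its centre `C`, `S` being the set of its strongly regular elements, `st` the
stable conjugacy: `G/C` is compact, the stable classes of strongly regular elements are finite unions of conjugacy classes, `δ_1` is in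
the stable centre, the stable centre is closed under convolution, and an element `T` of the Bernstein centre is stable if and only if
`I T`. -/
def Q1G (G : Type u) [Group G] [TopologicalSpace G] [IsTopologicalGroup G] (S : Set G) (st : G → G → Prop)
    (I : Dst G → Prop) : Prop :=
  ∀ [MeasurableSpace (G ⧸ Subgroup.center G)] [BorelSpace (G ⧸ Subgroup.center G)] (μ : Measure (G ⧸ Subgroup.center G))
    [μ.IsHaarMeasure],
  CompactSpace (G ⧸ Subgroup.center G) ∧ (∀ γ ∈ S, ∃ R : Finset G, Sys st γ R) ∧ ZSq μ S st (dirac G) ∧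
  (∀ T₁ T₂ : Dst G, ZSq μ S st T₁ → ZSq μ S st T₂ → ∃ T₃ : Dst G, Conv T₁ T₂ T₃ ∧ ZSq μ S st T₃) ∧
  ∀ T : Dst G, BC T → (Stq μ S st T ↔ I T)

/-- THE THEOREM: if `H` is a closed subgroup of `P` (the multiplicative group of `A`) which contains `S₁`, and `Z₀ = H ∩ Zk` is closed
in `H`, then `Q1G` holds for the group `G = H/Z₀`, `I T` being the invariance of `T` under conjugation by all elements of `P`. -/
def Q1H {P T : Type u} [Group P] [TopologicalSpace P] [IsTopologicalGroup P] [Group T] (S₁ : Subgroup P) (Zk : Subgroup T)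
    (e : T → P → Prop) (c : T → P → P → Prop) (R : Set P) : Prop :=
  ∀ (H : Subgroup P) (Z₀ : Subgroup H) [Z₀.Normal], IsClosed (H : Set P) → S₁ ≤ H → (Z₀ : Set H) = ZrG Zk H e →
    IsClosed (Z₀ : Set H) → Q1G (H ⧸ Z₀) (RegG Zk Z₀ c R) (StcG Zk Z₀ c) (fun U => ∀ d : P, InvG Z₀ d U)

end Pool.Agent.Work.MP_481a91_al.SD
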