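import Pool.Agent.Work.MP_481a91_al.SD.FinalQ
import Pool.Agent.Work.MP_481a91_al.SD.DefsR

/-! # MP_481a91_al, block SD: the general theorem, part Q, with the shorter definitions -/

set_option autoImplicit false

noncomputable section

namespace Pool.Agent.Work.MP_481a91_al.SD

open scoped TensorProduct
open MeasureTheory

universe u

section

variable (F : Type u) [Field F] {N : ℕ} {E D : Fin N → Type u} [∀ i, Field (E i)] [∀ i, DivisionRing (D i)] [∀ i, Algebra F (E i)]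
  [∀ i, Algebra (E i) (D i)] [∀ i, Algebra F (D i)] [∀ i, IsScalarTower F (E i) (D i)] {n : Fin N → ℕ}
  (φ : Spl E D n) (Zk : Subgroup (KE F E)ˣ) (H : Subgroup (PU D)) (Z₀ : Subgroup H) [Z₀.Normal]

theorem regQ_eq : RegG (T := ZT F E) (Zk : Subgroup (KE F E)ˣ) Z₀ (Cj F) (RegP φ) = QReg F φ Zk H Z₀ := by
  ext q
  constructor
  · rintro ⟨γ, h1, h2, h3⟩
    exact ⟨γ, h1, h2, fun g z hz h => h3 z hz ⟨g, h⟩⟩
  · rintro ⟨γ, h1, h2, h3⟩
    exact ⟨γ, h1, h2, fun z hz ⟨g, h⟩ => h3 g z hz h⟩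

theorem stcQ_eq : StcG (T := ZT F E) (Zk : Subgroup (KE F E)ˣ) Z₀ (Cj F) = QStC F Zk H Z₀ := by
  funext q r
  refine propext ⟨?_, ?_⟩
  · rintro ⟨γ, δ, h1, h2, z, hz, g, h⟩
    exact ⟨γ, δ, h1, h2, g, z, hz, h⟩
  · rintro ⟨γ, δ, h1, h2, g, z, hz, h⟩
    exact ⟨γ, δ, h1, h2, z, hz, g, h⟩

end

theorem finalR (F : Type u) [NontriviallyNormedField F] [ProperSpace F] [IsUltrametricDist F] [CharZero F] (N : ℕ)
    (E D : Fin N → Type u) [∀ i, NontriviallyNormedField (E i)] [∀ i, ProperSpace (E i)] [∀ i, IsUltrametricDist (E i)]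
    [∀ i, CharZero (E i)] [∀ i, Algebra F (E i)] [∀ i, FiniteDimensional F (E i)] [∀ i, DivisionRing (D i)]
    [∀ i, Algebra (E i) (D i)] [∀ i, Algebra F (D i)] [∀ i, IsScalarTower F (E i) (D i)] [∀ i, FiniteDimensional (E i) (D i)]
    [∀ i, Algebra.IsCentral (E i) (D i)] [∀ i, TopologicalSpace (D i)] [∀ i, IsTopologicalRing (D i)]
    [∀ i, ContinuousSMul (E i) (D i)] [∀ i, T2Space (D i)] (n : Fin N → ℕ) (φ : Spl E D n) (Zk : Subgroup (ZT F E))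
    (hG : GStT F E Zk) : Q1H (PS1 φ) Zk (EqZ F) (Cj F) (RegP φ) := by
  intro H Z₀ _ hcl hH hZ hcl0 _ _ μ _
  have h1 : RegG Zk Z₀ (Cj F) (RegP φ) = QReg F φ (show Subgroup (KE F E)ˣ from Zk) H Z₀ := regQ_eq F φ _ H Z₀
  have h2 : StcG Zk Z₀ (Cj F (D := D)) = QStC F (show Subgroup (KE F E)ˣ from Zk) H Z₀ := stcQ_eq F _ H Z₀
  rw [h1, h2]
  exact finalQ.{u} F N E D n φ H Zk Z₀ hcl hH hG hZ hcl0 μ

end Pool.Agent.Work.MP_481a91_al.SD
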