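import Pool.Agent.Work.MP_481a91_al.SD.Gen

/-! # MP_481a91_al, block SD: assembly for products of groups `SL_1(D)` -/

set_option autoImplicit false

noncomputable section

namespace Pool.Agent.Work.MP_481a91_al.SD

open scoped TensorProduct BigOperators
open MeasureTheory

universe u

namespace XAsp

section one
variable {F D : Type u} [Field F] [DivisionRing D] [Algebra F D] {n : ℕ}
  (φ : AlgebraicClosure F ⊗[F] D ≃ₐ[AlgebraicClosure F] Matrix (Fin n) (Fin n) (AlgebraicClosure F))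

theorem cont_conj [TopologicalSpace D] [IsTopologicalRing D] (d : Dˣ) :
    Continuous (MulAut.conjNormal d : SL1 φ → SL1 φ) := by
  refine continuous_induced_rng.2 ?_
  have h : (Subtype.val ∘ (MulAut.conjNormal d : SL1 φ → SL1 φ)) = fun x : SL1 φ => d * (x : Dˣ) * d⁻¹ := by
    funext x
    simp [MulAut.conjNormal_apply]
  rw [h]
  exact (continuous_const.mul continuous_subtype_val).mul continuous_const

theorem stc_iff (hSN : StSN.{u}) (hMp : StMp.{u}) (hCj : StCj.{u}) [FiniteDimensional F D] [Algebra.IsCentral F D]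
    (γ δ : SL1 φ) : StC φ γ δ ↔ ∃ d : Dˣ, MulAut.conjNormal d γ = δ := by
  constructor
  · intro h
    obtain ⟨d, hd⟩ := hSN F D _ _ (hMp F D n φ γ δ h)
    refine ⟨d, ?_⟩
    apply Subtype.ext
    rw [MulAut.conjNormal_apply]
    apply Units.ext
    have h2 : d * (γ : Dˣ) = (δ : Dˣ) * d := Units.ext (by simpa using hd)
    rw [h2, mul_inv_cancel_right]
  · rintro ⟨d, hd⟩
    exact hCj F D n φ γ δ d hd

end one

section prod

variable {N : ℕ} {F D : Fin N → Type u} [∀ i, Field (F i)] [∀ i, DivisionRing (D i)] [∀ i, Algebra (F i) (D i)] {n : Fin N → ℕ}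
  (φ : ∀ i, AlgebraicClosure (F i) ⊗[F i] D i ≃ₐ[AlgebraicClosure (F i)] Matrix (Fin (n i)) (Fin (n i)) (AlgebraicClosure (F i)))

def pa : (∀ i, (D i)ˣ) →* MulAut (PSL φ) where
  toFun d := MulEquiv.piCongrRight fun i => (MulAut.conjNormal (d i) : SL1 (φ i) ≃* SL1 (φ i))
  map_one' := by
    ext x i
    simp
  map_mul' a b := by
    ext x i
    simp

theorem pa_apply (d : ∀ i, (D i)ˣ) (x : PSL φ) : pa φ d x = pcj φ d x := rfl

end prod

end XAsp

theorem mainPD (hCnv : StCnv.{u}) (hEss : StEss.{u}) (hAut : StAut.{u}) (hA0 : StA0.{u}) (hA1 : StA1.{u}) (hA2 : StA2.{u})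
    (hSN : StSN.{u}) (hMp : StMp.{u}) (hCj : StCj.{u}) (hKp : StKp.{u}) (hDs : StDs.{u}) (hIx : StIx.{u}) : MainPD.{u} := by
  intro N F D _ _ _ _ _ _ _ _ _ _ _ _ n φ _ _ μ _
  haveI : ∀ i, CompactSpace (SL1 (φ i)) := fun i => hKp (F i) (D i) (n i) (φ i)
  have hT2 : ∀ i, T2Space (SL1 (φ i)) := fun i => inferInstance
  have hcp : CompactSpace (PSL φ) := inferInstance
  choose M hM using fun i => hIx (F i) (D i) (n i) (φ i)
  refine ⟨hcp, ?_⟩
  exact XGen.gen hCnv hEss hAut hA0 hA1 hA2 (PSL φ) μ (∀ i, (D i)ˣ) (XAsp.pa φ) (PReg φ) (PStC φ) (Fintype.piFinset M)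
    (fun d => continuous_pi fun i => (XAsp.cont_conj (φ i) (d i)).comp (continuous_apply i))
    (fun γ δ => by
      constructor
      · intro h
        choose d hd using fun i => (XAsp.stc_iff (φ i) hSN hMp hCj (γ i) (δ i)).1 (h i)
        exact ⟨d, funext fun i => hd i⟩
      · rintro ⟨d, hd⟩ i
        exact (XAsp.stc_iff (φ i) hSN hMp hCj (γ i) (δ i)).2 ⟨d i, congrFun hd i⟩)
    (fun d => by
      choose t ht g hg using fun i => hM i (d i)
      exact ⟨t, Fintype.mem_piFinset.2 ht, g, fun x => funext fun i => hg i (x i)⟩)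
    (by
      have h : PReg φ = Set.pi Set.univ fun i => SReg (φ i) := by
        ext γ
        simp [PReg, Set.mem_pi]
      rw [h]
      exact dense_pi _ fun i _ => hDs (F i) (D i) (n i) (φ i))

end Pool.Agent.Work.MP_481a91_al.SD
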