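import Mathlib

/-!
# MP_481a91_al, block SD: the stable centre of `SL_1(D)`

`F` is a nonarchimedean local field of characteristic zero (a finite extension of the field of `p`-adic numbers), `D` is a central
division algebra over `F` of finite dimension, `K` is the algebraic closure of `F`, and `φ : K ⊗ D ≃ M_n(K)`.
-/

set_option autoImplicit false

noncomputable section

namespace Pool.Agent.Work.MP_481a91_al.SD

open scoped TensorProduct
open MeasureTheory

universe u

/-! ## Distributions on a topological group -/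

section dist

variable {G : Type u} [Group G] [TopologicalSpace G]

variable (G) in
/-- `C_c^∞(G)`: the locally constant functions on `G` with compact support. -/
def Tst : Submodule ℂ (G → ℂ) where
  carrier := {f | IsLocallyConstant f ∧ HasCompactSupport f}
  add_mem' := fun hf hg => ⟨hf.1.add hg.1, hf.2.add hg.2⟩
  zero_mem' := ⟨IsLocallyConstant.const 0, HasCompactSupport.zero⟩
  smul_mem' := fun c _ hf => ⟨hf.1.comp (fun z => c * z), hf.2.smul_left (f := fun _ => c)⟩

variable (G) in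
/-- Distributions on `G`: linear forms on `C_c^∞(G)`. -/
abbrev Dst : Type u := Tst G →ₗ[ℂ] ℂ

variable [IsTopologicalGroup G]

/-- The function `x ↦ f (a x b)`. -/
def tr (a b : G) (f : Tst G) : Tst G :=
  ⟨fun x => f.1 (a * x * b), f.2.1.comp_continuous (by fun_prop),
    f.2.2.comp_homeomorph ((Homeomorph.mulLeft a).trans (Homeomorph.mulRight b))⟩

/-- The function `x ↦ f (x⁻¹)`. -/
def iv (f : Tst G) : Tst G :=
  ⟨fun x => f.1 x⁻¹, f.2.1.comp_continuous continuous_inv, f.2.2.comp_homeomorph (Homeomorph.inv G)⟩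

/-- The Bernstein centre: `T` is invariant under conjugation and essentially compact, that is, for every `f` in `C_c^∞(G)` the
function `(T * f) (x) = T (y ↦ f (y⁻¹ x))` is again in `C_c^∞(G)`. -/
structure BC (T : Dst G) : Prop where
  inv : ∀ (g : G) (f : Tst G), T (tr g⁻¹ g f) = T f
  ess : ∀ f : Tst G, ∃ h : Tst G, ∀ x : G, h.1 x = T (iv (tr 1 x f))

/-- `T₃` is the convolution `T₁ * T₂`: `T₃ (f) = T₁ (x ↦ T₂ (y ↦ f (x y)))`, the function `x ↦ T₂ (y ↦ f (x y))` being in
`C_c^∞(G)`. -/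
def Conv (T₁ T₂ T₃ : Dst G) : Prop :=
  ∀ f : Tst G, ∃ h : Tst G, (∀ x : G, h.1 x = T₂ (tr x 1 f)) ∧ T₃ f = T₁ h

variable (G) in
/-- The Dirac distribution `δ_1`. -/
def dirac : Dst G where
  toFun f := f.1 1
  map_add' _ _ := rfl
  map_smul' _ _ := rfl

/-- `T` is invariant under the transformation `α` of `G`. -/
def AInv (α : G → G) (T : Dst G) : Prop := ∀ f h : Tst G, (∀ x : G, h.1 x = f.1 (α x)) → T h = T f

/-- `R` is a complete irredundant system of representatives of the `G`-conjugacy classes in `{δ : st γ δ}`. -/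
def Sys (st : G → G → Prop) (γ : G) (R : Finset G) : Prop :=
  (∀ ρ ∈ R, st γ ρ) ∧ ∀ δ : G, st γ δ → ∃! ρ, ρ ∈ R ∧ IsConj ρ δ

/-- All stable orbital integrals of `f` at the elements of `S` vanish (`G` compact, `st` the stable conjugacy): the sum over the
conjugacy classes in the stable class of `γ` of the orbital integrals of `f`. -/
def Unst [MeasurableSpace G] (μ : Measure G) (S : Set G) (st : G → G → Prop) (f : Tst G) : Prop :=
  ∀ γ ∈ S, ∀ R : Finset G, Sys st γ R → ∑ ρ ∈ R, ∫ g, f.1 (g * ρ * g⁻¹) ∂μ = 0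

end dist

/-! ## The group `SL_1(D)` -/

section sl

variable {F D : Type u} [Field F] [DivisionRing D] [Algebra F D] {n : ℕ}
  (φ : AlgebraicClosure F ⊗[F] D ≃ₐ[AlgebraicClosure F] Matrix (Fin n) (Fin n) (AlgebraicClosure F))

/-- `x` as an element of `M_n(K)`. -/
def mat : D →ₐ[F] Matrix (Fin n) (Fin n) (AlgebraicClosure F) :=
  (φ.toAlgHom.restrictScalars F).comp Algebra.TensorProduct.includeRight

/-- The reduced norm on the multiplicative group of `D`, with values in `K`. -/
def nrd : Dˣ →* AlgebraicClosure F where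
  toFun d := (mat φ (d : D)).det
  map_one' := by simp
  map_mul' a b := by simp

/-- `SL_1(D)`: the elements of reduced norm one. -/
def SL1 : Subgroup Dˣ := (nrd φ).ker

instance : (SL1 φ).Normal := MonoidHom.normal_ker _

/-- The strongly regular semisimple elements: `x` has `n` different eigenvalues in `M_n(K)`. -/
def SReg : Set (SL1 φ) := {γ | (mat φ ((γ : Dˣ) : D)).charpoly.Separable}

/-- Stable conjugacy: conjugacy in `SL_n(K)`. -/
def StC (γ δ : SL1 φ) : Prop := ∃ g : Matrix.SpecialLinearGroup (Fin n) (AlgebraicClosure F),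
  g.1 * mat φ ((γ : Dˣ) : D) = mat φ ((δ : Dˣ) : D) * g.1

end sl

/-- A distribution on `SL_1(D)` is stable if it vanishes on all functions whose stable orbital integrals at all strongly regular
elements are zero; `μ` is a Haar measure of the (compact) group. -/
def Stb {F D : Type u} [Field F] [DivisionRing D] [Algebra F D] [TopologicalSpace D] [IsTopologicalRing D] {n : ℕ}
    (φ : AlgebraicClosure F ⊗[F] D ≃ₐ[AlgebraicClosure F] Matrix (Fin n) (Fin n) (AlgebraicClosure F))
    [MeasurableSpace (SL1 φ)] (μ : Measure (SL1 φ)) (T : Dst (SL1 φ)) : Prop :=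
  ∀ f : Tst (SL1 φ), Unst μ (SReg φ) (StC φ) f → T f = 0

/-- THE THEOREM. -/
def MainSD : Prop := ∀ (F D : Type u) [NontriviallyNormedField F] [ProperSpace F] [IsUltrametricDist F] [CharZero F]
  [DivisionRing D] [Algebra F D] [FiniteDimensional F D] [Algebra.IsCentral F D] [TopologicalSpace D] [IsTopologicalRing D]
  [ContinuousSMul F D] [T2Space D] (n : ℕ)
  (φ : AlgebraicClosure F ⊗[F] D ≃ₐ[AlgebraicClosure F] Matrix (Fin n) (Fin n) (AlgebraicClosure F))
  [MeasurableSpace (SL1 φ)] [BorelSpace (SL1 φ)] (μ : Measure (SL1 φ)) [μ.IsHaarMeasure],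
  CompactSpace (SL1 φ) ∧ (∀ γ : SL1 φ, ∃ R : Finset (SL1 φ), Sys (StC φ) γ R) ∧
  (BC (dirac (SL1 φ)) ∧ Stb φ μ (dirac (SL1 φ))) ∧
  (∀ T₁ T₂ : Dst (SL1 φ), BC T₁ → BC T₂ → Stb φ μ T₁ → Stb φ μ T₂ →
    ∃ T₃ : Dst (SL1 φ), Conv T₁ T₂ T₃ ∧ BC T₃ ∧ Stb φ μ T₃) ∧
  ∀ T : Dst (SL1 φ), BC T → (Stb φ μ T ↔ ∀ d : Dˣ, AInv (MulAut.conjNormal d : SL1 φ → SL1 φ) T)

end Pool.Agent.Work.MP_481a91_al.SD
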