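import Pool.Agent.Work.MP_481a91_al.SD.Defs

/-!
# MP_481a91_al, block SD: groups between the product of the `SL_1(D_i)` and the product of the `GL_1(D_i)`
-/

set_option autoImplicit false

noncomputable section

namespace Pool.Agent.Work.MP_481a91_al.SD

open scoped TensorProduct
open MeasureTheory

universe u

section gen

variable {G : Type u} [Group G] [TopologicalSpace G] [IsTopologicalGroup G] [MeasurableSpace (G ⧸ Subgroup.center G)]

/-- All stable orbital integrals of `f` at the elements of `S` vanish (`G` compact modulo its centre `Z`, `st` the stable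
conjugacy, `μ` a Haar measure of `G/Z`): the sum over the conjugacy classes in the stable class of `γ` of the integrals of `f` over
the classes (the representative `q.out` of the class `q` in `G/Z` does not matter). -/
def Unq (μ : Measure (G ⧸ Subgroup.center G)) (S : Set G) (st : G → G → Prop) (f : Tst G) : Prop :=
  ∀ γ ∈ S, ∀ R : Finset G, Sys st γ R → ∑ ρ ∈ R, ∫ q, f.1 (q.out * ρ * q.out⁻¹) ∂μ = 0

/-- A distribution is stable if it vanishes on all functions whose stable orbital integrals at all strongly regular elements are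
zero. -/
def Stq (μ : Measure (G ⧸ Subgroup.center G)) (S : Set G) (st : G → G → Prop) (T : Dst G) : Prop :=
  ∀ f : Tst G, Unq μ S st f → T f = 0

/-- The members of the stable centre: stable elements of the Bernstein centre. -/
def ZSq (μ : Measure (G ⧸ Subgroup.center G)) (S : Set G) (st : G → G → Prop) (T : Dst G) : Prop := BC T ∧ Stq μ S st T

end gen

section prod

variable {N : ℕ} {F D : Fin N → Type u} [∀ i, Field (F i)] [∀ i, DivisionRing (D i)] [∀ i, Algebra (F i) (D i)] {n : Fin N → ℕ}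

/-- The product of the multiplicative groups of the `D_i`. -/
abbrev PU (D : Fin N → Type u) [∀ i, DivisionRing (D i)] : Type u := ∀ i, (D i)ˣ

variable
  (φ : ∀ i, AlgebraicClosure (F i) ⊗[F i] D i ≃ₐ[AlgebraicClosure (F i)] Matrix (Fin (n i)) (Fin (n i)) (AlgebraicClosure (F i)))

/-- The product of the groups `SL_1(D_i)`. -/
def PS1 : Subgroup (PU D) := Subgroup.pi Set.univ fun i => SL1 (φ i)

/-- The strongly regular semisimple elements of `H`: `n_i` different eigenvalues in `M_(n_i)(K_i)` for all `i`. -/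
def HReg (H : Subgroup (PU D)) : Set H := {γ | ∀ i, (mat (φ i) (((γ : PU D) i : (D i)ˣ) : D i)).charpoly.Separable}

/-- Stable conjugacy in `H`: conjugacy in the product of the groups `SL_(n_i)(K_i)`. -/
def HStC (H : Subgroup (PU D)) (γ δ : H) : Prop :=
  ∀ i, ∃ g : Matrix.SpecialLinearGroup (Fin (n i)) (AlgebraicClosure (F i)),
    g.1 * mat (φ i) (((γ : PU D) i : (D i)ˣ) : D i) = mat (φ i) (((δ : PU D) i : (D i)ˣ) : D i) * g.1

/-- `T` is invariant under conjugation by `d`. -/
def CInv [∀ i, TopologicalSpace (D i)] [∀ i, IsTopologicalRing (D i)] {H : Subgroup (PU D)} (d : PU D) (T : Dst H) : Prop :=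
  ∀ f h : Tst H, (∀ x y : H, (y : PU D) = d * x * d⁻¹ → h.1 x = f.1 y) → T h = T f

end prod

/-- THE THEOREM for groups between the product of the `SL_1(D_i)` and the product of the `GL_1(D_i)`. -/
def MainHD : Prop := ∀ (N : ℕ) (F D : Fin N → Type u) [∀ i, NontriviallyNormedField (F i)] [∀ i, ProperSpace (F i)]
  [∀ i, IsUltrametricDist (F i)] [∀ i, CharZero (F i)] [∀ i, DivisionRing (D i)] [∀ i, Algebra (F i) (D i)]
  [∀ i, FiniteDimensional (F i) (D i)] [∀ i, Algebra.IsCentral (F i) (D i)] [∀ i, TopologicalSpace (D i)]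
  [∀ i, IsTopologicalRing (D i)] [∀ i, ContinuousSMul (F i) (D i)] [∀ i, T2Space (D i)] (n : Fin N → ℕ)
  (φ : ∀ i, AlgebraicClosure (F i) ⊗[F i] D i ≃ₐ[AlgebraicClosure (F i)] Matrix (Fin (n i)) (Fin (n i)) (AlgebraicClosure (F i)))
  (H : Subgroup (PU D)), IsClosed (H : Set (PU D)) → PS1 φ ≤ H →
  ∀ [MeasurableSpace (H ⧸ Subgroup.center H)] [BorelSpace (H ⧸ Subgroup.center H)] (μ : Measure (H ⧸ Subgroup.center H))
    [μ.IsHaarMeasure],
  CompactSpace (H ⧸ Subgroup.center H) ∧ (∀ γ ∈ HReg φ H, ∃ R : Finset H, Sys (HStC φ H) γ R) ∧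
  ZSq μ (HReg φ H) (HStC φ H) (dirac H) ∧
  (∀ T₁ T₂ : Dst H, ZSq μ (HReg φ H) (HStC φ H) T₁ → ZSq μ (HReg φ H) (HStC φ H) T₂ →
    ∃ T₃ : Dst H, Conv T₁ T₂ T₃ ∧ ZSq μ (HReg φ H) (HStC φ H) T₃) ∧
  ∀ T : Dst H, BC T → (Stq μ (HReg φ H) (HStC φ H) T ↔ ∀ d : PU D, CInv d T)

end Pool.Agent.Work.MP_481a91_al.SD
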