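import Pool.Agent.Work.MP_481a91_al.SD.Defs

/-!
# MP_481a91_al, block SD: finite products of groups `SL_1(D_i)`
-/

set_option autoImplicit false

noncomputable section

namespace Pool.Agent.Work.MP_481a91_al.SD

open scoped TensorProduct
open MeasureTheory

universe u

/-- A distribution on the compact group `G` is stable (for the set `S` of strongly regular elements and the stable conjugacy `st`) if it
vanishes on all functions whose stable orbital integrals at all elements of `S` are zero; `μ` is a Haar measure. -/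
def Stg {G : Type u} [Group G] [TopologicalSpace G] [IsTopologicalGroup G] [MeasurableSpace G] (μ : Measure G) (S : Set G)
    (st : G → G → Prop) (T : Dst G) : Prop := ∀ f : Tst G, Unst μ S st f → T f = 0

/-- The members of the stable centre: stable elements of the Bernstein centre. -/
def ZSt {G : Type u} [Group G] [TopologicalSpace G] [IsTopologicalGroup G] [MeasurableSpace G] (μ : Measure G) (S : Set G)
    (st : G → G → Prop) (T : Dst G) : Prop := BC T ∧ Stg μ S st T

section prod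

variable {N : ℕ} {F D : Fin N → Type u} [∀ i, Field (F i)] [∀ i, DivisionRing (D i)] [∀ i, Algebra (F i) (D i)] {n : Fin N → ℕ}
  (φ : ∀ i, AlgebraicClosure (F i) ⊗[F i] D i ≃ₐ[AlgebraicClosure (F i)] Matrix (Fin (n i)) (Fin (n i)) (AlgebraicClosure (F i)))

/-- The product of the groups `SL_1(D_i)`. -/
abbrev PSL : Type u := ∀ i, SL1 (φ i)

/-- The strongly regular semisimple elements of the product. -/
def PReg : Set (PSL φ) := {γ | ∀ i, γ i ∈ SReg (φ i)}

/-- Stable conjugacy in the product. -/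
def PStC (γ δ : PSL φ) : Prop := ∀ i, StC (φ i) (γ i) (δ i)

/-- The action of the product of the multiplicative groups of the `D_i` by conjugation. -/
def pcj (d : ∀ i, (D i)ˣ) (x : PSL φ) : PSL φ := fun i => MulAut.conjNormal (d i) (x i)

end prod

/-- THE THEOREM for products. -/
def MainPD : Prop := ∀ (N : ℕ) (F D : Fin N → Type u) [∀ i, NontriviallyNormedField (F i)] [∀ i, ProperSpace (F i)]
  [∀ i, IsUltrametricDist (F i)] [∀ i, CharZero (F i)] [∀ i, DivisionRing (D i)] [∀ i, Algebra (F i) (D i)]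
  [∀ i, FiniteDimensional (F i) (D i)] [∀ i, Algebra.IsCentral (F i) (D i)] [∀ i, TopologicalSpace (D i)]
  [∀ i, IsTopologicalRing (D i)] [∀ i, ContinuousSMul (F i) (D i)] [∀ i, T2Space (D i)] (n : Fin N → ℕ)
  (φ : ∀ i, AlgebraicClosure (F i) ⊗[F i] D i ≃ₐ[AlgebraicClosure (F i)] Matrix (Fin (n i)) (Fin (n i)) (AlgebraicClosure (F i)))
  [MeasurableSpace (PSL φ)] [BorelSpace (PSL φ)] (μ : Measure (PSL φ)) [μ.IsHaarMeasure],
  CompactSpace (PSL φ) ∧ (∀ γ : PSL φ, ∃ R : Finset (PSL φ), Sys (PStC φ) γ R) ∧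
  ZSt μ (PReg φ) (PStC φ) (dirac (PSL φ)) ∧
  (∀ T₁ T₂ : Dst (PSL φ), ZSt μ (PReg φ) (PStC φ) T₁ → ZSt μ (PReg φ) (PStC φ) T₂ →
    ∃ T₃ : Dst (PSL φ), Conv T₁ T₂ T₃ ∧ ZSt μ (PReg φ) (PStC φ) T₃) ∧
  ∀ T : Dst (PSL φ), BC T → (Stg μ (PReg φ) (PStC φ) T ↔ ∀ d : ∀ i, (D i)ˣ, AInv (pcj φ d) T)

end Pool.Agent.Work.MP_481a91_al.SD
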