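import Pool.Agent.Work.MP_481a91_al.SD.DefsH

/-!
# MP_481a91_al, block SD: all reductive groups which are anisotropic modulo the centre

`F` is the base field, `K` its algebraic closure, `F_i` finite extensions of `F`, `D_i` a central division algebra over `F_i`, `A = ∏ D_i`.
The group is `G = H/Z₀`: `H` is a closed subgroup of the multiplicative group of `A` which contains `∏ SL_1(D_i)`, and `Z₀` is the group of
`F`-points of a subgroup `Z` of the torus `∏ Res GL_1(F_i)`, given by its group `Zk` of `K`-points, which is stable under the Galois group.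
-/

set_option autoImplicit false

noncomputable section

namespace Pool.Agent.Work.MP_481a91_al.SD

open scoped TensorProduct
open MeasureTheory

universe u

section

variable (F : Type u) [Field F] {N : ℕ} (E D : Fin N → Type u) [∀ i, Field (E i)] [∀ i, DivisionRing (D i)] [∀ i, Algebra F (E i)]
  [∀ i, Algebra (E i) (D i)] [∀ i, Algebra F (D i)] [∀ i, IsScalarTower F (E i) (D i)]

/-- `K ⊗ ∏ F_i`, and `K ⊗ ∏ D_i`. -/
abbrev KE : Type u := AlgebraicClosure F ⊗[F] (∀ i, E i)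

/-- `K ⊗ A`. -/
abbrev KD : Type u := AlgebraicClosure F ⊗[F] (∀ i, D i)

/-- The inclusion of `∏ F_i` in `∏ D_i`. -/
def eD : (∀ i, E i) →ₐ[F] (∀ i, D i) :=
  AlgHom.pi fun i => (IsScalarTower.toAlgHom F (E i) (D i)).comp (Pi.evalAlgHom F E i)

/-- The inclusion of `K ⊗ ∏ F_i` in `K ⊗ A`. -/
def zK : KE F E →ₐ[F] KD F D := Algebra.TensorProduct.map (AlgHom.id F (AlgebraicClosure F)) (eD F E D)

variable {D} in
/-- An element of `A` as an element of `K ⊗ A`. -/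
def jK (x : PU D) : KD F D := 1 ⊗ₜ[F] (fun i => ((x i : (D i)ˣ) : D i))

/-- The action of the Galois group on `K ⊗ ∏ F_i`. -/
def gal (σ : AlgebraicClosure F ≃ₐ[F] AlgebraicClosure F) : KE F E →ₐ[F] KE F E :=
  Algebra.TensorProduct.map (σ : AlgebraicClosure F →ₐ[F] AlgebraicClosure F) (AlgHom.id F (∀ i, E i))

/-- `Zk` is stable under the Galois group. -/
def GSt (Zk : Subgroup (KE F E)ˣ) : Prop :=
  ∀ (σ : AlgebraicClosure F ≃ₐ[F] AlgebraicClosure F), ∀ z ∈ Zk, ∃ w ∈ Zk, (w : KE F E) = gal F E σ (z : KE F E)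

/-- `Z₀`: the elements of `H` which are in `Zk`. -/
def Zr (Zk : Subgroup (KE F E)ˣ) (H : Subgroup (PU D)) : Set H := {h | ∃ z ∈ Zk, jK F (h : PU D) = zK F E D (z : KE F E)}

end

section

variable (F : Type u) [Field F] {N : ℕ} {E D : Fin N → Type u} [∀ i, Field (E i)] [∀ i, DivisionRing (D i)] [∀ i, Algebra F (E i)]
  [∀ i, Algebra (E i) (D i)] [∀ i, Algebra F (D i)] [∀ i, IsScalarTower F (E i) (D i)] {n : Fin N → ℕ}
  (φ : ∀ i, AlgebraicClosure (E i) ⊗[E i] D i ≃ₐ[AlgebraicClosure (E i)] Matrix (Fin (n i)) (Fin (n i)) (AlgebraicClosure (E i)))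
  (Zk : Subgroup (KE F E)ˣ) (H : Subgroup (PU D)) (Z₀ : Subgroup H) [Z₀.Normal]

/-- Strongly regular semisimple elements of `H/Z₀`: the classes of the `γ` with `n_i` different eigenvalues for all `i` (the
centralizer of `γ` is a torus), such that the centralizer of the class is the image of this torus: `g γ g⁻¹ = z γ` with `g` in the
multiplicative group of `K ⊗ A` and `z ∈ Zk` holds only for `z = 1`. -/
def QReg : Set (H ⧸ Z₀) := {q | ∃ γ : H, (γ : H ⧸ Z₀) = q ∧ γ ∈ HReg φ H ∧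
  ∀ (g : (KD F D)ˣ), ∀ z ∈ Zk, (g : KD F D) * jK F (γ : PU D) = zK F E D (z : KE F E) * jK F (γ : PU D) * g → z = 1}

/-- Stable conjugacy in `H/Z₀`: conjugacy modulo `Zk` in the multiplicative group of `K ⊗ A`. -/
def QStC (q r : H ⧸ Z₀) : Prop := ∃ γ δ : H, (γ : H ⧸ Z₀) = q ∧ (δ : H ⧸ Z₀) = r ∧ ∃ (g : (KD F D)ˣ), ∃ z ∈ Zk,
  (g : KD F D) * jK F (γ : PU D) = zK F E D (z : KE F E) * jK F (δ : PU D) * g

/-- `T` is invariant under conjugation by `d`. -/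
def QInv [∀ i, TopologicalSpace (D i)] [∀ i, IsTopologicalRing (D i)] {H : Subgroup (PU D)} (Z₀ : Subgroup H) [Z₀.Normal]
    (d : PU D) (T : Dst (H ⧸ Z₀)) : Prop :=
  ∀ f h : Tst (H ⧸ Z₀), (∀ x y : H, (y : PU D) = d * x * d⁻¹ → h.1 (x : H ⧸ Z₀) = f.1 (y : H ⧸ Z₀)) → T h = T f

end

/-- THE THEOREM for groups which are anisotropic modulo the centre. -/
def MainQD : Prop := ∀ (F : Type u) [NontriviallyNormedField F] [ProperSpace F] [IsUltrametricDist F] [CharZero F]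
  (N : ℕ) (E D : Fin N → Type u) [∀ i, NontriviallyNormedField (E i)] [∀ i, ProperSpace (E i)]
  [∀ i, IsUltrametricDist (E i)] [∀ i, CharZero (E i)] [∀ i, Algebra F (E i)] [∀ i, FiniteDimensional F (E i)]
  [∀ i, DivisionRing (D i)] [∀ i, Algebra (E i) (D i)] [∀ i, Algebra F (D i)] [∀ i, IsScalarTower F (E i) (D i)]
  [∀ i, FiniteDimensional (E i) (D i)] [∀ i, Algebra.IsCentral (E i) (D i)] [∀ i, TopologicalSpace (D i)]
  [∀ i, IsTopologicalRing (D i)] [∀ i, ContinuousSMul (E i) (D i)] [∀ i, T2Space (D i)] (n : Fin N → ℕ)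
  (φ : ∀ i, AlgebraicClosure (E i) ⊗[E i] D i ≃ₐ[AlgebraicClosure (E i)] Matrix (Fin (n i)) (Fin (n i)) (AlgebraicClosure (E i)))
  (H : Subgroup (PU D)) (Zk : Subgroup (KE F E)ˣ) (Z₀ : Subgroup H) [Z₀.Normal], IsClosed (H : Set (PU D)) → PS1 φ ≤ H →
  GSt F E Zk → (Z₀ : Set H) = Zr F E D Zk H → IsClosed (Z₀ : Set H) →
  ∀ [MeasurableSpace ((H ⧸ Z₀) ⧸ Subgroup.center (H ⧸ Z₀))] [BorelSpace ((H ⧸ Z₀) ⧸ Subgroup.center (H ⧸ Z₀))]
    (μ : Measure ((H ⧸ Z₀) ⧸ Subgroup.center (H ⧸ Z₀))) [μ.IsHaarMeasure],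
  CompactSpace ((H ⧸ Z₀) ⧸ Subgroup.center (H ⧸ Z₀)) ∧
  (∀ γ ∈ QReg F φ Zk H Z₀, ∃ R : Finset (H ⧸ Z₀), Sys (QStC F Zk H Z₀) γ R) ∧
  ZSq μ (QReg F φ Zk H Z₀) (QStC F Zk H Z₀) (dirac (H ⧸ Z₀)) ∧
  (∀ T₁ T₂ : Dst (H ⧸ Z₀), ZSq μ (QReg F φ Zk H Z₀) (QStC F Zk H Z₀) T₁ → ZSq μ (QReg F φ Zk H Z₀) (QStC F Zk H Z₀) T₂ →
    ∃ T₃ : Dst (H ⧸ Z₀), Conv T₁ T₂ T₃ ∧ ZSq μ (QReg F φ Zk H Z₀) (QStC F Zk H Z₀) T₃) ∧
  ∀ T : Dst (H ⧸ Z₀), BC T → (Stq μ (QReg F φ Zk H Z₀) (QStC F Zk H Z₀) T ↔ ∀ d : PU D, QInv Z₀ d T)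

end Pool.Agent.Work.MP_481a91_al.SD
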