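import Pool.Agent.Work.MP_481a91_al.SD.Stmts

set_option autoImplicit false

noncomputable section

namespace Pool.Agent.Work.MP_481a91_al.SD

universe u

theorem pr_A0 : StA0.{u} := by
  classical
  intro G _ Γ _ a N st γ hN hst
  have hex : ∀ c : {c : ConjClasses G // c ∈ (N.image fun t => a t γ).image ConjClasses.mk},
      ∃ x : G, x ∈ (N.image fun t => a t γ) ∧ ConjClasses.mk x = c.1 := by
    intro c
    obtain ⟨x, hx, hxc⟩ := Finset.mem_image.1 c.2
    exact ⟨x, hx, hxc⟩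
  choose r hr1 hr2 using hex
  refine ⟨Finset.univ.image r, ?_, ?_⟩
  · intro ρ hρ
    obtain ⟨c, _, rfl⟩ := Finset.mem_image.1 hρ
    obtain ⟨t, _, ht⟩ := Finset.mem_image.1 (hr1 c)
    exact (hst _).2 ⟨t, ht⟩
  · intro δ hδ
    obtain ⟨d, hd⟩ := (hst δ).1 hδ
    obtain ⟨t, ht, g, hg⟩ := hN d
    have hc : ConjClasses.mk (a t γ) = ConjClasses.mk δ := by
      rw [ConjClasses.mk_eq_mk_iff_isConj, isConj_iff]
      exact ⟨g, by rw [← hg, hd]⟩
    have hmem : ConjClasses.mk δ ∈ (N.image fun t => a t γ).image ConjClasses.mk := by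
      rw [← hc]
      exact Finset.mem_image_of_mem _ (Finset.mem_image_of_mem _ ht)
    refine ⟨r ⟨_, hmem⟩, ⟨Finset.mem_image_of_mem _ (Finset.mem_univ _), ?_⟩, ?_⟩
    · rw [← ConjClasses.mk_eq_mk_iff_isConj]
      exact hr2 ⟨_, hmem⟩
    · rintro ρ ⟨hρ, hρδ⟩
      obtain ⟨c, _, rfl⟩ := Finset.mem_image.1 hρ
      rw [← ConjClasses.mk_eq_mk_iff_isConj, hr2 c] at hρδ
      exact congrArg r (Subtype.ext hρδ)

end Pool.Agent.Work.MP_481a91_al.SD
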