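import Pool.Agent.Work.MP_481a91_al.SD.Stmts

/-!
# MP_481a91_al, block SD, item A1: stable distributions are invariant
-/

set_option autoImplicit false

noncomputable section

namespace Pool.Agent.Work.MP_481a91_al.SD

open scoped TensorProduct BigOperators
open MeasureTheory

universe u

namespace XA1

variable {G : Type u} [Group G] [TopologicalSpace G] [IsTopologicalGroup G] [CompactSpace G]
  [T2Space G] [MeasurableSpace G] [BorelSpace G]

theorem cont (f : Tst G) : Continuous f.1 := f.2.1.continuous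

theorem contF (f : Tst G) (x : G) : Continuous fun g : G => f.1 (g * x * g⁻¹) :=
  (cont f).comp (by fun_prop)

theorem integ (μ : Measure G) [μ.IsHaarMeasure] (f : Tst G) (x : G) :
    Integrable (fun g : G => f.1 (g * x * g⁻¹)) μ :=
  (contF f x).integrable_of_hasCompactSupport (HasCompactSupport.of_compactSpace _)

/-- right translation as a composition -/
theorem map_right (hMs : StMs.{u}) (μ : Measure G) [μ.IsHaarMeasure] (F : G → ℂ)
    (hF : Continuous F) (k : G) : ∫ g, F (g * k) ∂μ = ∫ g, F g ∂μ := by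
  have h1 : μ.map (MulAut.conj k⁻¹ : G ≃* G) = μ := by
    apply hMs G μ (MulAut.conj k⁻¹ : G ≃* G)
    have : (fun g : G => (MulAut.conj k⁻¹) g) = fun g => k⁻¹ * g * k⁻¹⁻¹ := by
      funext g
      exact MulAut.conj_apply _ _
    show Continuous (fun g : G => (MulAut.conj k⁻¹) g)
    rw [this]
    fun_prop
  have hc : Continuous (fun g : G => (MulAut.conj k⁻¹ : G ≃* G) g) := by
    have : (fun g : G => (MulAut.conj k⁻¹) g) = fun g => k⁻¹ * g * k⁻¹⁻¹ := by
      funext g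
      exact MulAut.conj_apply _ _
    rw [this]
    fun_prop
  have h2 : ∫ g, F (k * g) ∂μ = ∫ g, F g ∂μ := integral_mul_left_eq_self F k
  rw [← h2]
  have h3 : ∫ g, F (k * g) ∂(μ.map (MulAut.conj k⁻¹ : G ≃* G)) =
      ∫ g, F (k * (MulAut.conj k⁻¹ : G ≃* G) g) ∂μ :=
    integral_map hc.measurable.aemeasurable
      (hF.comp (continuous_const_mul k)).aestronglyMeasurable
  rw [h1] at h3
  rw [h3]
  refine integral_congr_ae (Filter.Eventually.of_forall fun g => ?_)
  show F (g * k) = F (k * (MulAut.conj k⁻¹) g)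
  rw [MulAut.conj_apply]
  congr 1
  group

theorem classf (hMs : StMs.{u}) (μ : Measure G) [μ.IsHaarMeasure] (f : Tst G) {x y : G}
    (h : IsConj x y) : ∫ g, f.1 (g * y * g⁻¹) ∂μ = ∫ g, f.1 (g * x * g⁻¹) ∂μ := by
  obtain ⟨c, hc⟩ := isConj_iff.1 h
  rw [← map_right hMs μ (fun g => f.1 (g * x * g⁻¹)) (contF f x) c]
  refine integral_congr_ae (Filter.Eventually.of_forall fun g => ?_)
  show f.1 (g * y * g⁻¹) = f.1 (g * c * x * (g * c)⁻¹)
  rw [← hc]
  group

end XA1

open XA1 in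
theorem pr_A1 (hMs : StMs.{u}) : StA1.{u} := by
  classical
  intro G _ _ _ _ _ _ _ μ _ Γ _ a S st hcont hst T hT d f h hfh
  have hun : Unst μ S st (f - h) := by
    intro γ hγ R hR
    have hsub : ∀ x : G, (f - h).1 x = f.1 x - h.1 x := fun x => rfl
    have e1 : ∀ ρ : G, ∫ g, (f - h).1 (g * ρ * g⁻¹) ∂μ =
        ∫ g, f.1 (g * ρ * g⁻¹) ∂μ - ∫ g, f.1 (g * a d ρ * g⁻¹) ∂μ := by
      intro ρ
      have e2 : ∫ g, h.1 (g * ρ * g⁻¹) ∂μ = ∫ g, f.1 (g * a d ρ * g⁻¹) ∂μ := by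
        have h1 : ∫ g, f.1 (g * a d ρ * g⁻¹) ∂(μ.map (a d : G ≃* G)) =
            ∫ g, f.1 ((a d : G ≃* G) g * a d ρ * ((a d : G ≃* G) g)⁻¹) ∂μ :=
          integral_map (hcont d).measurable.aemeasurable (contF f _).aestronglyMeasurable
        rw [hMs G μ (a d : G ≃* G) (hcont d)] at h1
        rw [h1]
        refine integral_congr_ae (Filter.Eventually.of_forall fun g => ?_)
        show h.1 (g * ρ * g⁻¹) = f.1 ((a d) g * a d ρ * ((a d) g)⁻¹)
        rw [hfh, map_mul, map_mul, map_inv]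
      rw [← e2, ← integral_sub (integ μ f ρ) (integ μ h ρ)]
      rfl
    rw [Finset.sum_congr rfl fun ρ _ => e1 ρ, Finset.sum_sub_distrib, sub_eq_zero]
    -- the permutation of R
    have hex : ∀ ρ ∈ R, ∃ ρ' ∈ R, IsConj ρ' (a d ρ) := by
      intro ρ hρ
      obtain ⟨e, he⟩ := (hst γ hγ ρ).1 (hR.1 ρ hρ)
      have h1 : st γ (a d ρ) := (hst γ hγ _).2 ⟨d * e, by rw [map_mul, MulAut.mul_apply, he]⟩
      obtain ⟨ρ', ⟨h2, h3⟩, -⟩ := hR.2 _ h1
      exact ⟨ρ', h2, h3⟩
    choose! s hs1 hs2 using hex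
    have hinj : Set.InjOn s (R : Set G) := by
      intro ρ1 h1 ρ2 h2 h12
      have h1' : ρ1 ∈ R := h1
      have h2' : ρ2 ∈ R := h2
      have c1 : IsConj (a d ρ1) (a d ρ2) := by
        have := (hs2 ρ1 h1').symm
        rw [h12] at this
        exact this.trans (hs2 ρ2 h2')
      have c2 : IsConj ρ1 ρ2 := by
        obtain ⟨c, hc⟩ := isConj_iff.1 c1
        refine isConj_iff.2 ⟨(a d : G ≃* G).symm c, ?_⟩
        apply (a d : G ≃* G).injective
        rw [map_mul, map_mul, map_inv, MulEquiv.apply_symm_apply]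
        exact hc
      obtain ⟨ρ, -, hu⟩ := hR.2 ρ2 (hR.1 ρ2 h2')
      rw [hu ρ1 ⟨h1', c2⟩, hu ρ2 ⟨h2', IsConj.refl _⟩]
    have himg : R.image s = R := by
      refine Finset.eq_of_subset_of_card_le ?_ ?_
      · intro x hx
        obtain ⟨ρ, hρ, rfl⟩ := Finset.mem_image.1 hx
        exact hs1 ρ hρ
      · rw [Finset.card_image_of_injOn hinj]
    have e3 : ∑ ρ ∈ R, ∫ g, f.1 (g * a d ρ * g⁻¹) ∂μ = ∑ ρ ∈ R, ∫ g, f.1 (g * s ρ * g⁻¹) ∂μ :=
      Finset.sum_congr rfl fun ρ hρ => classf hMs μ f (hs2 ρ hρ)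
    rw [e3]
    conv_lhs => rw [← himg]
    rw [Finset.sum_image hinj]
  have h0 := hT _ hun
  rw [map_sub, sub_eq_zero] at h0
  exact h0.symm

end Pool.Agent.Work.MP_481a91_al.SD
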