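import Pool.Agent.Work.MP_481a91_al.SD.Stmts

/-!
# MP_481a91_al, block SD, item Aut: the convolution of invariant distributions is invariant
-/

set_option autoImplicit false

namespace Pool.Agent.Work.MP_481a91_al.SD

universe u

/-- Item Aut: if `T₁` and `T₂` are invariant under `α`, so is their convolution `T₃`. -/
theorem pr_Aut : StAut.{u} := by
  intro G _ _ _ α T₁ T₂ T₃ hC h1 h2 f h hfh
  obtain ⟨Hf, hHf, hTf⟩ := hC f
  obtain ⟨Hh, hHh, hTh⟩ := hC h
  rw [hTf, hTh]
  refine h1 Hf Hh (fun x => ?_)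
  rw [hHh, hHf]
  refine h2 (tr (α x) 1 f) (tr x 1 h) (fun y => ?_)
  change h.1 (x * y * 1) = f.1 (α x * α y * 1)
  rw [hfh, mul_one, mul_one, map_mul]

end Pool.Agent.Work.MP_481a91_al.SD
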