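import Pool.Agent.Work.MP_481a91_al.SD.Stmts

/-!
# MP_481a91_al, block SD, item Avg: averaging over conjugation
-/

set_option autoImplicit false

noncomputable section

namespace Pool.Agent.Work.MP_481a91_al.SD

open scoped TensorProduct BigOperators
open MeasureTheory

universe u

namespace XAvg

variable {G : Type u} [Group G] [TopologicalSpace G] [IsTopologicalGroup G] [CompactSpace G]
  [MeasurableSpace G] [BorelSpace G]

/-- The left coset `q`. -/
def cs (V : Subgroup G) (q : G ⧸ V) : Set G := (fun g : G => q.out⁻¹ * g) ⁻¹' (V : Set G)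

theorem mem_cs (V : Subgroup G) (q : G ⧸ V) (g : G) :
    g ∈ cs V q ↔ (QuotientGroup.mk g : G ⧸ V) = q := by
  have h1 : g ∈ cs V q ↔ q.out⁻¹ * g ∈ V := Iff.rfl
  rw [h1, ← QuotientGroup.eq, QuotientGroup.out_eq', eq_comm]

theorem meas_cs (V : Subgroup G) (hV : IsOpen (V : Set G)) (q : G ⧸ V) :
    MeasurableSet (cs V q) :=
  (hV.preimage (continuous_const.mul continuous_id)).measurableSet

theorem int_formula (μ : Measure G) [μ.IsHaarMeasure] (V : Subgroup G) (hV : IsOpen (V : Set G))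
    [Fintype (G ⧸ V)] (F : G → ℂ) (hF : ∀ g : G, ∀ v ∈ V, F (g * v) = F g) :
    ∫ g, F g ∂μ = ∑ q : G ⧸ V, ((μ.real (V : Set G) : ℝ) : ℂ) * F q.out := by
  classical
  have e1 : F = fun g => ∑ q : G ⧸ V, (cs V q).indicator (fun _ => F q.out) g := by
    funext g
    rw [Finset.sum_eq_single (QuotientGroup.mk g : G ⧸ V)]
    · rw [Set.indicator_of_mem ((mem_cs V _ g).2 rfl)]
      obtain ⟨v, hv⟩ := QuotientGroup.mk_out_eq_mul V g
      rw [hv, hF g v v.2]
    · intro q _ hq
      rw [Set.indicator_of_notMem]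
      intro h
      exact hq ((mem_cs V q g).1 h).symm
    · intro h
      exact absurd (Finset.mem_univ _) h
  have e2 : ∀ q : G ⧸ V, μ.real (cs V q) = μ.real (V : Set G) := by
    intro q
    unfold Measure.real cs
    rw [measure_preimage_mul]
  have e3 : ∫ g, F g ∂μ =
      ∫ g, (∑ q : G ⧸ V, (cs V q).indicator (fun _ => F q.out) g) ∂μ :=
    congrArg (fun H : G → ℂ => ∫ g, H g ∂μ) e1
  rw [e3, integral_finsetSum]
  · refine Finset.sum_congr rfl fun q _ => ?_
    rw [integral_indicator_const _ (meas_cs V hV q), e2 q]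
    rfl
  · intro q _
    exact (integrable_const _).indicator (meas_cs V hV q)

end XAvg

theorem pr_Avg (hUni : StUni.{u}) : StAvg.{u} := by
  intro G _ _ _ _ _ _ μ _ f
  obtain ⟨V, -, hV, hf⟩ := hUni G f
  have hfin : Finite (G ⧸ V) := Subgroup.quotient_finite_of_isOpen V hV
  have hft : Fintype (G ⧸ V) := Fintype.ofFinite _
  refine ⟨((μ.real (V : Set G) : ℝ) : ℂ) • ∑ q : G ⧸ V, tr q.out q.out⁻¹ f, ?_, ?_⟩
  · intro x
    rw [XAvg.int_formula μ V hV (fun g => f.1 (g * x * g⁻¹))]
    · have e : (∑ q : G ⧸ V, tr q.out q.out⁻¹ f).1 x =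
          ∑ q : G ⧸ V, f.1 (q.out * x * q.out⁻¹) := by
        rw [Submodule.coe_sum, Finset.sum_apply]
        rfl
      rw [← Finset.mul_sum, ← e]
      rfl
    · intro g v hv
      have h1 : f.1 (g * v * x * (g * v)⁻¹) = f.1 (g * v * (x * v⁻¹ * g⁻¹)) := by
        congr 1
        group
      have h2 : f.1 (g * (x * v⁻¹ * g⁻¹)) = f.1 ((g * x) * v⁻¹ * g⁻¹) := by
        congr 1
        group
      show f.1 (g * v * x * (g * v)⁻¹) = f.1 (g * x * g⁻¹)
      rw [h1, hf v hv, h2, hf v⁻¹ (V.inv_mem hv)]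
  · intro T hT
    have h1 : ∀ q : G ⧸ V, T (tr q.out q.out⁻¹ f) = T f := by
      intro q
      have := hT q.out⁻¹ f
      rw [inv_inv] at this
      exact this
    have h2 : ((μ Set.univ).toReal : ℂ) =
        ∑ _q : G ⧸ V, ((μ.real (V : Set G) : ℝ) : ℂ) := by
      have := XAvg.int_formula μ V hV (fun _ => (1 : ℂ)) (fun _ _ _ => rfl)
      rw [integral_const] at this
      simp only [mul_one] at this
      rw [← this]
      show _ = (μ.real Set.univ) • (1 : ℂ)
      rw [Complex.real_smul, mul_one]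
      rfl
    rw [map_smul, map_sum, h2, smul_eq_mul, Finset.sum_congr rfl fun q _ => h1 q,
      Finset.sum_const, Finset.sum_const, nsmul_eq_mul, nsmul_eq_mul]
    ring

end Pool.Agent.Work.MP_481a91_al.SD
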