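import Pool.Agent.Work.MP_481a91_al.SD.Stmts

/-! Item Cj of block SD. -/

set_option autoImplicit false

namespace Pool.Agent.Work.MP_481a91_al.SD

universe u

theorem pr_Cj : StCj.{u} := by
  intro F D _ _ _ n φ γ δ d hd
  have h1 : ((δ : Dˣ) : D) * (d : D) = (d : D) * ((γ : Dˣ) : D) := by
    have h2 : (δ : Dˣ) = d * (γ : Dˣ) * d⁻¹ := by
      rw [← hd]
      exact MulAut.conjNormal_apply d γ
    have h3 : (δ : Dˣ) * d = d * (γ : Dˣ) := by
      rw [h2]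
      group
    have h4 := congrArg (fun z : Dˣ => (z : D)) h3
    simpa using h4
  set g₀ := mat φ (d : D) with hg₀
  have hc : g₀ * mat φ ((γ : Dˣ) : D) = mat φ ((δ : Dˣ) : D) * g₀ := by
    rw [hg₀, ← map_mul, ← map_mul, h1]
  have hu : IsUnit g₀.det := by
    have h5 : g₀ * mat φ ((d⁻¹ : Dˣ) : D) = 1 := by
      rw [hg₀, ← map_mul, Units.mul_inv, map_one]
    have h6 : g₀.det * (mat φ ((d⁻¹ : Dˣ) : D)).det = 1 := by
      rw [← Matrix.det_mul, h5, Matrix.det_one]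
    exact IsUnit.of_mul_eq_one _ h6
  rcases Nat.eq_zero_or_pos n with hn | hn
  · subst hn
    refine ⟨1, ?_⟩
    exact Subsingleton.elim _ _
  · obtain ⟨c, hcn⟩ := IsAlgClosed.exists_pow_nat_eq g₀.det hn
    have hc0 : c ≠ 0 := by
      intro h0
      rw [h0, zero_pow hn.ne'] at hcn
      exact hu.ne_zero hcn.symm
    refine ⟨⟨c⁻¹ • g₀, ?_⟩, ?_⟩
    · rw [Matrix.det_smul, Fintype.card_fin, ← hcn, ← mul_pow, inv_mul_cancel₀ hc0, one_pow]
    · change (c⁻¹ • g₀) * _ = _ * (c⁻¹ • g₀)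
      rw [Matrix.smul_mul, hc, Matrix.mul_smul]

end Pool.Agent.Work.MP_481a91_al.SD
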