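import Pool.Agent.Work.MP_481a91_al.SD.Stmts

/-!
# MP_481a91_al, block SD, item Cnv: convolutions on a compact group
-/

set_option autoImplicit false

noncomputable section

namespace Pool.Agent.Work.MP_481a91_al.SD

open scoped TensorProduct BigOperators
open MeasureTheory

universe u

namespace XCnv

variable {G : Type u} [Group G] [TopologicalSpace G] [IsTopologicalGroup G]

theorem tr_add (a b : G) (f g : Tst G) : tr a b (f + g) = tr a b f + tr a b g := rfl

theorem tr_smul (a b : G) (c : ℂ) (f : Tst G) : tr a b (c • f) = c • tr a b f := rfl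

theorem loc [CompactSpace G] (hUni : StUni.{u}) (T : Dst G) (f : Tst G) :
    IsLocallyConstant (fun x : G => T (tr x 1 f)) := by
  obtain ⟨V, -, hVo, hV⟩ := hUni G f
  rw [IsLocallyConstant.iff_exists_open]
  intro x
  refine ⟨(fun y : G => x⁻¹ * y) ⁻¹' (V : Set G),
    hVo.preimage (continuous_const.mul continuous_id), ?_, ?_⟩
  · show x⁻¹ * x ∈ V
    rw [inv_mul_cancel]
    exact V.one_mem
  · intro y hy
    have hy' : x⁻¹ * y ∈ V := hy
    have h1 : tr y 1 f = tr x 1 f := by
      apply Subtype.ext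
      funext z
      show f.1 (y * z * 1) = f.1 (x * z * 1)
      have h2 := hV _ hy' x (z * 1)
      rw [mul_inv_cancel_left] at h2
      rw [mul_assoc, h2, mul_assoc]
    show T (tr y 1 f) = T (tr x 1 f)
    rw [h1]

/-- the function `x ↦ T (y ↦ f (x y))` -/
def hh [CompactSpace G] (hUni : StUni.{u}) (T : Dst G) (f : Tst G) : Tst G :=
  ⟨fun x => T (tr x 1 f), loc hUni T f, HasCompactSupport.of_compactSpace _⟩

end XCnv

open XCnv in
theorem pr_Cnv (hUni : StUni.{u}) : StCnv.{u} := by
  intro G _ _ _ _ T₁ T₂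
  refine ⟨{ toFun := fun f => T₁ (hh hUni T₂ f), map_add' := ?_, map_smul' := ?_ }, ?_⟩
  · intro f g
    rw [← map_add]
    congr 1
    apply Subtype.ext
    funext x
    show T₂ (tr x 1 (f + g)) = T₂ (tr x 1 f) + T₂ (tr x 1 g)
    rw [tr_add, map_add]
  · intro c f
    rw [RingHom.id_apply, ← map_smul]
    congr 1
    apply Subtype.ext
    funext x
    show T₂ (tr x 1 (c • f)) = c • T₂ (tr x 1 f)
    rw [tr_smul, map_smul]
  · intro f
    exact ⟨hh hUni T₂ f, fun _ => rfl, rfl⟩

end Pool.Agent.Work.MP_481a91_al.SD
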