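import Pool.Agent.Work.MP_481a91_al.SD.Stmts

/-!
[481a91 SD Dn] The elements of degree `n` are dense.
-/

set_option autoImplicit false

noncomputable section

namespace Pool.Agent.Work.MP_481a91_al.SD

universe u

namespace XDn

/-- Linear forms of the powers of `x₀ + s w` are polynomials in `s`. -/
theorem poly {F D : Type u} [Field F] [DivisionRing D] [Algebra F D] (x w : D) (j : ℕ) :
    ∀ l : D →ₗ[F] F, ∃ r : Polynomial F, ∀ s : F, r.eval s = l ((x + s • w) ^ j) := by
  induction j with
  | zero =>
    intro l
    exact ⟨Polynomial.C (l 1), fun s => by simp⟩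
  | succ j ih =>
    intro l
    obtain ⟨r1, h1⟩ := ih (l.comp (LinearMap.mulRight F x))
    obtain ⟨r2, h2⟩ := ih (l.comp (LinearMap.mulRight F w))
    refine ⟨r1 + Polynomial.X * r2, fun s => ?_⟩
    rw [Polynomial.eval_add, Polynomial.eval_mul, Polynomial.eval_X, h1, h2, pow_succ, mul_add,
      map_add, mul_smul_comm, map_smul, smul_eq_mul]
    rfl

end XDn

theorem pr_Dn : StDn.{u} := by
  intro F D _ _ _ _ _ _ _ _ n y hy
  classical
  intro x
  -- a projection onto the span of the powers of `y`
  obtain ⟨P, hP⟩ := LinearMap.exists_leftInverse_of_injective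
    (Fintype.linearCombination F (fun i : Fin n => y ^ (i : ℕ)))
    (LinearMap.ker_eq_bot.2 (linearIndependent_iff_injective_fintypeLinearCombination.1 hy))
  have hPy : ∀ j : Fin n, P (y ^ (j : ℕ)) = Pi.single j (1 : F) := by
    intro j
    have h1 : Fintype.linearCombination F (fun i : Fin n => y ^ (i : ℕ)) (Pi.single j (1 : F)) =
        y ^ (j : ℕ) := by
      rw [Fintype.linearCombination_apply_single, one_smul]
    rw [← h1]
    exact LinearMap.congr_fun hP (Pi.single j 1)
  -- the polynomials
  have hr : ∀ j i : Fin n, ∃ r : Polynomial F, ∀ s : F,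
      r.eval s = P ((x + s • (y - x)) ^ (j : ℕ)) i := by
    intro j i
    exact XDn.poly x (y - x) j ((LinearMap.proj i).comp P)
  choose R hR using hr
  have hdet : ∀ s : F, (Matrix.of R).det.eval s =
      (Matrix.of fun j : Fin n => P ((x + s • (y - x)) ^ (j : ℕ))).det := by
    intro s
    rw [← Polynomial.coe_evalRingHom, RingHom.map_det]
    congr 1
    ext j i
    simp [hR]
  have h1 : (Matrix.of R).det.eval 1 = 1 := by
    rw [hdet]
    have : (Matrix.of fun j : Fin n => P ((x + (1 : F) • (y - x)) ^ (j : ℕ))) = 1 := by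
      ext j i
      simp only [one_smul, add_sub_cancel, Matrix.of_apply, hPy]
      rw [Matrix.one_apply, Pi.single_apply]
      simp [eq_comm]
    rw [this, Matrix.det_one]
  have hG : (Matrix.of R).det ≠ 0 := by
    intro h
    rw [h] at h1
    simp at h1
  have hfin : {s : F | (Matrix.of R).det.eval s = 0}.Finite := by
    refine (Polynomial.finite_setOfPred_isRoot hG).subset ?_
    intro s hs
    exact hs
  have hdense : Dense {s : F | (Matrix.of R).det.eval s = 0}ᶜ := by
    have := (dense_univ (X := F)).sdiff_finite hfin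
    rwa [← Set.compl_eq_univ_sdiff] at this
  have hcont : Continuous (fun s : F => x + s • (y - x)) := by fun_prop
  have h0 : (fun s : F => x + s • (y - x)) 0 = x := by simp
  rw [← h0]
  have hsub : (fun s : F => x + s • (y - x)) '' {s : F | (Matrix.of R).det.eval s = 0}ᶜ ⊆
      {x : D | LinearIndependent F (fun i : Fin n => x ^ (i : ℕ))} := by
    rintro _ ⟨s, hs, rfl⟩
    apply LinearIndependent.of_comp P
    have hs' : (Matrix.of fun j : Fin n => P ((x + s • (y - x)) ^ (j : ℕ))).det ≠ 0 := by
      rw [← hdet]
      exact hs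
    exact Matrix.linearIndependent_rows_iff_isUnit.2
      ((Matrix.isUnit_iff_isUnit_det _).2 (isUnit_iff_ne_zero.2 hs'))
  exact closure_mono hsub (image_closure_subset_closure_image hcont
    (Set.mem_image_of_mem _ (hdense 0)))

end Pool.Agent.Work.MP_481a91_al.SD
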