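import Pool.Agent.Work.MP_481a91_al.SD.Stmts

/-!
# MP_481a91_al, block SD: item Ess

On a compact group every distribution is essentially compact.
-/

set_option autoImplicit false

noncomputable section

namespace Pool.Agent.Work.MP_481a91_al.SD

open scoped TensorProduct BigOperators
open MeasureTheory

universe u

namespace XEss

variable {G : Type u} [Group G] [TopologicalSpace G] [IsTopologicalGroup G]

theorem iv_tr_eq (f : Tst G) (v x : G) (hv : ∀ x y : G, f.1 (x * v * y) = f.1 (x * y)) :
    iv (tr 1 (x * v) f) = iv (tr 1 x f) := by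
  apply Subtype.ext
  funext y
  show f.1 (1 * y⁻¹ * (x * v)) = f.1 (1 * y⁻¹ * x)
  have h := hv (1 * y⁻¹ * x) 1
  rw [mul_one, mul_one] at h
  rw [← mul_assoc (1 * y⁻¹) x v]
  exact h

end XEss

theorem pr_Ess (hUni : StUni.{u}) : StEss.{u} := by
  intro G _ _ _ _ T f
  obtain ⟨V, _, hVo, hV⟩ := hUni G f
  have hloc : IsLocallyConstant (fun x : G => T (iv (tr 1 x f))) := by
    rw [IsLocallyConstant.iff_exists_open]
    intro x
    refine ⟨(fun y : G => x⁻¹ * y) ⁻¹' (V : Set G), hVo.preimage (continuous_const_mul x⁻¹), ?_, ?_⟩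
    · show x⁻¹ * x ∈ (V : Set G)
      rw [inv_mul_cancel]
      exact V.one_mem
    · intro y hy
      have h := XEss.iv_tr_eq f (x⁻¹ * y) x (hV _ hy)
      rw [mul_inv_cancel_left] at h
      show T (iv (tr 1 y f)) = T (iv (tr 1 x f))
      rw [h]
  exact ⟨⟨fun x : G => T (iv (tr 1 x f)), hloc, HasCompactSupport.of_compactSpace _⟩, fun x => rfl⟩

end Pool.Agent.Work.MP_481a91_al.SD
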