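import Pool.Agent.Work.MP_481a91_al.SD.Stmts

/-!
# MP_481a91_al, block SD, item Ex (helper48): an element of degree `n` in `D`
-/

set_option autoImplicit false

noncomputable section

namespace Pool.Agent.Work.MP_481a91_al.SD

open scoped TensorProduct BigOperators

universe u

namespace XEx

/-- a nonzero polynomial over a bigger field has a point over a smaller infinite field at which it does not vanish -/
theorem exists_pt {F K : Type u} [Field F] [Field K] [Algebra F K] [Infinite F] (m : ℕ)
    (G : MvPolynomial (Fin m) K) (hG : G ≠ 0) :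
    ∃ t : Fin m → F, MvPolynomial.eval (fun j => algebraMap F K (t j)) G ≠ 0 := by
  by_contra hcon
  push Not at hcon
  apply hG
  refine MvPolynomial.funext_set (fun _ => Set.range (algebraMap F K)) (fun _ => ?_) ?_
  · exact Set.infinite_range_of_injective (algebraMap F K).injective
  · intro x hx
    rw [map_zero]
    have hx' : ∀ j, ∃ t : F, algebraMap F K t = x j := fun j => hx j (Set.mem_univ j)
    choose t ht using hx'
    have h := hcon t
    have e : (fun j => algebraMap F K (t j)) = x := funext ht
    rw [e] at h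
    exact h

variable {K : Type u} [Field K] {m n : ℕ}

/-- the matrix `∑ t_j B_j` -/
def Y (B : Fin m → Matrix (Fin n) (Fin n) K) (t : Fin m → K) : Matrix (Fin n) (Fin n) K :=
  ∑ j, t j • B j

/-- the matrix with the columns `M^k w` -/
def cols {R : Type u} [CommRing R] (M : Matrix (Fin n) (Fin n) R) : Matrix (Fin n) (Fin n) R :=
  Matrix.of fun i k => ((M ^ (k : ℕ)).mulVec (fun _ => 1)) i

/-- the generic matrix -/
def gen (B : Fin m → Matrix (Fin n) (Fin n) K) : Matrix (Fin n) (Fin n) (MvPolynomial (Fin m) K) :=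
  ∑ j, (MvPolynomial.X j : MvPolynomial (Fin m) K) • (B j).map MvPolynomial.C

theorem cols_map {R S : Type u} [CommRing R] [CommRing S] (f : R →+* S)
    (M : Matrix (Fin n) (Fin n) R) : (cols M).map f = cols (M.map f) := by
  ext i k
  simp only [cols, Matrix.map_apply, Matrix.of_apply, Matrix.mulVec, dotProduct, mul_one, map_sum]
  refine Finset.sum_congr rfl fun l _ => ?_
  rw [show M.map f = f.mapMatrix M from rfl, ← map_pow]
  rfl

theorem gen_map (B : Fin m → Matrix (Fin n) (Fin n) K) (t : Fin m → K) :
    (gen B).map (MvPolynomial.eval t) = Y B t := by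
  ext i k
  simp [gen, Y, Matrix.sum_apply]

theorem evDet (B : Fin m → Matrix (Fin n) (Fin n) K) (t : Fin m → K) :
    MvPolynomial.eval t (cols (gen B)).det = (cols (Y B t)).det := by
  rw [RingHom.map_det]
  congr 1
  change (cols (gen B)).map (MvPolynomial.eval t) = _
  rw [cols_map, gen_map]

theorem det_diag (a : Fin n → K) (ha : Function.Injective a) :
    (cols (Matrix.diagonal a)).det ≠ 0 := by
  have h : cols (Matrix.diagonal a) = Matrix.vandermonde a := by
    ext i k
    simp [cols, Matrix.diagonal_pow, Matrix.mulVec_diagonal, Matrix.vandermonde]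
  rw [h]
  exact Matrix.det_vandermonde_ne_zero_iff.2 ha

end XEx

open XEx in
theorem pr_Ex : StEx.{u} := by
  intro F D _ _ _ _ _ n ⟨φ⟩
  let K := AlgebraicClosure F
  have : CharZero K := charZero_of_injective_algebraMap (algebraMap F K).injective
  have : Infinite F := CharZero.infinite F
  let b := Module.finBasis F D
  let m := Module.finrank F D
  let bK : Module.Basis (Fin m) K (K ⊗[F] D) := Algebra.TensorProduct.basis K b
  let B : Fin m → Matrix (Fin n) (Fin n) K := fun j => φ (1 ⊗ₜ[F] b j)
  -- the matrices generate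
  have hgen : ∀ M : Matrix (Fin n) (Fin n) K, ∃ t : Fin m → K, Y B t = M := by
    intro M
    refine ⟨fun j => bK.repr (φ.symm M) j, ?_⟩
    have h1 : ∑ j, bK.repr (φ.symm M) j • bK j = φ.symm M := bK.sum_repr _
    have h2 := congrArg φ h1
    rw [map_sum, AlgEquiv.apply_symm_apply] at h2
    refine Eq.trans ?_ h2
    unfold Y
    refine Finset.sum_congr rfl fun j _ => ?_
    rw [map_smul]
    have h3 : bK j = 1 ⊗ₜ[F] b j := Algebra.TensorProduct.basis_apply b j
    rw [h3]
  -- the polynomial is not zero
  have hG : (cols (gen B)).det ≠ 0 := by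
    obtain ⟨t, ht⟩ := hgen (Matrix.diagonal fun i : Fin n => ((i : ℕ) : K))
    intro h0
    have h1 := evDet B t
    rw [h0, map_zero, ht] at h1
    refine det_diag (fun i : Fin n => ((i : ℕ) : K)) ?_ h1.symm
    intro i j hij
    exact Fin.ext (Nat.cast_injective hij)
  obtain ⟨t, ht⟩ := exists_pt (F := F) m _ hG
  rw [evDet] at ht
  refine ⟨∑ j, t j • b j, ?_⟩
  -- the matrix of y
  have hY : φ (1 ⊗ₜ[F] (∑ j, t j • b j)) = Y B (fun j => algebraMap F K (t j)) := by
    rw [TensorProduct.tmul_sum, map_sum]
    unfold Y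
    refine Finset.sum_congr rfl fun j _ => ?_
    have h1 : (1 : K) ⊗ₜ[F] (t j • b j) = algebraMap F K (t j) • ((1 : K) ⊗ₜ[F] b j) := by
      rw [TensorProduct.tmul_smul, ← algebraMap_smul K (t j)]
    rw [h1, map_smul]
  rw [Fintype.linearIndependent_iff]
  intro c hc
  have h2 : ∑ i : Fin n, algebraMap F K (c i) • (Y B (fun j => algebraMap F K (t j))) ^ (i : ℕ) = 0 := by
    have h3 : φ (1 ⊗ₜ[F] (∑ i : Fin n, c i • (∑ j, t j • b j) ^ (i : ℕ))) = 0 := by
      rw [hc, TensorProduct.tmul_zero, map_zero]
    rw [TensorProduct.tmul_sum, map_sum] at h3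
    rw [← h3]
    refine Finset.sum_congr rfl fun i _ => ?_
    have h1 : (1 : K) ⊗ₜ[F] (c i • (∑ j, t j • b j) ^ (i : ℕ)) =
        algebraMap F K (c i) • ((1 : K) ⊗ₜ[F] (∑ j, t j • b j)) ^ (i : ℕ) := by
      rw [TensorProduct.tmul_smul, ← algebraMap_smul K (c i), Algebra.TensorProduct.tmul_pow, one_pow]
    rw [h1, map_smul, map_pow, hY]
  have h4 : (cols (Y B (fun j => algebraMap F K (t j)))).mulVec (fun i => algebraMap F K (c i)) = 0 := by
    ext l
    have h5 := congrFun (congrArg (fun M => Matrix.mulVec M (fun _ => (1 : K))) h2) l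
    simp only [Matrix.zero_mulVec, Pi.zero_apply] at h5
    rw [Pi.zero_apply, ← h5, Matrix.sum_mulVec, Finset.sum_apply]
    simp only [Matrix.mulVec, dotProduct, cols, Matrix.of_apply]
    refine Finset.sum_congr rfl fun i _ => ?_
    rw [Finset.sum_mul]
    refine Finset.sum_congr rfl fun j _ => ?_
    rw [Matrix.smul_apply, smul_eq_mul]
    ring
  have h6 := Matrix.eq_zero_of_mulVec_eq_zero ht h4
  intro i
  have h7 := congrFun h6 i
  exact (map_eq_zero (algebraMap F K)).1 h7

end Pool.Agent.Work.MP_481a91_al.SD
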