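import Pool.Agent.Work.MP_481a91_al.SD.Stmts

/-!
# MP_481a91_al, block SD, item Ix: finitely many outer automorphisms modulo inner ones
-/

set_option autoImplicit false

noncomputable section

namespace Pool.Agent.Work.MP_481a91_al.SD

open scoped TensorProduct BigOperators

universe u

namespace XIx

variable {F D : Type u} [Field F] [DivisionRing D] [Algebra F D] {n : ℕ}
  (φ : AlgebraicClosure F ⊗[F] D ≃ₐ[AlgebraicClosure F] Matrix (Fin n) (Fin n) (AlgebraicClosure F))
  (N : D → F) (hN : ∀ x : D, algebraMap F (AlgebraicClosure F) (N x) = (mat φ x).det)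

include hN

theorem N_mul (x y : D) : N (x * y) = N x * N y := by
  apply (algebraMap F (AlgebraicClosure F)).injective
  rw [map_mul, hN, hN, hN, map_mul, Matrix.det_mul]

theorem N_one : N 1 = 1 := by
  apply (algebraMap F (AlgebraicClosure F)).injective
  rw [hN, map_one, map_one, Matrix.det_one]

theorem N_scalar (s : F) : N (algebraMap F D s) = s ^ n := by
  apply (algebraMap F (AlgebraicClosure F)).injective
  rw [hN, AlgHom.commutes, Algebra.algebraMap_eq_smul_one, Matrix.det_smul_of_tower,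
    Matrix.det_one, Fintype.card_fin, map_pow, Algebra.algebraMap_eq_smul_one, smul_pow, one_pow]

theorem N_unit (d : Dˣ) : N (d : D) ≠ 0 := by
  intro h
  have h1 := N_mul φ N hN (d : D) ((d⁻¹ : Dˣ) : D)
  rw [Units.mul_inv, N_one φ N hN, h, zero_mul] at h1
  exact one_ne_zero h1

theorem mem_SL1 (d : Dˣ) (h : N (d : D) = 1) : d ∈ SL1 φ := by
  show nrd φ d = 1
  show (mat φ (d : D)).det = 1
  rw [← hN, h, map_one]

end XIx

theorem pr_Ix (hNm : StNm.{u}) (hFi : StFi.{u}) : StIx.{u} := by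
  intro F D _ _ _ _ _ _ n φ
  classical
  obtain ⟨hn, N, hN⟩ := hNm F D n φ
  obtain ⟨E, hE⟩ := hFi F n hn
  let P : F → Dˣ → Prop := fun e t => ∃ c : F, c ≠ 0 ∧ N (t : D) = e * c ^ n
  let t₀ : F → Dˣ := fun e => if h : ∃ t, P e t then h.choose else 1
  refine ⟨E.image t₀, fun d => ?_⟩
  obtain ⟨e, he, c, hc, hd⟩ := hE (N (d : D)) (XIx.N_unit φ N hN d)
  have hex : ∃ t, P e t := ⟨d, c, hc, hd⟩
  have ht : P e (t₀ e) := by
    have h1 : t₀ e = hex.choose := dif_pos hex
    rw [h1]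
    exact hex.choose_spec
  refine ⟨t₀ e, Finset.mem_image_of_mem t₀ he, ?_⟩
  generalize t₀ e = t at ht
  obtain ⟨c', hc', htN⟩ := ht
  have hs : c' / c ≠ 0 := div_ne_zero hc' hc
  let σ : Dˣ := Units.map (algebraMap F D : F →* D) (Units.mk0 (c' / c) hs)
  have hσ : ((σ : Dˣ) : D) = algebraMap F D (c' / c) := rfl
  have hσc : ∀ y : Dˣ, σ * y = y * σ := by
    intro y
    apply Units.ext
    rw [Units.val_mul, Units.val_mul, hσ, Algebra.commutes]
  have hg : N ((σ * (d * t⁻¹) : Dˣ) : D) = 1 := by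
    have h1 : N ((σ * (d * t⁻¹) : Dˣ) : D) * N (t : D) = N (t : D) := by
      rw [← XIx.N_mul φ N hN, ← Units.val_mul]
      have h2 : σ * (d * t⁻¹) * t = σ * d := by group
      rw [h2, Units.val_mul, XIx.N_mul φ N hN, hσ, XIx.N_scalar φ N hN, hd, htN, div_pow]
      field_simp
    exact mul_right_cancel₀ (XIx.N_unit φ N hN t) (h1.trans (one_mul _).symm)
  refine ⟨⟨σ * (d * t⁻¹), XIx.mem_SL1 φ N hN _ hg⟩, fun x => ?_⟩
  apply Subtype.ext
  rw [Subgroup.coe_mul, Subgroup.coe_mul, Subgroup.coe_inv, MulAut.conjNormal_apply,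
    MulAut.conjNormal_apply]
  have h3 : σ * (d * t⁻¹) * (t * (x : Dˣ) * t⁻¹) * (σ * (d * t⁻¹))⁻¹
      = σ * (d * (x : Dˣ) * d⁻¹) * σ⁻¹ := by group
  rw [h3, hσc, mul_inv_cancel_right]

end Pool.Agent.Work.MP_481a91_al.SD
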