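import Pool.Agent.Work.MP_481a91_al.SD.Stmts

set_option autoImplicit false

noncomputable section

namespace Pool.Agent.Work.MP_481a91_al.SD

open scoped TensorProduct BigOperators
open MeasureTheory

universe u

namespace XKp

theorem alg {F D : Type u} [Field F] [DivisionRing D] [Algebra F D] {n : ℕ}
    (φ : AlgebraicClosure F ⊗[F] D ≃ₐ[AlgebraicClosure F] Matrix (Fin n) (Fin n) (AlgebraicClosure F))
    (N : D → F) (hN : ∀ x : D, algebraMap F (AlgebraicClosure F) (N x) = (mat φ x).det) :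
    (∀ x y : D, N (x * y) = N x * N y) ∧ N 1 = 1 ∧ (∀ (t : F) (x : D), N (t • x) = t ^ n * N x) ∧
      ∀ x : D, x ≠ 0 → N x ≠ 0 := by
  have hinj : Function.Injective (algebraMap F (AlgebraicClosure F)) :=
    (algebraMap F (AlgebraicClosure F)).injective
  have hmul : ∀ x y : D, N (x * y) = N x * N y := by
    intro x y
    apply hinj
    rw [map_mul, hN, hN, hN, map_mul, Matrix.det_mul]
  have hone : N 1 = 1 := by
    apply hinj
    rw [hN, map_one, map_one, Matrix.det_one]
  refine ⟨hmul, hone, ?_, ?_⟩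
  · intro t x
    apply hinj
    have h1 : mat φ (t • x) = algebraMap F (AlgebraicClosure F) t • mat φ x := by
      rw [map_smul, algebraMap_smul]
    rw [hN, h1, Matrix.det_smul, Fintype.card_fin, map_mul, map_pow, hN]
  · intro x hx h0
    have h1 : N (x * x⁻¹) = 1 := by rw [mul_inv_cancel₀ hx, hone]
    rw [hmul, h0, zero_mul] at h1
    exact zero_ne_one h1

theorem bdd {F E : Type*} [NontriviallyNormedField F] [ProperSpace F] [NormedAddCommGroup E]
    [NormedSpace F E] [ProperSpace E] (n : ℕ) (hn : 1 ≤ n) (M : E → F) (hc : Continuous M)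
    (hs : ∀ (t : F) (v : E), M (t • v) = t ^ n * M v) (h0 : ∀ v, v ≠ 0 → M v ≠ 0) :
    ∃ R : ℝ, ∀ v, M v = 1 → ‖v‖ ≤ R := by
  obtain ⟨b, hb⟩ := NormedField.exists_one_lt_norm F
  have hC : IsCompact (Metric.closedBall (0 : E) ‖b‖ ∩ {v : E | 1 ≤ ‖v‖}) :=
    (isCompact_closedBall _ _).inter_right (isClosed_le continuous_const continuous_norm)
  obtain ⟨c, hc0, hcC⟩ := hC.exists_forall_le' (f := fun v => ‖M v‖) (a := 0)
    (hc.norm.continuousOn) (by
      intro v hv
      have hv0 : v ≠ 0 := by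
        rintro rfl
        have := hv.2
        simp only [Set.mem_setOf_eq, norm_zero] at this
        linarith
      exact norm_pos_iff.mpr (h0 v hv0))
  refine ⟨‖b‖ * max 1 c⁻¹, fun v hv => ?_⟩
  have hb0 : 0 < ‖b‖ := by linarith
  by_cases hz : v = 0
  · subst hz
    rw [norm_zero]
    positivity
  have hvpos : 0 < ‖v‖ := norm_pos_iff.mpr hz
  obtain ⟨k, hk1, hk2⟩ := exists_mem_Ico_zpow hvpos hb
  have hpos : 0 < ‖b‖ ^ k := zpow_pos hb0 k
  have hnorm : ‖(b ^ (-k)) • v‖ = (‖b‖ ^ k)⁻¹ * ‖v‖ := by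
    rw [norm_smul, norm_zpow, zpow_neg]
  have hmem : (b ^ (-k)) • v ∈ Metric.closedBall (0 : E) ‖b‖ ∩ {v : E | 1 ≤ ‖v‖} := by
    constructor
    · rw [mem_closedBall_zero_iff, hnorm, inv_mul_le_iff₀ hpos]
      have : ‖b‖ ^ (k + 1) = ‖b‖ ^ k * ‖b‖ := zpow_add_one₀ hb0.ne' k
      rw [this] at hk2
      exact hk2.le
    · show 1 ≤ ‖(b ^ (-k)) • v‖
      rw [hnorm, le_inv_mul_iff₀ hpos, mul_one]
      exact hk1
  have h1 := hcC _ hmem
  rw [hs, hv, mul_one, norm_pow, norm_zpow, zpow_neg, inv_pow] at h1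
  have h2 : (‖b‖ ^ k) ^ n ≤ c⁻¹ := by
    rw [le_inv_comm₀ (by positivity) hc0]
    exact h1
  have h3 : ‖b‖ ^ k ≤ max 1 c⁻¹ := by
    rcases le_or_gt (‖b‖ ^ k) 1 with h | h
    · exact h.trans (le_max_left _ _)
    · exact ((le_self_pow₀ h.le (by omega)).trans h2).trans (le_max_right _ _)
  have h4 : ‖b‖ ^ (k + 1) = ‖b‖ ^ k * ‖b‖ := zpow_add_one₀ hb0.ne' k
  calc ‖v‖ ≤ ‖b‖ ^ (k + 1) := hk2.le
    _ = ‖b‖ * ‖b‖ ^ k := by rw [h4, mul_comm]
    _ ≤ ‖b‖ * max 1 c⁻¹ := mul_le_mul_of_nonneg_left h3 hb0.le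

end XKp

theorem pr_Kp (hNm : StNm.{u}) (hNc : StNc.{u}) : StKp.{u} := by
  intro F D _ _ _ _ _ _ _ _ _ _ n φ
  obtain ⟨hn, N, hN⟩ := hNm F D n φ
  have hcN : Continuous N := hNc F D n φ N hN
  obtain ⟨hmul, hone, hsm, hne⟩ := XKp.alg φ N hN
  haveI : CompleteSpace F := inferInstance
  let e : D ≃L[F] (Fin (Module.finrank F D) → F) :=
    (Module.finBasis F D).equivFun.toContinuousLinearEquiv
  have hb : ∃ R : ℝ, ∀ v, N (e.symm v) = 1 → ‖v‖ ≤ R := by
    refine XKp.bdd n hn (fun v => N (e.symm v)) (hcN.comp e.symm.continuous) ?_ ?_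
    · intro t v
      show N (e.symm (t • v)) = t ^ n * N (e.symm v)
      rw [map_smul, hsm]
    · intro v hv
      apply hne
      intro h
      apply hv
      have := congrArg e h
      simpa using this
  obtain ⟨R, hR⟩ := hb
  have hScl : IsClosed {x : D | N x = 1} := isClosed_eq hcN continuous_const
  have hS : IsCompact {x : D | N x = 1} := by
    refine IsCompact.of_isClosed_subset
      ((isCompact_closedBall (0 : Fin (Module.finrank F D) → F) R).image e.symm.continuous) hScl ?_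
    intro x hx
    refine ⟨e x, ?_, by simp⟩
    rw [mem_closedBall_zero_iff]
    apply hR
    rw [ContinuousLinearEquiv.symm_apply_apply]
    exact hx
  have hK : IsCompact ({x : D | N x = 1} ×ˢ (MulOpposite.op '' {x : D | N x = 1})) :=
    hS.prod (hS.image MulOpposite.continuous_op)
  have hpre : IsCompact ((Units.embedProduct D) ⁻¹'
      ({x : D | N x = 1} ×ˢ (MulOpposite.op '' {x : D | N x = 1}))) :=
    Units.isClosedEmbedding_embedProduct.isCompact_preimage hK
  have hset : ((SL1 φ : Subgroup Dˣ) : Set Dˣ) = (Units.embedProduct D) ⁻¹'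
      ({x : D | N x = 1} ×ˢ (MulOpposite.op '' {x : D | N x = 1})) := by
    have hinj : Function.Injective (algebraMap F (AlgebraicClosure F)) :=
      (algebraMap F (AlgebraicClosure F)).injective
    have hiff : ∀ d : Dˣ, d ∈ SL1 φ ↔ N (d : D) = 1 := by
      intro d
      rw [SL1, MonoidHom.mem_ker]
      show (mat φ (d : D)).det = 1 ↔ N (d : D) = 1
      rw [← hN]
      constructor
      · intro h
        apply hinj
        rw [h, map_one]
      · intro h
        rw [h, map_one]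
    ext d
    simp only [SetLike.mem_coe, Set.mem_preimage, Units.embedProduct_apply, Set.mem_prod,
      Set.mem_setOf_eq, Set.mem_image]
    constructor
    · intro hd
      refine ⟨(hiff d).mp hd, _, (hiff d⁻¹).mp (inv_mem hd), rfl⟩
    · rintro ⟨hd, -⟩
      exact (hiff d).mpr hd
  rw [← hset] at hpre
  exact isCompact_iff_compactSpace.mp hpre

end Pool.Agent.Work.MP_481a91_al.SD
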