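import Pool.Agent.Work.MP_481a91_al.SD.Stmts

set_option autoImplicit false

noncomputable section

namespace Pool.Agent.Work.MP_481a91_al.SD

universe u

namespace XLn

lemma repr_apply (K : Type u) [Field K] (n : ℕ) (M : Matrix (Fin n) (Fin n) K) (i j : Fin n) :
    (Matrix.stdBasis K (Fin n) (Fin n)).repr M (i, j) = M i j := by
  simp [Matrix.stdBasis]

end XLn

theorem pr_Ln : StLn.{u} := by
  intro K _ n A
  rw [Algebra.norm_eq_matrix_det (Matrix.stdBasis K (Fin n) (Fin n))]
  have h : Algebra.leftMulMatrix (Matrix.stdBasis K (Fin n) (Fin n)) A =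
      Matrix.kroneckerMap (fun x1 x2 => x1 * x2) A (1 : Matrix (Fin n) (Fin n) K) := by
    ext ⟨i, j⟩ ⟨k, l⟩
    rw [Algebra.leftMulMatrix_eq_repr_mul, Matrix.stdBasis_eq_single, XLn.repr_apply,
      Matrix.kroneckerMap_apply]
    by_cases h : j = l
    · subst h
      rw [Matrix.mul_single_apply_same, Matrix.one_apply_eq]
    · rw [Matrix.mul_single_apply_of_ne _ _ _ _ _ (by tauto), Matrix.one_apply_ne h, mul_zero]
  rw [h, Matrix.det_kronecker, Matrix.det_one, one_pow, mul_one, Fintype.card_fin]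

end Pool.Agent.Work.MP_481a91_al.SD
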