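import Pool.Agent.Work.MP_481a91_al.SD.Stmts

/-!
# MP_481a91_al, block SD, item Mp: stably conjugate elements have the same minimal polynomial
-/

set_option autoImplicit false

noncomputable section

namespace Pool.Agent.Work.MP_481a91_al.SD

open scoped TensorProduct BigOperators
open MeasureTheory

universe u

namespace XMp

/-- conjugation by a unit -/
def cj {F M : Type u} [Field F] [Ring M] [Algebra F M] (g : Mˣ) : M →ₐ[F] M where
  toFun x := g * x * ↑g⁻¹
  map_one' := by simp
  map_mul' x y := by simp [mul_assoc]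
  map_zero' := by simp
  map_add' x y := by simp [mul_add, add_mul]
  commutes' r := by
    show (g : M) * algebraMap F M r * ↑g⁻¹ = algebraMap F M r
    rw [← Algebra.commutes r (g : M), mul_assoc, Units.mul_inv, mul_one]

theorem cj_inj {F M : Type u} [Field F] [Ring M] [Algebra F M] (g : Mˣ) :
    Function.Injective (cj (F := F) g) := by
  intro x y h
  have h1 : (g : M) * x * ↑g⁻¹ = g * y * ↑g⁻¹ := h
  have h2 : (g : M) * x = g * y := by
    have := congrArg (fun z => z * (g : M)) h1
    simpa [mul_assoc] using this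
  exact (Units.mul_right_inj g).1 h2

end XMp

open XMp in
theorem pr_Mp : StMp.{u} := by
  intro F D _ _ _ n φ γ δ h
  obtain ⟨g, hg⟩ := h
  have hinj : Function.Injective (mat φ) := by
    intro x y hxy
    have h1 : φ (Algebra.TensorProduct.includeRight x) = φ (Algebra.TensorProduct.includeRight y) :=
      hxy
    exact Algebra.TensorProduct.includeRight_injective
      (FaithfulSMul.algebraMap_injective F (AlgebraicClosure F)) (φ.injective h1)
  rw [← minpoly.algHom_eq (mat φ) hinj, ← minpoly.algHom_eq (mat φ) hinj]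
  obtain ⟨w, hw⟩ : ∃ w : (Matrix (Fin n) (Fin n) (AlgebraicClosure F))ˣ, (w : Matrix _ _ _) = g.1 :=
    ⟨⟨g.1, g⁻¹.1, by
      rw [← Matrix.SpecialLinearGroup.coe_mul, mul_inv_cancel, Matrix.SpecialLinearGroup.coe_one],
      by rw [← Matrix.SpecialLinearGroup.coe_mul, inv_mul_cancel,
        Matrix.SpecialLinearGroup.coe_one]⟩, rfl⟩
  have h2 : mat φ ((δ : Dˣ) : D) = cj (F := F) w (mat φ ((γ : Dˣ) : D)) := by
    show mat φ ((δ : Dˣ) : D) = (w : Matrix (Fin n) (Fin n) (AlgebraicClosure F)) *
      mat φ ((γ : Dˣ) : D) * ((w⁻¹ : (Matrix (Fin n) (Fin n) (AlgebraicClosure F))ˣ) :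
        Matrix (Fin n) (Fin n) (AlgebraicClosure F))
    rw [hw, hg, ← hw, mul_assoc, Units.mul_inv, mul_one]
  rw [h2, minpoly.algHom_eq (cj (F := F) w) (cj_inj w)]

end Pool.Agent.Work.MP_481a91_al.SD
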