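import Pool.Agent.Work.MP_481a91_al.SD.Stmts

/-!
# MP_481a91_al, block SD, item Ms
-/

set_option autoImplicit false

noncomputable section

namespace Pool.Agent.Work.MP_481a91_al.SD

open MeasureTheory MeasureTheory.Measure

universe u

theorem pr_Ms : StMs.{u} := by
  intro G _ _ _ _ _ _ _ μ _ α hα
  have hfin : IsFiniteMeasure μ := ⟨isCompact_univ.measure_lt_top⟩
  have hH : (μ.map α).IsHaarMeasure :=
    isHaarMeasure_map_of_isFiniteMeasure μ α.toMonoidHom hα α.surjective
  have hC : μ.map α = haarScalarFactor (μ.map α) μ • μ :=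
    isMulInvariant_eq_smul_of_compactSpace _ _
  have h1 : (μ.map α) Set.univ = μ Set.univ := by
    rw [map_apply hα.measurable MeasurableSet.univ, Set.preimage_univ]
  have h2 : (haarScalarFactor (μ.map α) μ : ENNReal) * μ Set.univ = 1 * μ Set.univ := by
    rw [one_mul]
    have h3 : (μ.map α) Set.univ = (haarScalarFactor (μ.map α) μ • μ) Set.univ :=
      congrArg (fun ν : Measure G => ν Set.univ) hC
    rw [h1] at h3
    rw [Measure.smul_apply, ENNReal.smul_def, smul_eq_mul] at h3
    exact h3.symm
  have h4 : haarScalarFactor (μ.map α) μ = 1 := by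
    rwa [ENNReal.mul_left_inj (NeZero.ne _) (measure_ne_top _ _), ENNReal.coe_eq_one] at h2
  rw [h4, one_smul] at hC
  exact hC

end Pool.Agent.Work.MP_481a91_al.SD
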