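import Pool.Agent.Work.MP_481a91_al.SD.Stmts

/-!
# MP_481a91_al, block SD, item Nc (helper5): the reduced norm is continuous
-/

set_option autoImplicit false

noncomputable section

namespace Pool.Agent.Work.MP_481a91_al.SD

open scoped TensorProduct BigOperators

universe u

namespace XNc

/-- a linear form on a product of linear maps is continuous -/
theorem cont_prod {F D K : Type u} [NontriviallyNormedField F] [CompleteSpace F] [Field K] [Algebra F K]
    [AddCommGroup D] [Module F D] [FiniteDimensional F D] [TopologicalSpace D] [IsTopologicalAddGroup D]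
    [ContinuousSMul F D] [T2Space D] (n : ℕ) (L : Fin n → D →ₗ[F] K) (π : K →ₗ[F] F) :
    Continuous fun x : D => π (∏ i, L i x) := by
  classical
  obtain ⟨b⟩ : Nonempty (Module.Basis (Fin (Module.finrank F D)) F D) := ⟨Module.finBasis F D⟩
  have hb : ∀ j, Continuous fun x : D => b.repr x j := fun j =>
    LinearMap.continuous_of_finiteDimensional (b.coord j)
  have h : (fun x : D => π (∏ i, L i x)) =
      fun x : D => ∑ s ∈ Fintype.piFinset (fun _ : Fin n => (Finset.univ : Finset (Fin (Module.finrank F D)))),
        (∏ i, b.repr x (s i)) * π (∏ i, L i (b (s i))) := by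
    funext x
    have h1 : ∀ i, L i x = ∑ j, b.repr x j • L i (b j) := by
      intro i
      conv_lhs => rw [← b.sum_repr x]
      rw [map_sum]
      simp only [map_smul]
    simp only [h1]
    rw [Finset.prod_univ_sum, map_sum]
    refine Finset.sum_congr rfl fun s _ => ?_
    rw [Finset.prod_smul, map_smul, smul_eq_mul]
  rw [h]
  refine continuous_finsetSum _ fun s _ => ?_
  exact (continuous_finsetProd _ fun i _ => hb (s i)).mul continuous_const

end XNc

theorem pr_Nc : StNc.{u} := by
  classical
  intro F D _ _ _ _ _ _ _ _ _ _ n φ N hN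
  obtain ⟨π, hπ⟩ := LinearMap.exists_leftInverse_of_injective (Algebra.linearMap F (AlgebraicClosure F))
    (LinearMap.ker_eq_bot.2 (algebraMap F (AlgebraicClosure F)).injective)
  have hπ' : ∀ a : F, π (algebraMap F (AlgebraicClosure F) a) = a := fun a => LinearMap.congr_fun hπ a
  have h : N = fun x : D => ∑ σ : Equiv.Perm (Fin n), (Equiv.Perm.sign σ : ℤ) • π (∏ i, mat φ x (σ i) i) := by
    funext x
    rw [← hπ' (N x), hN x, Matrix.det_apply, map_sum]
    refine Finset.sum_congr rfl fun σ _ => ?_
    rw [Units.smul_def, map_zsmul]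
  rw [h]
  refine continuous_finsetSum _ fun σ _ => ?_
  have h2 := XNc.cont_prod n (fun i =>
    ({ toFun := fun x => mat φ x (σ i) i
       map_add' := fun x y => by rw [map_add]; rfl
       map_smul' := fun c x => by rw [map_smul]; rfl } : D →ₗ[F] AlgebraicClosure F)) π
  exact h2.zsmul _

end Pool.Agent.Work.MP_481a91_al.SD
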