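import Pool.Agent.Work.MP_481a91_al.SD.Stmts

/-!
# MP_481a91_al, block SD, item Nm: the reduced norm has values in `F`
-/

set_option autoImplicit false

noncomputable section

namespace Pool.Agent.Work.MP_481a91_al.SD

open scoped TensorProduct BigOperators
open MeasureTheory

universe u

namespace XNm

theorem norm_equiv {K A B : Type u} [Field K] [Ring A] [Ring B] [Algebra K A] [Algebra K B]
    (e : A ≃ₐ[K] B) (x : A) : Algebra.norm K (e x) = Algebra.norm K x := by
  rw [Algebra.norm_apply, Algebra.norm_apply,
    ← LinearMap.det_conj (Algebra.lmul K A x) e.toLinearEquiv]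
  congr 1
  ext y
  simp

section

variable {F D : Type u} [Field F] [DivisionRing D] [Algebra F D] {n : ℕ}
  (φ : AlgebraicClosure F ⊗[F] D ≃ₐ[AlgebraicClosure F] Matrix (Fin n) (Fin n) (AlgebraicClosure F))

theorem mat_apply (x : D) : mat φ x = φ ((1 : AlgebraicClosure F) ⊗ₜ[F] x) := rfl

theorem mat_injective : Function.Injective (mat φ) := by
  intro x y h
  rw [mat_apply, mat_apply] at h
  exact Algebra.TensorProduct.includeRight_injective (R := F) (A := AlgebraicClosure F) (B := D)
    (algebraMap F (AlgebraicClosure F)).injective (φ.injective h)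

include φ in
theorem one_le : 1 ≤ n := by
  by_contra hn
  have hn0 : n = 0 := by omega
  subst hn0
  have h1 : mat φ (0 : D) = mat φ (1 : D) := Subsingleton.elim _ _
  exact zero_ne_one (mat_injective φ h1)

theorem norm_pow [FiniteDimensional F D] (hLn : StLn.{u}) (y : D) :
    (mat φ y).det ^ n = algebraMap F (AlgebraicClosure F) (Algebra.norm F y) := by
  rw [← hLn, mat_apply, norm_equiv, Algebra.norm_apply, ← Algebra.baseChange_lmul,
    LinearMap.det_baseChange, Algebra.norm_apply]

end

end XNm

theorem pr_Nm (hLn : StLn.{u}) (hPw : StPw.{u}) : StNm.{u} := by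
  intro F D _ _ _ _ _ n φ
  have hn : 1 ≤ n := XNm.one_le φ
  refine ⟨hn, ?_⟩
  have key : ∀ x : D, ∃ a : F, algebraMap F (AlgebraicClosure F) a = (mat φ x).det := by
    intro x
    have hP : ∀ t : F, (mat φ (-x)).charpoly.eval (algebraMap F (AlgebraicClosure F) t) =
        (mat φ (algebraMap F D t + x)).det := by
      intro t
      rw [Matrix.eval_charpoly]
      congr 1
      rw [map_neg, sub_neg_eq_add, map_add, AlgHom.commutes]
      rfl
    have hQ : ∀ t : F, (LinearMap.charpoly (Algebra.lmul F D (-x))).eval t =
        Algebra.norm F (algebraMap F D t + x) := by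
      intro t
      rw [LinearMap.eval_charpoly, Algebra.norm_apply]
      congr 1
      rw [map_neg, sub_neg_eq_add, map_add, AlgHom.commutes]
    have hpow : (mat φ (-x)).charpoly ^ n = (LinearMap.charpoly (Algebra.lmul F D (-x))).map
        (algebraMap F (AlgebraicClosure F)) := by
      apply Polynomial.eq_of_infinite_eval_eq
      have hinf : (Set.range (algebraMap F (AlgebraicClosure F))).Infinite :=
        Set.infinite_range_of_injective (algebraMap F (AlgebraicClosure F)).injective
      refine hinf.mono ?_
      rintro _ ⟨t, rfl⟩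
      change Polynomial.eval _ _ = Polynomial.eval _ _
      rw [Polynomial.eval_pow, hP, XNm.norm_pow φ hLn, Polynomial.eval_map_algebraMap,
        Polynomial.aeval_algebraMap_apply, Polynomial.coe_aeval_eq_eval, hQ]
    obtain ⟨P₀, hP₀⟩ := hPw F n _ _ hn (Matrix.charpoly_monic _) hpow
    refine ⟨P₀.eval 0, ?_⟩
    have h0 := hP 0
    rw [hP₀, Polynomial.eval_map_algebraMap, Polynomial.aeval_algebraMap_apply,
      Polynomial.coe_aeval_eq_eval, map_zero, zero_add] at h0
    exact h0
  exact ⟨fun x => Classical.choose (key x), fun x => Classical.choose_spec (key x)⟩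

end Pool.Agent.Work.MP_481a91_al.SD
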