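import Pool.Agent.Work.MP_481a91_al.SD.Stmts

/-!
# MP_481a91_al, block SD: item Pw

A monic polynomial over the algebraic closure of a field of characteristic zero has coefficients in the field if one of its
powers has.
-/

set_option autoImplicit false

namespace Pool.Agent.Work.MP_481a91_al.SD

universe u

theorem pr_Pw : StPw.{u} := by
  intro F _ _ n P Q hn hP hPQ
  have hn0 : n ≠ 0 := by omega
  have hfix : ∀ σ : AlgebraicClosure F ≃ₐ[F] AlgebraicClosure F,
      P.map (σ : AlgebraicClosure F →+* AlgebraicClosure F) = P := by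
    intro σ
    have h1 : (P.map (σ : AlgebraicClosure F →+* AlgebraicClosure F)) ^ n = P ^ n := by
      rw [← Polynomial.map_pow, hPQ, Polynomial.map_map]
      congr 1
      ext x
      simp
    have hm : (P.map (σ : AlgebraicClosure F →+* AlgebraicClosure F)).Monic := hP.map _
    refine Polynomial.eq_of_monic_of_associated hm hP (associated_of_dvd_dvd ?_ ?_)
    · exact (UniqueFactorizationMonoid.pow_dvd_pow_iff_dvd hn0).1 (by rw [h1])
    · exact (UniqueFactorizationMonoid.pow_dvd_pow_iff_dvd hn0).1 (by rw [h1])
  have hl : P ∈ Polynomial.lifts (algebraMap F (AlgebraicClosure F)) := by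
    rw [Polynomial.lifts_iff_coeff_lifts]
    intro k
    change P.coeff k ∈ Set.range (algebraMap F (AlgebraicClosure F))
    rw [InfiniteGalois.mem_range_algebraMap_iff_fixed]
    intro σ
    have := congrArg (fun R => Polynomial.coeff R k) (hfix σ)
    simpa [Polynomial.coeff_map] using this
  obtain ⟨P₀, h⟩ := (Polynomial.mem_lifts P).1 hl
  exact ⟨P₀, h.symm⟩

end Pool.Agent.Work.MP_481a91_al.SD
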