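import Pool.Agent.Work.MP_481a91_al.SD.Stmts

/-!
# MP_481a91_al, block SD, item Rg: elements of degree `n` are strongly regular
-/

set_option autoImplicit false

noncomputable section

namespace Pool.Agent.Work.MP_481a91_al.SD

open scoped TensorProduct BigOperators

universe u

namespace XRg

theorem mat_indep {F D : Type u} [Field F] [DivisionRing D] [Algebra F D] {n : ℕ}
    (φ : AlgebraicClosure F ⊗[F] D ≃ₐ[AlgebraicClosure F] Matrix (Fin n) (Fin n) (AlgebraicClosure F)) (x : D)
    (h : LinearIndependent F (fun i : Fin n => x ^ (i : ℕ))) :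
    LinearIndependent (AlgebraicClosure F) (fun i : Fin n => (mat φ x) ^ (i : ℕ)) := by
  have h1 : LinearIndependent (AlgebraicClosure F)
      (fun i : Fin n => (1 : AlgebraicClosure F) ⊗ₜ[F] (x ^ (i : ℕ))) :=
    Module.Flat.linearIndependent_one_tmul h
  have h2 := h1.map' φ.toLinearMap (LinearMap.ker_eq_bot.mpr φ.injective)
  have e : (fun i : Fin n => (mat φ x) ^ (i : ℕ)) =
      φ.toLinearMap ∘ fun i : Fin n => (1 : AlgebraicClosure F) ⊗ₜ[F] (x ^ (i : ℕ)) := by
    funext i
    show (mat φ x) ^ (i : ℕ) = φ ((1 : AlgebraicClosure F) ⊗ₜ[F] (x ^ (i : ℕ)))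
    rw [← map_pow]
    rfl
  rw [e]
  exact h2

theorem deg_le {K A : Type u} [Field K] [Ring A] [Algebra K A] {n : ℕ} (a : A) (hi : IsIntegral K a)
    (h : LinearIndependent K (fun i : Fin n => a ^ (i : ℕ))) : n ≤ (minpoly K a).natDegree := by
  by_contra hlt
  rw [not_le] at hlt
  set p := minpoly K a with hp
  have h0 : ∑ i : Fin n, p.coeff (i : ℕ) • a ^ (i : ℕ) = 0 := by
    rw [Fin.sum_univ_eq_sum_range (fun i => p.coeff i • a ^ i) n]
    have h1 := Polynomial.aeval_eq_sum_range' hlt a
    rw [← h1]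
    exact minpoly.aeval K a
  have h2 := Fintype.linearIndependent_iff.mp h (fun i => p.coeff (i : ℕ)) h0 ⟨p.natDegree, hlt⟩
  have h3 : p.Monic := minpoly.monic hi
  have h4 : p.coeff p.natDegree = 1 := h3
  exact one_ne_zero (h4.symm.trans h2)

end XRg

theorem pr_Rg : StRg.{u} := by
  intro F D _ _ _ _ _ n φ x h
  have hA : IsIntegral (AlgebraicClosure F) (mat φ x) := Algebra.IsIntegral.isIntegral _
  have h1 := XRg.deg_le (mat φ x) hA (XRg.mat_indep φ x h)
  have h2 : minpoly (AlgebraicClosure F) (mat φ x) ∣ (mat φ x).charpoly := Matrix.minpoly_dvd_charpoly _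
  have h3 : (mat φ x).charpoly = minpoly (AlgebraicClosure F) (mat φ x) := by
    refine Polynomial.eq_of_monic_of_dvd_of_natDegree_le (minpoly.monic hA) (Matrix.charpoly_monic _) h2 ?_
    rw [Matrix.charpoly_natDegree_eq_dim, Fintype.card_fin]
    exact h1
  have hx : IsIntegral F x := Algebra.IsIntegral.isIntegral _
  have h4 : (minpoly F x).Separable := (minpoly.irreducible hx).separable
  have h5 : minpoly (AlgebraicClosure F) (mat φ x) ∣ (minpoly F x).map (algebraMap F (AlgebraicClosure F)) := by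
    refine minpoly.dvd _ _ ?_
    rw [Polynomial.aeval_map_algebraMap, Polynomial.aeval_algHom_apply, minpoly.aeval, map_zero]
  rw [h3]
  exact (h4.map).of_dvd h5

end Pool.Agent.Work.MP_481a91_al.SD
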