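import Pool.Agent.Work.MP_481a91_al.SD.Stmts

/-!
# MP_481a91_al, block SD, item Rt: elements near `1` are `n`-th powers of elements near `1`
-/

set_option autoImplicit false

noncomputable section

namespace Pool.Agent.Work.MP_481a91_al.SD

universe u

theorem pr_Rt : StRt.{u} := by
  intro F _ _ _ n hn W hW
  have h1 : HasStrictDerivAt (fun c : F => c ^ n) ((n : F) * (1 : F) ^ (n - 1)) 1 :=
    hasStrictDerivAt_pow n 1
  have h2 : ((n : F) * (1 : F) ^ (n - 1)) ≠ 0 := by
    rw [one_pow, mul_one]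
    have : n ≠ 0 := by omega
    exact_mod_cast this
  have h3 := h1.map_nhds_eq h2
  refine ⟨(fun c : F => c ^ n) '' W, ?_, ?_⟩
  · have h4 : (fun c : F => c ^ n) '' W ∈ Filter.map (fun c : F => c ^ n) (nhds (1 : F)) :=
      Filter.image_mem_map hW
    rw [h3, one_pow] at h4
    exact h4
  · rintro a ⟨c, hc, rfl⟩
    exact ⟨c, hc, rfl⟩

end Pool.Agent.Work.MP_481a91_al.SD
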