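import Pool.Agent.Work.MP_481a91_al.SD.Stmts

/-!
# MP_481a91_al, block SD, item SN: Skolem-Noether for elements
-/

set_option autoImplicit false

noncomputable section

namespace Pool.Agent.Work.MP_481a91_al.SD

universe u

namespace XSN

/-- `S k = ∑_{j < k} y^(k-1-j) c x^j`, recursively. -/
def S {D : Type u} [DivisionRing D] (x y c : D) : ℕ → D
  | 0 => 0
  | k + 1 => y * S x y c k + c * x ^ k

theorem S_tele {D : Type u} [DivisionRing D] (x y c : D) (k : ℕ) :
    y * S x y c k - S x y c k * x = y ^ k * c - c * x ^ k := by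
  induction k with
  | zero => simp [S]
  | succ k ih =>
    have h1 : y * S x y c (k + 1) - S x y c (k + 1) * x =
        y * (y * S x y c k - S x y c k * x) + (y * (c * x ^ k) - c * x ^ k * x) := by
      simp only [S]
      noncomm_ring
    rw [h1, ih, pow_succ', pow_succ]
    noncomm_ring

theorem S_sum {D : Type u} [DivisionRing D] (x y c : D) (k : ℕ) :
    S x y c k = ∑ j ∈ Finset.range k, y ^ (k - 1 - j) * c * x ^ j := by
  induction k with
  | zero => simp [S]
  | succ k ih =>
    rw [Finset.sum_range_succ]
    simp only [S]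
    rw [ih, Finset.mul_sum]
    congr 1
    · refine Finset.sum_congr rfl fun j hj => ?_
      have hj' : j < k := Finset.mem_range.mp hj
      have e : k + 1 - 1 - j = (k - 1 - j) + 1 := by omega
      rw [e, pow_succ']
      noncomm_ring
    · have e : k + 1 - 1 - k = 0 := by omega
      rw [e, pow_zero, one_mul]

end XSN

open XSN in
theorem pr_SN (hJac : StJac.{u}) : StSN.{u} := by
  intro F D _ _ _ _ _ x y hxy
  have hx : IsIntegral F x := Algebra.IsIntegral.isIntegral x
  obtain ⟨p, hp⟩ : ∃ p, p = minpoly F x := ⟨_, rfl⟩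
  have hpy : Polynomial.aeval y p = 0 := by rw [hp, hxy]; exact minpoly.aeval F y
  have hpx : Polynomial.aeval x p = 0 := by rw [hp]; exact minpoly.aeval F x
  have hmonic : p.Monic := by rw [hp]; exact minpoly.monic hx
  have hdeg : 0 < (minpoly F x).natDegree := minpoly.natDegree_pos hx
  obtain ⟨m, hm⟩ : ∃ m, (minpoly F x).natDegree = m + 1 := ⟨_, (Nat.succ_pred_eq_of_pos hdeg).symm⟩
  have hpm : p.natDegree = m + 1 := by rw [hp]; exact hm
  -- the intertwiner
  have hB : ∀ c : D, y * (∑ k ∈ Finset.range (m + 1 + 1), algebraMap F D (p.coeff k) * S x y c k) =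
      (∑ k ∈ Finset.range (m + 1 + 1), algebraMap F D (p.coeff k) * S x y c k) * x := by
    intro c
    rw [← sub_eq_zero, Finset.mul_sum, Finset.sum_mul, ← Finset.sum_sub_distrib]
    have h1 : ∀ k ∈ Finset.range (m + 1 + 1),
        y * (algebraMap F D (p.coeff k) * S x y c k) - algebraMap F D (p.coeff k) * S x y c k * x =
        algebraMap F D (p.coeff k) * y ^ k * c - c * (algebraMap F D (p.coeff k) * x ^ k) := by
      intro k _
      have h2 := S_tele x y c k
      have h3 : y * (algebraMap F D (p.coeff k) * S x y c k) =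
          algebraMap F D (p.coeff k) * (y * S x y c k) := by
        rw [← mul_assoc, ← mul_assoc, Algebra.commutes]
      have h4 : c * (algebraMap F D (p.coeff k) * x ^ k) =
          algebraMap F D (p.coeff k) * (c * x ^ k) := by
        rw [← mul_assoc, ← mul_assoc, Algebra.commutes]
      rw [h3, h4, mul_assoc, mul_assoc, ← mul_sub, ← mul_sub, h2]
    rw [Finset.sum_congr rfl h1, Finset.sum_sub_distrib, ← Finset.sum_mul, ← Finset.mul_sum]
    have e1 : ∀ z : D, ∑ k ∈ Finset.range (m + 1 + 1), algebraMap F D (p.coeff k) * z ^ k =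
        Polynomial.aeval z p := by
      intro z
      rw [Polynomial.aeval_eq_sum_range, hpm]
      exact Finset.sum_congr rfl fun k _ => (Algebra.smul_def _ _).symm
    rw [e1, e1, hpx, hpy, zero_mul, mul_zero, sub_zero]
  -- it is not zero for some `c`
  by_cases hc : ∃ c : D, (∑ k ∈ Finset.range (m + 1 + 1), algebraMap F D (p.coeff k) * S x y c k) ≠ 0
  · obtain ⟨c, hc⟩ := hc
    exact ⟨Units.mk0 _ hc, (hB c).symm⟩
  · push Not at hc
    exfalso
    have hlin : LinearIndependent F (fun i : Fin (m + 1) => x ^ (i : ℕ)) := by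
      have h := linearIndependent_pow (K := F) x
      rw [hm] at h
      exact h
    have h5 := hJac F D (m + 1) (fun j => ∑ k ∈ Finset.range (m + 1 + 1),
      if (j : ℕ) < k then algebraMap F D (p.coeff k) * y ^ (k - 1 - (j : ℕ)) else 0)
      (fun j => x ^ (j : ℕ)) hlin ?_ ⟨m, Nat.lt_succ_self m⟩
    · simp only at h5
      rw [Finset.sum_range_succ, if_pos (Nat.lt_succ_self m)] at h5
      have e2 : m + 1 - 1 - m = 0 := by omega
      have e3 : p.coeff (m + 1) = 1 := by rw [← hpm]; exact hmonic.coeff_natDegree
      rw [e2, e3, map_one, pow_zero, mul_one, Finset.sum_eq_zero, zero_add] at h5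
      · exact one_ne_zero h5
      · intro k hk
        rw [if_neg]
        have := Finset.mem_range.mp hk
        omega
    · intro c
      refine Eq.trans ?_ (hc c)
      have e4 : ∀ k ∈ Finset.range (m + 1 + 1), algebraMap F D (p.coeff k) * S x y c k =
          ∑ j ∈ Finset.range (m + 1), (if j < k then algebraMap F D (p.coeff k) * y ^ (k - 1 - j) else 0) *
            c * x ^ j := by
        intro k hk
        have hk' := Finset.mem_range.mp hk
        rw [S_sum, Finset.mul_sum]
        have hsub : Finset.range k ⊆ Finset.range (m + 1) := by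
          intro j hj
          have := Finset.mem_range.mp hj
          exact Finset.mem_range.mpr (by omega)
        rw [← Finset.sum_subset hsub]
        · refine Finset.sum_congr rfl fun j hj => ?_
          rw [if_pos (Finset.mem_range.mp hj)]
          noncomm_ring
        · intro j _ hj
          rw [if_neg (fun h => hj (Finset.mem_range.mpr h)), zero_mul, zero_mul]
      rw [Finset.sum_congr rfl e4, Finset.sum_comm, ← Fin.sum_univ_eq_sum_range
        (fun j => ∑ k ∈ Finset.range (m + 1 + 1),
          (if j < k then algebraMap F D (p.coeff k) * y ^ (k - 1 - j) else 0) * c * x ^ j) (m + 1)]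
      refine Finset.sum_congr rfl fun j _ => ?_
      rw [Finset.sum_mul, Finset.sum_mul]

end Pool.Agent.Work.MP_481a91_al.SD
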