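import Pool.Agent.Work.MP_481a91_al.SD.Stmts

/-!
# MP_481a91_al, block SD, item Uni: invariance of a locally constant function under an open normal subgroup
-/

set_option autoImplicit false

noncomputable section

namespace Pool.Agent.Work.MP_481a91_al.SD

open Topology Filter

universe u

namespace XUni

variable {G : Type u} [Group G]

/-- The subgroup of the elements which can be left out everywhere. -/
def V (f : G → ℂ) : Subgroup G where
  carrier := {v | ∀ x y : G, f (x * v * y) = f (x * y)}
  one_mem' := by
    intro x y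
    rw [mul_one]
  mul_mem' := by
    intro a b ha hb x y
    have h : x * (a * b) * y = (x * a) * b * y := by group
    rw [h, hb, ha]
  inv_mem' := by
    intro a ha x y
    have h := ha (x * a⁻¹) y
    rw [inv_mul_cancel_right] at h
    exact h.symm

theorem mem_V (f : G → ℂ) (v : G) : v ∈ V f ↔ ∀ x y : G, f (x * v * y) = f (x * y) := Iff.rfl

theorem normal (f : G → ℂ) : (V f).Normal := by
  refine ⟨fun v hv g x y => ?_⟩
  have h1 : x * (g * v * g⁻¹) * y = (x * g) * v * (g⁻¹ * y) := by group
  have h2 : (x * g) * (g⁻¹ * y) = x * y := by group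
  rw [h1, hv, h2]

theorem isOpen [TopologicalSpace G] [IsTopologicalGroup G] [CompactSpace G] (f : G → ℂ) (hf : IsLocallyConstant f) :
    IsOpen (V f : Set G) := by
  apply Subgroup.isOpen_of_mem_nhds (V f) (g := 1)
  have h : ∀ᶠ v in 𝓝 (1 : G), ∀ p ∈ (Set.univ : Set (G × G)), f (p.1 * v * p.2) = f (p.1 * p.2) := by
    refine IsCompact.eventually_forall_of_forall_eventually isCompact_univ ?_
    intro p _
    have c1 : IsLocallyConstant (fun z : G × (G × G) => f (z.2.1 * z.1 * z.2.2)) :=
      hf.comp_continuous (f := fun z : G × (G × G) => z.2.1 * z.1 * z.2.2) (by fun_prop)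
    have c2 : IsLocallyConstant (fun z : G × (G × G) => f (z.2.1 * z.2.2)) :=
      hf.comp_continuous (f := fun z : G × (G × G) => z.2.1 * z.2.2) (by fun_prop)
    filter_upwards [c1.eventually_eq ((1 : G), p), c2.eventually_eq ((1 : G), p)] with z h1 h2
    rw [h1, h2]
    simp
  filter_upwards [h] with v hv
  intro x y
  exact hv (x, y) (Set.mem_univ _)

end XUni

theorem pr_Uni : StUni.{u} := by
  intro G _ _ _ _ f
  exact ⟨XUni.V f.1, XUni.normal f.1, XUni.isOpen f.1 f.2.1, fun v hv => hv⟩

end Pool.Agent.Work.MP_481a91_al.SD
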