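import Pool.Agent.Work.MP_481a91_al.SD.AsmP
import Pool.Agent.Work.MP_481a91_al.SD.I_Uni
import Pool.Agent.Work.MP_481a91_al.SD.I_Avg
import Pool.Agent.Work.MP_481a91_al.SD.I_Cnv
import Pool.Agent.Work.MP_481a91_al.SD.I_Ess
import Pool.Agent.Work.MP_481a91_al.SD.I_Aut
import Pool.Agent.Work.MP_481a91_al.SD.I_Ms
import Pool.Agent.Work.MP_481a91_al.SD.I_A0
import Pool.Agent.Work.MP_481a91_al.SD.I_A1
import Pool.Agent.Work.MP_481a91_al.SD.I_A2
import Pool.Agent.Work.MP_481a91_al.SD.I_Jac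
import Pool.Agent.Work.MP_481a91_al.SD.I_SN
import Pool.Agent.Work.MP_481a91_al.SD.I_Mp
import Pool.Agent.Work.MP_481a91_al.SD.I_Cj
import Pool.Agent.Work.MP_481a91_al.SD.I_Ln
import Pool.Agent.Work.MP_481a91_al.SD.I_Pw
import Pool.Agent.Work.MP_481a91_al.SD.I_Nm
import Pool.Agent.Work.MP_481a91_al.SD.I_Rg
import Pool.Agent.Work.MP_481a91_al.SD.I_Ex
import Pool.Agent.Work.MP_481a91_al.SD.I_Nc
import Pool.Agent.Work.MP_481a91_al.SD.I_Rt
import Pool.Agent.Work.MP_481a91_al.SD.I_Fi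
import Pool.Agent.Work.MP_481a91_al.SD.I_Kp
import Pool.Agent.Work.MP_481a91_al.SD.I_Dn
import Pool.Agent.Work.MP_481a91_al.SD.I_Ds
import Pool.Agent.Work.MP_481a91_al.SD.I_Ix

/-! # MP_481a91_al, block SD: the theorem -/

set_option autoImplicit false

noncomputable section

namespace Pool.Agent.Work.MP_481a91_al.SD

universe u

theorem final : MainPD.{u} := by
  have hUni : StUni.{u} := pr_Uni
  have hAvg : StAvg.{u} := pr_Avg hUni
  have hMs : StMs.{u} := pr_Ms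
  have hA0 : StA0.{u} := pr_A0
  have hA1 : StA1.{u} := pr_A1 hMs
  have hA2 : StA2.{u} := pr_A2 hAvg hA0 hMs
  have hJac : StJac.{u} := pr_Jac
  have hLn : StLn.{u} := pr_Ln
  have hPw : StPw.{u} := pr_Pw
  have hNm : StNm.{u} := pr_Nm hLn hPw
  have hNc : StNc.{u} := pr_Nc
  have hRt : StRt.{u} := pr_Rt
  have hFi : StFi.{u} := pr_Fi hRt
  have hKp : StKp.{u} := pr_Kp hNm hNc
  exact mainPD (pr_Cnv hUni) (pr_Ess hUni) pr_Aut hA0 hA1 hA2 (pr_SN hJac) pr_Mp pr_Cj hKp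
    (pr_Ds hNm hNc hRt pr_Rg pr_Ex pr_Dn hKp) (pr_Ix hNm hFi)

end Pool.Agent.Work.MP_481a91_al.SD
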