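import Pool.Agent.Work.MP_481a91_al.SD.StmtsH

/-!
# MP_481a91_al, block SD, part H, item Dw: regular units of the same reduced norm near a unit
-/

set_option autoImplicit false

noncomputable section

namespace Pool.Agent.Work.MP_481a91_al.SD

open scoped TensorProduct BigOperators
open MeasureTheory

universe u

namespace XDw

variable {F D : Type u} [Field F] [DivisionRing D] [Algebra F D] {n : ℕ}
  (φ : AlgebraicClosure F ⊗[F] D ≃ₐ[AlgebraicClosure F] Matrix (Fin n) (Fin n) (AlgebraicClosure F))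

theorem det_smul_eq (c : F) (x : D) :
    (mat φ (c • x)).det = (algebraMap F (AlgebraicClosure F) c) ^ n * (mat φ x).det := by
  have h1 : mat φ (c • x) = (algebraMap F (AlgebraicClosure F) c) • mat φ x := by
    rw [map_smul, algebraMap_smul]
  rw [h1, Matrix.det_smul, Fintype.card_fin]

theorem li_smul {c : F} (hc : c ≠ 0) {x : D} (hx : LinearIndependent F (fun i : Fin n => x ^ (i : ℕ))) :
    LinearIndependent F (fun i : Fin n => (c • x) ^ (i : ℕ)) := by
  have h := hx.units_smul (fun i : Fin n => (Units.mk0 c hc) ^ (i : ℕ))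
  have he : (fun i : Fin n => (c • x) ^ (i : ℕ)) =
      ((fun i : Fin n => (Units.mk0 c hc) ^ (i : ℕ)) • (fun i : Fin n => x ^ (i : ℕ))) := by
    funext i
    show (c • x) ^ (i : ℕ) = ((Units.mk0 c hc) ^ (i : ℕ)) • (x ^ (i : ℕ))
    rw [smul_pow, Units.smul_def, Units.val_pow_eq_pow_val, Units.val_mk0]
  rw [he]
  exact h

theorem nrd_ne_zero (u : Dˣ) : nrd φ u ≠ 0 := by
  intro h
  have h1 : nrd φ (u * u⁻¹) = 1 := by rw [mul_inv_cancel, map_one]
  rw [map_mul, h, zero_mul] at h1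
  exact zero_ne_one h1

end XDw

theorem pr_Dw (hNm : StNm.{u}) (hNc : StNc.{u}) (hRt : StRt.{u}) (hRg : StRg.{u}) (hEx : StEx.{u})
    (hDn : StDn.{u}) : StDw.{u} := by
  intro F D _ _ _ _ _ _ _ _ _ _ n φ u O'' hO''
  obtain ⟨hn, N, hN⟩ := hNm F D n φ
  have hNcont : Continuous N := hNc F D n φ N hN
  have hct : ContinuousAt (fun p : F × D => p.1⁻¹ • p.2) ((1 : F), (u : D)) := by
    refine ContinuousAt.smul ?_ continuousAt_snd
    exact ContinuousAt.inv₀ continuousAt_fst one_ne_zero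
  have hO'2 : O'' ∈ nhds ((1 : F)⁻¹ • (u : D)) := by
    rw [inv_one, one_smul]; exact hO''
  have hpre := hct hO'2
  rw [Filter.mem_map, mem_nhds_prod_iff] at hpre
  obtain ⟨W, hW, O, hO, hWO⟩ := hpre
  have hW' : W ∩ {c : F | c ≠ 0} ∈ nhds (1 : F) :=
    Filter.inter_mem hW (isOpen_ne.mem_nhds one_ne_zero)
  obtain ⟨V, hV, hVp⟩ := hRt F n hn _ hW'
  have hNu : N (u : D) ≠ 0 := by
    intro h
    have h1 : nrd φ u = 0 := by
      change (mat φ (u : D)).det = 0
      rw [← hN, h, map_zero]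
    exact XDw.nrd_ne_zero φ u h1
  have hNV : (fun x => N x / N (u : D)) ⁻¹' V ∈ nhds (u : D) := by
    have hc : Continuous fun x => N x / N (u : D) := hNcont.div_const _
    apply hc.continuousAt
    change V ∈ nhds (N (u : D) / N (u : D))
    rw [div_self hNu]; exact hV
  have hne : {x : D | x ≠ 0} ∈ nhds (u : D) := isOpen_ne.mem_nhds (Units.ne_zero _)
  obtain ⟨y, hy⟩ := hEx F D n ⟨φ⟩
  obtain ⟨x, hxLI, ⟨hxO, hxV⟩, hx0⟩ :=
    (hDn F D n y hy).inter_nhds_nonempty (Filter.inter_mem (Filter.inter_mem hO hNV) hne)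
  obtain ⟨c, ⟨hcW, hc0⟩, hcn⟩ := hVp _ hxV
  have hc0' : c ≠ 0 := hc0
  have hx0' : x ≠ 0 := hx0
  have hci : c⁻¹ ≠ 0 := inv_ne_zero hc0'
  have hw0 : c⁻¹ • x ≠ 0 := smul_ne_zero hci hx0'
  have hNx : N x = N (u : D) * c ^ n := by
    rw [hcn, mul_div_cancel₀ _ hNu]
  have hdet : (mat φ (c⁻¹ • x)).det = (mat φ (u : D)).det := by
    rw [XDw.det_smul_eq, ← hN x, ← hN (u : D), ← map_pow, ← map_mul, hNx, mul_left_comm, ← mul_pow,
      inv_mul_cancel₀ hc0', one_pow, mul_one]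
  refine ⟨Units.mk0 (c⁻¹ • x) hw0, ?_, hdet, ?_⟩
  · exact hWO (Set.mk_mem_prod hcW hxO)
  · exact hRg F D n φ (c⁻¹ • x) (XDw.li_smul hci hxLI)

end Pool.Agent.Work.MP_481a91_al.SD
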