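import Pool.Agent.Work.MP_481a91_al.SD.StmtsH

/-!
# MP_481a91_al, block SD, item Emb: the topology of the units
-/

set_option autoImplicit false

noncomputable section

namespace Pool.Agent.Work.MP_481a91_al.SD

open scoped TensorProduct BigOperators
open MeasureTheory

universe u

theorem pr_Emb : StEmb.{u} := by
  intro F D _ _ _ _ _ _ _ _ _
  classical
  obtain ⟨m, b⟩ : ∃ m : ℕ, Nonempty (Module.Basis (Fin m) F D) := ⟨_, ⟨Module.finBasis F D⟩⟩
  obtain ⟨b⟩ := b
  have hcL : Continuous (Algebra.leftMulMatrix b : D → Matrix (Fin m) (Fin m) F) :=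
    ((Algebra.leftMulMatrix b).toLinearMap).continuous_of_finiteDimensional
  have hcS : Continuous (b.equivFun.symm : (Fin m → F) → D) :=
    (b.equivFun.symm.toLinearMap).continuous_of_finiteDimensional
  have hdet : ∀ x : D, x ≠ 0 → (Algebra.leftMulMatrix b x).det ≠ 0 := by
    intro x hx h0
    have h1 : Algebra.leftMulMatrix b x * Algebra.leftMulMatrix b x⁻¹ = 1 := by
      rw [← map_mul, mul_inv_cancel₀ hx, map_one]
    have h2 := congrArg Matrix.det h1
    rw [Matrix.det_mul, h0, zero_mul, Matrix.det_one] at h2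
    exact zero_ne_one h2
  have hkey : ∀ x : D, x ≠ 0 → x⁻¹ = b.equivFun.symm
      (((Algebra.leftMulMatrix b x).det)⁻¹ • (Matrix.mulVec (Algebra.leftMulMatrix b x).adjugate
        (b.repr 1))) := by
    intro x hx
    have h1 : Algebra.leftMulMatrix b x * Algebra.leftMulMatrix b x⁻¹ = 1 := by
      rw [← map_mul, mul_inv_cancel₀ hx, map_one]
    have h2 : (Algebra.leftMulMatrix b x).adjugate =
        (Algebra.leftMulMatrix b x).det • Algebra.leftMulMatrix b x⁻¹ := by
      calc (Algebra.leftMulMatrix b x).adjugate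
          = (Algebra.leftMulMatrix b x).adjugate *
            (Algebra.leftMulMatrix b x * Algebra.leftMulMatrix b x⁻¹) := by rw [h1, mul_one]
        _ = ((Algebra.leftMulMatrix b x).adjugate * Algebra.leftMulMatrix b x) *
            Algebra.leftMulMatrix b x⁻¹ := by rw [mul_assoc]
        _ = _ := by rw [Matrix.adjugate_mul, Matrix.smul_mul, one_mul]
    rw [h2, Matrix.smul_mulVec, smul_smul, inv_mul_cancel₀ (hdet x hx), one_smul]
    rw [LinearEquiv.eq_symm_apply, Algebra.leftMulMatrix_mulVec_repr, mul_one]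
    rfl
  have hinv : ContinuousInv₀ D := by
    refine ⟨fun x hx => ?_⟩
    have hev : (fun y : D => b.equivFun.symm
        (((Algebra.leftMulMatrix b y).det)⁻¹ • (Matrix.mulVec (Algebra.leftMulMatrix b y).adjugate
          (b.repr 1)))) =ᶠ[nhds x] fun y => y⁻¹ := by
      filter_upwards [isOpen_ne.mem_nhds hx] with y hy
      exact (hkey y hy).symm
    refine ContinuousAt.congr ?_ hev
    have hG1 : ContinuousAt (fun y : D => ((Algebra.leftMulMatrix b y).det)⁻¹) x :=
      (hcL.matrix_det.continuousAt).inv₀ (hdet x hx)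
    have hG2 : ContinuousAt (fun y : D => Matrix.mulVec (Algebra.leftMulMatrix b y).adjugate
        (b.repr 1)) x :=
      (Continuous.matrix_mulVec hcL.matrix_adjugate continuous_const).continuousAt
    have hG : ContinuousAt (fun y : D => ((Algebra.leftMulMatrix b y).det)⁻¹ •
        (Matrix.mulVec (Algebra.leftMulMatrix b y).adjugate (b.repr 1))) x := hG1.smul hG2
    exact hcS.continuousAt.comp hG
  exact Units.isEmbedding_val₀

end Pool.Agent.Work.MP_481a91_al.SD
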