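import Pool.Agent.Work.MP_481a91_al.SD.Stmts

/-!
# Block SD, item Fi: finitely many classes modulo `n`-th powers
-/

set_option autoImplicit false

namespace Pool.Agent.Work.MP_481a91_al.SD

universe u

theorem pr_Fi (hRt : StRt.{u}) : StFi.{u} := by
  intro F _ _ _ n hn
  have hn0 : n ≠ 0 := by omega
  obtain ⟨V, hV, hVc⟩ := hRt F n hn {c : F | c ≠ 0} (isOpen_ne.mem_nhds one_ne_zero)
  obtain ⟨b, hb⟩ := NormedField.exists_one_lt_norm F
  have hb0 : b ≠ 0 := by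
    rintro rfl
    simp at hb
    linarith
  have hB : 1 < ‖b‖ ^ n := one_lt_pow₀ hb hn0
  have hBpos : 0 < ‖b‖ ^ n := lt_trans zero_lt_one hB
  have hC : IsCompact {a : F | 1 ≤ ‖a‖ ∧ ‖a‖ ≤ ‖b‖ ^ n} := by
    refine IsCompact.of_isClosed_subset (isCompact_closedBall (0 : F) (‖b‖ ^ n)) ?_ ?_
    · exact (isClosed_le continuous_const continuous_norm).inter
        (isClosed_le continuous_norm continuous_const)
    · intro a ha
      rw [mem_closedBall_zero_iff]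
      exact ha.2
  obtain ⟨t, ht, hcov⟩ := hC.elim_nhds_subcover (fun e => {a : F | e⁻¹ * a ∈ V}) (by
    intro e he
    have he0 : e ≠ 0 := by
      rintro rfl
      have := he.1
      simp at this
      linarith
    have h1 : ContinuousAt (fun a : F => e⁻¹ * a) e := by fun_prop
    refine h1.preimage_mem_nhds ?_
    rw [inv_mul_cancel₀ he0]
    exact hV)
  refine ⟨t, fun a ha => ?_⟩
  obtain ⟨k, hk1, hk2⟩ := exists_mem_Ico_zpow (norm_pos_iff.2 ha) hB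
  have hbk : b ^ k ≠ 0 := zpow_ne_zero k hb0
  have hbkn : (b ^ k) ^ n ≠ 0 := pow_ne_zero n hbk
  have hnorm : ‖(b ^ k) ^ n‖ = (‖b‖ ^ n) ^ k := by
    rw [norm_pow, norm_zpow, ← zpow_natCast, ← zpow_natCast, ← zpow_mul, ← zpow_mul, mul_comm]
  have hpos : 0 < (‖b‖ ^ n) ^ k := zpow_pos hBpos k
  have hmem : a * ((b ^ k) ^ n)⁻¹ ∈ {a : F | 1 ≤ ‖a‖ ∧ ‖a‖ ≤ ‖b‖ ^ n} := by
    have h1 : ‖a * ((b ^ k) ^ n)⁻¹‖ = ‖a‖ / (‖b‖ ^ n) ^ k := by
      rw [norm_mul, norm_inv, hnorm, div_eq_mul_inv]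
    constructor
    · rw [h1, le_div_iff₀ hpos, one_mul]
      exact hk1
    · rw [h1, div_le_iff₀ hpos]
      rw [zpow_add_one₀ hBpos.ne', mul_comm] at hk2
      exact hk2.le
  obtain ⟨e, he, hea⟩ := Set.mem_iUnion₂.1 (hcov hmem)
  have he0 : e ≠ 0 := by
    rintro rfl
    have := (ht 0 he).1
    simp at this
    linarith
  obtain ⟨c, hc, hcn⟩ := hVc _ hea
  refine ⟨e, he, c * b ^ k, mul_ne_zero hc hbk, ?_⟩
  rw [mul_pow, hcn, mul_assoc, mul_assoc, inv_mul_cancel₀ hbkn, mul_one, ← mul_assoc,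
    mul_inv_cancel₀ he0, one_mul]

end Pool.Agent.Work.MP_481a91_al.SD
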