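import Pool.Agent.Work.MP_481a91_al.SD.StmtsH

/-!
# MP_481a91_al, block SD, item Hcp: a group between the product of the `SL_1(D_i)` and the product of the `GL_1(D_i)` is compact
modulo its centre
-/

set_option autoImplicit false

noncomputable section

namespace Pool.Agent.Work.MP_481a91_al.SD

open scoped TensorProduct BigOperators
open MeasureTheory

universe u

namespace XHcp

/-- The computation in one factor: two elements with the same `t` differ by a central element and an element of `g g'⁻¹`. -/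
lemma factor {F D : Type u} [Field F] [DivisionRing D] [Algebra F D] (h h' g g' t : Dˣ) (c c' : F) (hc : c ≠ 0) (hc' : c' ≠ 0)
    (e : (h : D) = c • ((g : D) * (t : D))) (e' : (h' : D) = c' • ((g' : D) * (t : D))) :
    ∃ z : Dˣ, (∀ x : Dˣ, x * z = z * x) ∧ h = z * (g * g'⁻¹ * h') := by
  refine ⟨Units.map (algebraMap F D).toMonoidHom (Units.mk0 (c / c') (div_ne_zero hc hc')), ?_, ?_⟩
  · intro x
    apply Units.ext
    have := Algebra.commutes (c / c') (x : D)
    simpa using this.symm
  · apply Units.ext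
    have h1 : ((g : D) * (g'⁻¹ : Dˣ)) * (c' • ((g' : D) * (t : D))) = c' • ((g : D) * (t : D)) := by
      rw [mul_smul_comm, mul_assoc, ← mul_assoc ((g'⁻¹ : Dˣ) : D) (g' : D) (t : D), Units.inv_mul, one_mul]
    have h2 : algebraMap F D (c / c') * (c' • ((g : D) * (t : D))) = c • ((g : D) * (t : D)) := by
      rw [← Algebra.smul_def, smul_smul, div_mul_cancel₀ _ hc']
    calc (h : D) = c • ((g : D) * (t : D)) := e
      _ = algebraMap F D (c / c') * (((g : D) * (g'⁻¹ : Dˣ)) * (h' : D)) := by rw [e', h1, h2]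
      _ = _ := by
        rw [Units.val_mul, Units.val_mul, Units.val_mul]
        rfl

end XHcp

open XHcp in
theorem pr_Hcp (hKp : StKp.{u}) (hIxh : StIxh.{u}) : StHcp.{u} := by
  intro N F D _ _ _ _ _ _ _ _ _ _ n φ H hH
  classical
  have hT : ∀ i, ∃ T : Finset (D i)ˣ, ∀ d : (D i)ˣ, ∃ t ∈ T, ∃ g : (D i)ˣ, nrd (φ i) g = 1 ∧
      ∃ c : F i, c ≠ 0 ∧ (d : D i) = c • ((g : D i) * (t : D i)) := fun i => hIxh (F i) (D i) (n i) (φ i)
  choose T hT using hT
  have hK : ∀ i, CompactSpace (SL1 (φ i)) := fun i => hKp (F i) (D i) (n i) (φ i)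
  -- the map of the product of the `SL_1(D_i)` to `H`
  have hmem : ∀ s : (∀ i, SL1 (φ i)), (fun i => ((s i : (D i)ˣ))) ∈ H := by
    intro s
    apply hH
    intro i _
    exact (s i).2
  let ι : (∀ i, SL1 (φ i)) → H := fun s => ⟨fun i => (s i : (D i)ˣ), hmem s⟩
  have hι : Continuous ι := by
    refine Continuous.subtype_mk ?_ _
    refine continuous_pi fun i => ?_
    exact continuous_subtype_val.comp (continuous_apply i)
  -- the representatives
  let P : (∀ i, T i) → H → Prop := fun t h => ∃ g : PU D, (∀ i, nrd (φ i) (g i) = 1) ∧ ∃ c : (∀ i, F i), (∀ i, c i ≠ 0) ∧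
    ∀ i, (((h : PU D) i : (D i)ˣ) : D i) = c i • ((g i : D i) * ((t i : (D i)ˣ) : D i))
  have h0 : ∀ t : (∀ i, T i), ∃ h0 : H, (∃ h : H, P t h) → P t h0 := by
    intro t
    by_cases h : ∃ h : H, P t h
    · obtain ⟨h1, h1'⟩ := h
      exact ⟨h1, fun _ => h1'⟩
    · exact ⟨1, fun h' => absurd h' h⟩
  choose r hr using h0
  have hcov : (Set.univ : Set (H ⧸ Subgroup.center H)) =
      ⋃ t : (∀ i, T i), Set.range (fun s => ((ι s * r t : H) : H ⧸ Subgroup.center H)) := by
    symm
    rw [Set.eq_univ_iff_forall]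
    intro q
    induction q using QuotientGroup.induction_on with
    | H h =>
      have h1 : ∀ i, ∃ t : T i, ∃ g : (D i)ˣ, nrd (φ i) g = 1 ∧
          ∃ c : F i, c ≠ 0 ∧ (((h : PU D) i : (D i)ˣ) : D i) = c • ((g : D i) * ((t : (D i)ˣ) : D i)) := by
        intro i
        obtain ⟨t, ht, g, hg, c, hc, e⟩ := hT i ((h : PU D) i)
        exact ⟨⟨t, ht⟩, g, hg, c, hc, e⟩
      choose t g hg c hc e using h1
      obtain ⟨g', hg', c', hc', e'⟩ := hr t ⟨h, g, hg, c, hc, e⟩
      have h2 := fun i => factor _ _ _ _ _ _ _ (hc i) (hc' i) (e i) (e' i)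
      choose z hz1 hz2 using h2
      let s : ∀ i, SL1 (φ i) := fun i => ⟨g i * (g' i)⁻¹, by
        rw [SL1, MonoidHom.mem_ker, map_mul, hg i, one_mul]
        have h3 : nrd (φ i) (g' i) * nrd (φ i) (g' i)⁻¹ = 1 := by
          rw [← map_mul, mul_inv_cancel, map_one]
        rw [hg' i, one_mul] at h3
        exact h3⟩
      have h4 : (h : PU D) = z * ((ι s * r t : H) : PU D) := by
        funext i
        exact hz2 i
      have hzH : z ∈ H := by
        have : z = (h : PU D) * ((ι s * r t : H) : PU D)⁻¹ := by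
          rw [h4, mul_inv_cancel_right]
        rw [this]
        exact H.mul_mem h.2 (H.inv_mem (ι s * r t).2)
      have hzc : (⟨z, hzH⟩ : H) ∈ Subgroup.center H := by
        rw [Subgroup.mem_center_iff]
        intro x
        apply Subtype.ext
        funext i
        exact hz1 i _
      have h5 : h = (⟨z, hzH⟩ : H) * (ι s * r t) := Subtype.ext h4
      rw [Set.mem_iUnion]
      refine ⟨t, s, ?_⟩
      show ((ι s * r t : H) : H ⧸ Subgroup.center H) = (h : H ⧸ Subgroup.center H)
      rw [QuotientGroup.eq]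
      rw [h5]
      have h6 := (Subgroup.mem_center_iff.mp hzc) (ι s * r t)
      rw [← h6, inv_mul_cancel_left]
      exact hzc
  constructor
  rw [hcov]
  apply isCompact_iUnion
  intro t
  apply isCompact_range
  exact continuous_quotient_mk'.comp (hι.mul continuous_const)

end Pool.Agent.Work.MP_481a91_al.SD
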