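import Pool.Agent.Work.MP_481a91_al.SD.Stmts

/-! Item [481a91 SD Jac]: independence of the maps `c ↦ a c b` over a central division algebra. -/

set_option autoImplicit false

noncomputable section

namespace Pool.Agent.Work.MP_481a91_al.SD

universe u

namespace XJac

theorem aux {F D : Type u} [Field F] [DivisionRing D] [Algebra F D] [Algebra.IsCentral F D] {m : ℕ}
    (b : Fin m → D) (hb : LinearIndependent F b) : ∀ (N : ℕ) (a : Fin m → D),
    {i | a i ≠ 0}.ncard ≤ N → (∀ c : D, ∑ i, a i * c * b i = 0) → ∀ i, a i = 0 := by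
  intro N
  induction N with
  | zero =>
    intro a ha _ i
    by_contra hi
    have h0 : {i | a i ≠ 0} = ∅ := (Set.ncard_eq_zero (Set.toFinite _)).1 (Nat.le_zero.1 ha)
    have h1 : i ∈ {i | a i ≠ 0} := hi
    rw [h0] at h1
    exact h1
  | succ N ih =>
    intro a ha hrel
    by_contra hcon
    push Not at hcon
    obtain ⟨j, hj⟩ := hcon
    have hrel' : ∀ c : D, ∑ i, ((a j)⁻¹ * a i) * c * b i = 0 := by
      intro c
      have h1 : ∑ i, ((a j)⁻¹ * a i) * c * b i = (a j)⁻¹ * ∑ i, a i * c * b i := by
        rw [Finset.mul_sum]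
        refine Finset.sum_congr rfl fun i _ => ?_
        simp only [mul_assoc]
      rw [h1, hrel c, mul_zero]
    have hcomm : ∀ d : D, ∀ i, (a j)⁻¹ * a i * d - d * ((a j)⁻¹ * a i) = 0 := by
      intro d
      refine ih (fun i => (a j)⁻¹ * a i * d - d * ((a j)⁻¹ * a i)) ?_ ?_
      · have hsub : {i | (a j)⁻¹ * a i * d - d * ((a j)⁻¹ * a i) ≠ 0} ⊆
            {i | a i ≠ 0} \ {j} := by
          intro i hi
          refine ⟨fun h0 => hi ?_, fun hij => hi ?_⟩
          · rw [h0, mul_zero, zero_mul, mul_zero, sub_zero]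
          · have hij' : i = j := hij
            rw [hij', inv_mul_cancel₀ hj, one_mul, mul_one, sub_self]
        have h1 := Set.ncard_le_ncard hsub (Set.toFinite _)
        have h2 : ({i | a i ≠ 0} \ {j}).ncard + 1 = {i | a i ≠ 0}.ncard :=
          Set.ncard_sdiff_singleton_add_one hj (Set.toFinite _)
        exact h1.trans (by omega)
      · intro c
        have h1 : ∑ i, ((a j)⁻¹ * a i * d - d * ((a j)⁻¹ * a i)) * c * b i =
            ∑ i, ((a j)⁻¹ * a i) * (d * c) * b i - d * ∑ i, ((a j)⁻¹ * a i) * c * b i := by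
          rw [Finset.mul_sum, ← Finset.sum_sub_distrib]
          refine Finset.sum_congr rfl fun i _ => ?_
          simp only [sub_mul, mul_assoc]
        rw [h1, hrel' (d * c), hrel' c, mul_zero, sub_zero]
    have hcen : ∀ i, ∃ t : F, algebraMap F D t = (a j)⁻¹ * a i := by
      intro i
      have h1 : (a j)⁻¹ * a i ∈ Subalgebra.center F D := by
        rw [Subalgebra.mem_center_iff]
        intro d
        exact (sub_eq_zero.1 (hcomm d i)).symm
      have h2 := Algebra.IsCentral.out h1
      exact Algebra.mem_bot.1 h2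
    choose t ht using hcen
    have hsum : ∑ i, t i • b i = 0 := by
      have h1 := hrel' 1
      rw [← h1]
      refine Finset.sum_congr rfl fun i _ => ?_
      rw [← ht i, mul_one, Algebra.smul_def]
    have htj := Fintype.linearIndependent_iff.1 hb t hsum j
    have h1 := ht j
    rw [htj, map_zero, inv_mul_cancel₀ hj] at h1
    exact zero_ne_one h1

end XJac

/-- The maps `c ↦ a c b i` with independent `b i` are independent. -/
theorem pr_Jac : StJac.{u} := by
  intro F D _ _ _ _ m a b hb hrel
  exact XJac.aux b hb _ a le_rfl hrel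

end Pool.Agent.Work.MP_481a91_al.SD
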