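import Pool.Agent.Work.MP_481a91_al.SD.StmtsH

/-!
# MP_481a91_al, block SD, part H, item Q1: stable distributions are invariant (compact modulo the centre)
-/

set_option autoImplicit false

noncomputable section

namespace Pool.Agent.Work.MP_481a91_al.SD

open scoped TensorProduct BigOperators
open MeasureTheory

universe u

namespace XQ1

section cpt

variable {Q : Type u} [Group Q] [TopologicalSpace Q] [IsTopologicalGroup Q] [CompactSpace Q]
  [T2Space Q] [MeasurableSpace Q] [BorelSpace Q]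

/-- right translation as a composition -/
theorem map_right (hMs : StMs.{u}) (μ : Measure Q) [μ.IsHaarMeasure] (F : Q → ℂ)
    (hF : Continuous F) (k : Q) : ∫ g, F (g * k) ∂μ = ∫ g, F g ∂μ := by
  have h1 : μ.map (MulAut.conj k⁻¹ : Q ≃* Q) = μ := by
    apply hMs Q μ (MulAut.conj k⁻¹ : Q ≃* Q)
    have : (fun g : Q => (MulAut.conj k⁻¹) g) = fun g => k⁻¹ * g * k⁻¹⁻¹ := by
      funext g
      exact MulAut.conj_apply _ _
    show Continuous (fun g : Q => (MulAut.conj k⁻¹) g)
    rw [this]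
    fun_prop
  have hc : Continuous (fun g : Q => (MulAut.conj k⁻¹ : Q ≃* Q) g) := by
    have : (fun g : Q => (MulAut.conj k⁻¹) g) = fun g => k⁻¹ * g * k⁻¹⁻¹ := by
      funext g
      exact MulAut.conj_apply _ _
    rw [this]
    fun_prop
  have h2 : ∫ g, F (k * g) ∂μ = ∫ g, F g ∂μ := integral_mul_left_eq_self F k
  rw [← h2]
  have h3 : ∫ g, F (k * g) ∂(μ.map (MulAut.conj k⁻¹ : Q ≃* Q)) =
      ∫ g, F (k * (MulAut.conj k⁻¹ : Q ≃* Q) g) ∂μ :=
    integral_map hc.measurable.aemeasurable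
      (hF.comp (continuous_const_mul k)).aestronglyMeasurable
  rw [h1] at h3
  rw [h3]
  refine integral_congr_ae (Filter.Eventually.of_forall fun g => ?_)
  show F (g * k) = F (k * (MulAut.conj k⁻¹) g)
  rw [MulAut.conj_apply]
  congr 1
  group

end cpt

variable {G : Type u} [Group G] [TopologicalSpace G] [IsTopologicalGroup G]

/-- the function on the quotient by the centre -/
def Fq (f : Tst G) (x : G) (q : G ⧸ Subgroup.center G) : ℂ := f.1 (q.out * x * q.out⁻¹)

omit [IsTopologicalGroup G] in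
theorem Fq_mk (f : Tst G) (x g : G) :
    Fq f x (QuotientGroup.mk g : G ⧸ Subgroup.center G) = f.1 (g * x * g⁻¹) := by
  obtain ⟨z, hz⟩ := QuotientGroup.mk_out_eq_mul (Subgroup.center G) g
  unfold Fq
  rw [hz]
  have h1 : (z : G) * x = x * z := (Subgroup.mem_center_iff.1 z.2 x).symm
  have h2 : g * z * x * (g * z)⁻¹ = g * x * g⁻¹ := by
    calc g * z * x * (g * z)⁻¹ = g * (z * x) * (z : G)⁻¹ * g⁻¹ := by group
      _ = g * (x * z) * (z : G)⁻¹ * g⁻¹ := by rw [h1]
      _ = g * x * g⁻¹ := by group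
  rw [h2]

theorem Fq_cont (f : Tst G) (x : G) : Continuous (Fq f x) := by
  have h : Continuous (Fq f x ∘ (QuotientGroup.mk : G → G ⧸ Subgroup.center G)) := by
    have e : Fq f x ∘ (QuotientGroup.mk : G → G ⧸ Subgroup.center G) =
        fun g => f.1 (g * x * g⁻¹) := by
      funext g
      exact Fq_mk f x g
    rw [e]
    exact f.2.1.continuous.comp (by fun_prop)
  exact isQuotientMap_quotient_mk'.continuous_iff.2 h

theorem Fq_int [CompactSpace (G ⧸ Subgroup.center G)] [MeasurableSpace (G ⧸ Subgroup.center G)]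
    [BorelSpace (G ⧸ Subgroup.center G)] (μ : Measure (G ⧸ Subgroup.center G)) [μ.IsHaarMeasure]
    (f : Tst G) (x : G) : Integrable (Fq f x) μ :=
  (Fq_cont f x).integrable_of_hasCompactSupport (HasCompactSupport.of_compactSpace _)

theorem classf (hMs : StMs.{u}) [CompactSpace (G ⧸ Subgroup.center G)]
    [T2Space (G ⧸ Subgroup.center G)] [MeasurableSpace (G ⧸ Subgroup.center G)]
    [BorelSpace (G ⧸ Subgroup.center G)] (μ : Measure (G ⧸ Subgroup.center G)) [μ.IsHaarMeasure]
    (f : Tst G) {x y : G} (h : IsConj x y) : ∫ q, Fq f y q ∂μ = ∫ q, Fq f x q ∂μ := by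
  obtain ⟨c, hc⟩ := isConj_iff.1 h
  rw [← map_right hMs μ (Fq f x) (Fq_cont f x) (QuotientGroup.mk c)]
  refine integral_congr_ae (Filter.Eventually.of_forall fun q => ?_)
  obtain ⟨g, rfl⟩ := QuotientGroup.mk_surjective q
  show Fq f y (QuotientGroup.mk g) = Fq f x (QuotientGroup.mk g * QuotientGroup.mk c)
  rw [← QuotientGroup.mk_mul, Fq_mk, Fq_mk, ← hc]
  have h2 : g * (c * x * c⁻¹) * g⁻¹ = g * c * x * (g * c)⁻¹ := by group
  rw [h2]

/-- the automorphism of the quotient -/
def bq (e : G ≃* G) : (G ⧸ Subgroup.center G) ≃* (G ⧸ Subgroup.center G) :=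
  QuotientGroup.congr (Subgroup.center G) (Subgroup.center G) e
    (Subgroup.characteristic_iff_map_eq.1 inferInstance e)

omit [TopologicalSpace G] [IsTopologicalGroup G] in
theorem bq_mk (e : G ≃* G) (g : G) : bq e (QuotientGroup.mk g) = QuotientGroup.mk (e g) := rfl

omit [IsTopologicalGroup G] in
theorem bq_cont (e : G ≃* G) (he : Continuous e) : Continuous (bq e) := by
  have h : Continuous (bq e ∘ (QuotientGroup.mk : G → G ⧸ Subgroup.center G)) := by
    have e1 : bq e ∘ (QuotientGroup.mk : G → G ⧸ Subgroup.center G) =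
        fun g => (QuotientGroup.mk (e g) : G ⧸ Subgroup.center G) := by
      funext g
      exact bq_mk e g
    rw [e1]
    exact QuotientGroup.continuous_mk.comp he
  exact isQuotientMap_quotient_mk'.continuous_iff.2 h

theorem center_closed [T2Space G] : IsClosed (Subgroup.center G : Set G) := by
  have h : (Subgroup.center G : Set G) = ⋂ g : G, {x | g * x = x * g} := by
    ext x
    simp only [SetLike.mem_coe, Subgroup.mem_center_iff, Set.mem_iInter, Set.mem_ofPred_eq]
  rw [h]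
  exact isClosed_iInter fun g => isClosed_eq (by fun_prop) (by fun_prop)

end XQ1

open XQ1 in
theorem pr_Q1 (hMs : StMs.{u}) : StQ1.{u} := by
  classical
  intro G _ _ _ _ _ _ _ μ _ Γ _ a S st hcont hst T hT d f h hfh
  have hcl : IsClosed (Subgroup.center G : Set G) := center_closed
  have hT2 : T2Space (G ⧸ Subgroup.center G) := inferInstance
  have hun : Unq μ S st (f - h) := by
    intro γ hγ R hR
    have e1 : ∀ ρ : G, ∫ q, (f - h).1 (q.out * ρ * q.out⁻¹) ∂μ =
        ∫ q, Fq f ρ q ∂μ - ∫ q, Fq f (a d ρ) q ∂μ := by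
      intro ρ
      have e2 : ∫ q, Fq h ρ q ∂μ = ∫ q, Fq f (a d ρ) q ∂μ := by
        have h1 : ∫ q, Fq f (a d ρ) q ∂(μ.map (bq (a d : G ≃* G))) =
            ∫ q, Fq f (a d ρ) (bq (a d : G ≃* G) q) ∂μ :=
          integral_map (bq_cont _ (hcont d)).measurable.aemeasurable
            (Fq_cont f _).aestronglyMeasurable
        rw [hMs _ μ (bq (a d : G ≃* G)) (bq_cont _ (hcont d))] at h1
        rw [h1]
        refine integral_congr_ae (Filter.Eventually.of_forall fun q => ?_)
        obtain ⟨g, rfl⟩ := QuotientGroup.mk_surjective q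
        show Fq h ρ (QuotientGroup.mk g) = Fq f (a d ρ) (bq (a d : G ≃* G) (QuotientGroup.mk g))
        rw [bq_mk, Fq_mk, Fq_mk, hfh, map_mul, map_mul, map_inv]
      rw [← e2, ← integral_sub (Fq_int μ f ρ) (Fq_int μ h ρ)]
      rfl
    rw [Finset.sum_congr rfl fun ρ _ => e1 ρ, Finset.sum_sub_distrib, sub_eq_zero]
    -- the permutation of R
    have hex : ∀ ρ ∈ R, ∃ ρ' ∈ R, IsConj ρ' (a d ρ) := by
      intro ρ hρ
      obtain ⟨e, he⟩ := (hst γ hγ ρ).1 (hR.1 ρ hρ)
      have h1 : st γ (a d ρ) := (hst γ hγ _).2 ⟨d * e, by rw [map_mul, MulAut.mul_apply, he]⟩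
      obtain ⟨ρ', ⟨h2, h3⟩, -⟩ := hR.2 _ h1
      exact ⟨ρ', h2, h3⟩
    choose! s hs1 hs2 using hex
    have hinj : Set.InjOn s (R : Set G) := by
      intro ρ1 h1 ρ2 h2 h12
      have h1' : ρ1 ∈ R := h1
      have h2' : ρ2 ∈ R := h2
      have c1 : IsConj (a d ρ1) (a d ρ2) := by
        have := (hs2 ρ1 h1').symm
        rw [h12] at this
        exact this.trans (hs2 ρ2 h2')
      have c2 : IsConj ρ1 ρ2 := by
        obtain ⟨c, hc⟩ := isConj_iff.1 c1
        refine isConj_iff.2 ⟨(a d : G ≃* G).symm c, ?_⟩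
        apply (a d : G ≃* G).injective
        rw [map_mul, map_mul, map_inv, MulEquiv.apply_symm_apply]
        exact hc
      obtain ⟨ρ, -, hu⟩ := hR.2 ρ2 (hR.1 ρ2 h2')
      rw [hu ρ1 ⟨h1', c2⟩, hu ρ2 ⟨h2', IsConj.refl _⟩]
    have himg : R.image s = R := by
      refine Finset.eq_of_subset_of_card_le ?_ ?_
      · intro x hx
        obtain ⟨ρ, hρ, rfl⟩ := Finset.mem_image.1 hx
        exact hs1 ρ hρ
      · rw [Finset.card_image_of_injOn hinj]
    have e3 : ∑ ρ ∈ R, ∫ q, Fq f (a d ρ) q ∂μ = ∑ ρ ∈ R, ∫ q, Fq f (s ρ) q ∂μ :=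
      Finset.sum_congr rfl fun ρ hρ => classf hMs μ f (hs2 ρ hρ)
    rw [e3]
    conv_lhs => rw [← himg]
    rw [Finset.sum_image hinj]
  have h0 := hT _ hun
  rw [map_sub, sub_eq_zero] at h0
  exact h0.symm

end Pool.Agent.Work.MP_481a91_al.SD
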