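import Pool.Agent.Work.MP_481a91_al.SD.StmtsH

/-!
# MP_481a91_al, block SD, part H, item Q2: distributions invariant under `Γ` are stable
-/

set_option autoImplicit false

noncomputable section

namespace Pool.Agent.Work.MP_481a91_al.SD

open scoped TensorProduct BigOperators
open MeasureTheory MeasureTheory.Measure

universe u

namespace XQ2

section

variable {Q : Type u} [Group Q] [TopologicalSpace Q] [IsTopologicalGroup Q] [CompactSpace Q]
  [MeasurableSpace Q] [BorelSpace Q]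

/-- A continuous automorphism of a compact group preserves the Haar measure. -/
theorem ms (μ : Measure Q) [μ.IsHaarMeasure] (α : Q ≃* Q) (hα : Continuous α) : μ.map α = μ := by
  have hfin : IsFiniteMeasure μ := ⟨isCompact_univ.measure_lt_top⟩
  have hH : (μ.map α).IsHaarMeasure :=
    isHaarMeasure_map_of_isFiniteMeasure μ α.toMonoidHom hα α.surjective
  have hC : μ.map α = haarScalarFactor (μ.map α) μ • μ :=
    isMulInvariant_eq_smul_of_compactSpace _ _
  have h1 : (μ.map α) Set.univ = μ Set.univ := by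
    rw [map_apply hα.measurable MeasurableSet.univ, Set.preimage_univ]
  have h2 : (haarScalarFactor (μ.map α) μ : ENNReal) * μ Set.univ = 1 * μ Set.univ := by
    rw [one_mul]
    have h3 : (μ.map α) Set.univ = (haarScalarFactor (μ.map α) μ • μ) Set.univ :=
      congrArg (fun ν : Measure Q => ν Set.univ) hC
    rw [h1] at h3
    rw [Measure.smul_apply, ENNReal.smul_def, smul_eq_mul] at h3
    exact h3.symm
  have h4 : haarScalarFactor (μ.map α) μ = 1 := by
    rwa [ENNReal.mul_left_inj (NeZero.ne _) (measure_ne_top _ _), ENNReal.coe_eq_one] at h2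
  rw [h4, one_smul] at hC
  exact hC

/-- Right invariance of the Haar measure of a compact group. -/
theorem rinv (μ : Measure Q) [μ.IsHaarMeasure] (F : Q → ℂ) (k : Q) :
    ∫ g, F (g * k) ∂μ = ∫ g, F g ∂μ := by
  have h1 : ∫ g, F (g * k) ∂μ = ∫ g, F (k⁻¹ * g * k) ∂μ :=
    (integral_mul_left_eq_self (fun g => F (g * k)) k⁻¹).symm
  rw [h1]
  have hfun : (fun g : Q => k⁻¹ * g * k) = (MulAut.conj k⁻¹ : Q ≃* Q) := by
    funext g
    rw [MulAut.conj_apply, inv_inv]
  have hc : Continuous (MulAut.conj k⁻¹ : Q ≃* Q) := by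
    rw [← hfun]
    fun_prop
  have h2 := ms μ (MulAut.conj k⁻¹) hc
  have e : MeasurableEmbedding (fun g : Q => k⁻¹ * g * k) :=
    ((Homeomorph.mulLeft k⁻¹).trans (Homeomorph.mulRight k)).measurableEmbedding
  have h3 : ∫ g, F (k⁻¹ * g * k) ∂μ = ∫ g, F g ∂(μ.map (fun g : Q => k⁻¹ * g * k)) :=
    (e.integral_map F).symm
  rw [h3, hfun, h2]

end

section

variable {G : Type u} [Group G] [TopologicalSpace G] [IsTopologicalGroup G]

/-- Conjugation by a representative of a class modulo the centre. -/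
theorem out_conj (g x : G) :
    ((g : G ⧸ Subgroup.center G)).out * x * ((g : G ⧸ Subgroup.center G)).out⁻¹ = g * x * g⁻¹ := by
  obtain ⟨z, hz⟩ := QuotientGroup.mk_out_eq_mul (Subgroup.center G) g
  rw [hz]
  have hc := Subgroup.mem_center_iff.1 z.2
  rw [mul_inv_rev, mul_assoc g (z : G) x, ← hc x]
  group

/-- `a d` as a homeomorphism. -/
def hom {Γ : Type u} [Group Γ] (a : Γ →* MulAut G) (hcont : ∀ d : Γ, Continuous (a d)) (d : Γ) : G ≃ₜ G where
  toEquiv := (a d).toEquiv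
  continuous_toFun := hcont d
  continuous_invFun := by
    have h : ((a d).toEquiv.invFun : G → G) = a d⁻¹ := by
      funext x
      rw [map_inv]
      rfl
    rw [h]
    exact hcont d⁻¹

theorem hom_apply {Γ : Type u} [Group Γ] (a : Γ →* MulAut G) (hcont : ∀ d : Γ, Continuous (a d)) (d : Γ) (x : G) :
    hom a hcont d x = a d x := rfl

/-- The composition of a test function with a homeomorphism. -/
def cmp (A : Tst G) (α : G ≃ₜ G) : Tst G :=
  ⟨fun x => A.1 (α x), A.2.1.comp_continuous α.continuous, A.2.2.comp_homeomorph α⟩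

theorem sum_val (s : Finset (Tst G)) (x : G) : (∑ φ ∈ s, φ : Tst G).1 x = ∑ φ ∈ s, φ.1 x := by
  have h : ((∑ φ ∈ s, φ : Tst G) : G → ℂ) = ∑ φ ∈ s, (φ : G → ℂ) :=
    map_sum (Tst G).subtype (fun φ => φ) s
  rw [h, Finset.sum_apply]

/-- A locally constant function which vanishes on a dense set is zero. -/
theorem dense_zero (B : Tst G) (S : Set G) (hS : Dense S) (h : ∀ γ ∈ S, B.1 γ = 0) : B = 0 := by
  apply Subtype.ext
  show B.1 = 0
  exact (B.2.1.continuous).ext_on hS continuous_const (fun γ hγ => h γ hγ)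

end

/-- Transport of systems. -/
theorem sys {G : Type u} [Group G] {Γ : Type u} [Group Γ] (a : Γ →* MulAut G) (st : G → G → Prop) (γ : G)
    (hst : ∀ δ : G, st γ δ ↔ ∃ d : Γ, a d γ = δ) (R : Finset G) (hR : Sys st γ R) (d : Γ) :
    Sys st γ (R.map (a d).toEquiv.toEmbedding) := by
  have hinv : ∀ (x : G), a d (a d⁻¹ x) = x := by
    intro x
    rw [← MulAut.mul_apply, ← map_mul, mul_inv_cancel, map_one, MulAut.one_apply]
  have hinv' : ∀ (x : G), a d⁻¹ (a d x) = x := by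
    intro x
    rw [← MulAut.mul_apply, ← map_mul, inv_mul_cancel, map_one, MulAut.one_apply]
  constructor
  · intro ρ' h
    obtain ⟨ρ, hρ, rfl⟩ := Finset.mem_map.1 h
    obtain ⟨e, he⟩ := (hst ρ).1 (hR.1 ρ hρ)
    refine (hst _).2 ⟨d * e, ?_⟩
    rw [map_mul, MulAut.mul_apply, he]
    rfl
  · intro δ hδ
    obtain ⟨e, he⟩ := (hst δ).1 hδ
    have h1 : st γ (a d⁻¹ δ) := (hst _).2 ⟨d⁻¹ * e, by rw [map_mul, MulAut.mul_apply, he]⟩
    obtain ⟨ρ, ⟨hρ, hc⟩, hu⟩ := hR.2 _ h1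
    refine ⟨a d ρ, ⟨Finset.mem_map.2 ⟨ρ, hρ, rfl⟩, ?_⟩, ?_⟩
    · have := MonoidHom.map_isConj (a d).toMonoidHom hc
      have h2 : (a d).toMonoidHom (a d⁻¹ δ) = δ := hinv δ
      rw [h2] at this
      exact this
    · rintro y ⟨hy, hyc⟩
      obtain ⟨ρ₁, hρ₁, rfl⟩ := Finset.mem_map.1 hy
      have := MonoidHom.map_isConj (a d⁻¹).toMonoidHom hyc
      have h2 : (a d⁻¹).toMonoidHom ((a d).toEquiv.toEmbedding ρ₁) = ρ₁ := hinv' ρ₁
      rw [h2] at this
      have h3 := hu ρ₁ ⟨hρ₁, this⟩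
      rw [h3]
      rfl

end XQ2

theorem pr_Q2 (hQag : StQag.{u}) (hA0 : StA0.{u}) : StQ2.{u} := by
  intro G _ _ _ _ _ _ _ μ _ Γ _ a S st N hcont hst hN hS T hT hΓ f hf
  obtain ⟨A, hA, hTA⟩ := hQag G μ f
  -- `A` is a class function
  have hcl : ∀ k x : G, A.1 (k * x * k⁻¹) = A.1 x := by
    intro k x
    rw [hA, hA, ← XQ2.rinv μ (fun q : G ⧸ Subgroup.center G => f.1 (q.out * x * q.out⁻¹))
      (k : G ⧸ Subgroup.center G)]
    refine integral_congr_ae (Filter.Eventually.of_forall fun q => ?_)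
    have e1 : q * (k : G ⧸ Subgroup.center G) = ((q.out * k : G) : G ⧸ Subgroup.center G) := by
      rw [QuotientGroup.mk_mul, QuotientGroup.out_eq']
    show f.1 (q.out * (k * x * k⁻¹) * q.out⁻¹) =
      f.1 ((q * (k : G ⧸ Subgroup.center G)).out * x * (q * (k : G ⧸ Subgroup.center G)).out⁻¹)
    rw [e1, XQ2.out_conj]
    congr 1
    group
  let c : Γ → Tst G := fun d => XQ2.cmp A (XQ2.hom a hcont d)
  have hc : ∀ d x, (c d).1 x = A.1 (a d x) := fun _ _ => rfl
  have hfin : (Set.range c).Finite := by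
    refine (N.finite_toSet.image c).subset ?_
    rintro _ ⟨d, rfl⟩
    obtain ⟨t, ht, g, hg⟩ := hN d
    refine ⟨t, ht, Subtype.ext (funext fun x => ?_)⟩
    show A.1 (a t x) = A.1 (a d x)
    rw [hg x, hcl]
  let B : Tst G := ∑ φ ∈ hfin.toFinset, φ
  have hB : ∀ x, B.1 x = ∑ φ ∈ hfin.toFinset, φ.1 x := fun x => XQ2.sum_val _ x
  have hmem : ∀ φ, φ ∈ hfin.toFinset ↔ ∃ d, c d = φ := fun φ => by
    rw [Set.Finite.mem_toFinset]
    rfl
  -- `B` is invariant under `Γ`
  have hBi : ∀ (e : Γ) (x : G), B.1 (a e x) = B.1 x := by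
    intro e x
    rw [hB, hB]
    refine Finset.sum_bij (fun φ _ => XQ2.cmp φ (XQ2.hom a hcont e)) ?_ ?_ ?_ ?_
    · intro φ hφ
      obtain ⟨d, rfl⟩ := (hmem φ).1 hφ
      refine (hmem _).2 ⟨d * e, Subtype.ext (funext fun y => ?_)⟩
      show A.1 (a (d * e) y) = A.1 (a d (a e y))
      rw [map_mul, MulAut.mul_apply]
    · intro φ _ ψ _ h
      refine Subtype.ext (funext fun y => ?_)
      have h1 := congrArg (fun F : Tst G => F.1 (a e⁻¹ y)) h
      have h2 : φ.1 (a e (a e⁻¹ y)) = ψ.1 (a e (a e⁻¹ y)) := h1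
      have h3 : a e (a e⁻¹ y) = y := by
        rw [← MulAut.mul_apply, ← map_mul, mul_inv_cancel, map_one, MulAut.one_apply]
      rw [h3] at h2
      exact h2
    · intro ψ hψ
      obtain ⟨d, rfl⟩ := (hmem ψ).1 hψ
      refine ⟨c (d * e⁻¹), (hmem _).2 ⟨_, rfl⟩, Subtype.ext (funext fun y => ?_)⟩
      show A.1 (a (d * e⁻¹) (a e y)) = A.1 (a d y)
      rw [← MulAut.mul_apply, ← map_mul, inv_mul_cancel_right]
    · intro φ _
      rfl
  -- `B` vanishes on `S`
  have hBS : ∀ γ ∈ S, B.1 γ = 0 := by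
    intro γ hγ
    obtain ⟨R, hR⟩ := hA0 G Γ a N st γ hN (hst γ hγ)
    have h1 : ∀ φ ∈ hfin.toFinset, ∑ ρ ∈ R, φ.1 ρ = 0 := by
      intro φ hφ
      obtain ⟨d, rfl⟩ := (hmem φ).1 hφ
      have h2 := hf γ hγ _ (XQ2.sys a st γ (hst γ hγ) R hR d)
      rw [Finset.sum_map] at h2
      rw [← h2]
      refine Finset.sum_congr rfl fun ρ _ => ?_
      rw [hc, hA]
      rfl
    have h3 : ∑ ρ ∈ R, B.1 ρ = 0 := by
      rw [Finset.sum_congr rfl fun ρ _ => hB ρ, Finset.sum_comm]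
      exact Finset.sum_eq_zero h1
    have h4 : ∑ ρ ∈ R, B.1 ρ = (R.card : ℂ) * B.1 γ := by
      rw [← nsmul_eq_mul, ← Finset.sum_const]
      refine Finset.sum_congr rfl fun ρ hρ => ?_
      obtain ⟨d, hd⟩ := (hst γ hγ ρ).1 (hR.1 ρ hρ)
      rw [← hd, hBi]
    have h5 : R.Nonempty := by
      have h6 : st γ γ := (hst γ hγ γ).2 ⟨1, by rw [map_one, MulAut.one_apply]⟩
      obtain ⟨ρ, ⟨hρ, _⟩, _⟩ := hR.2 γ h6
      exact ⟨ρ, hρ⟩
    rw [h3] at h4
    rcases mul_eq_zero.1 h4.symm with h | h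
    · exact absurd (Nat.cast_eq_zero.1 h) h5.card_ne_zero
    · exact h
  have hB0 : B = 0 := XQ2.dense_zero B S hS hBS
  have hTB : T B = (hfin.toFinset.card : ℂ) * T A := by
    show T (∑ φ ∈ hfin.toFinset, φ) = _
    rw [_root_.map_sum, ← nsmul_eq_mul, ← Finset.sum_const]
    refine Finset.sum_congr rfl fun φ hφ => ?_
    obtain ⟨d, rfl⟩ := (hmem φ).1 hφ
    exact hΓ d A (c d) (fun x => rfl)
  rw [hB0, map_zero, hTA T hT] at hTB
  have hcard : (hfin.toFinset.card : ℂ) ≠ 0 := by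
    refine Nat.cast_ne_zero.2 (Finset.Nonempty.card_ne_zero ⟨c 1, (hmem _).2 ⟨1, rfl⟩⟩)
  have hμ : (((μ Set.univ).toReal : ℝ) : ℂ) ≠ 0 := by
    refine Complex.ofReal_ne_zero.2 (ENNReal.toReal_ne_zero.2 ⟨?_, ?_⟩)
    · exact (isOpen_univ.measure_pos μ Set.univ_nonempty).ne'
    · exact isCompact_univ.measure_ne_top
  rcases mul_eq_zero.1 hTB.symm with h | h
  · exact absurd h hcard
  · rcases mul_eq_zero.1 h with h | h
    · exact absurd h hμ
    · exact h

end Pool.Agent.Work.MP_481a91_al.SD
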