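import Pool.Agent.Work.MP_481a91_al.SD.StmtsH

/-!
# MP_481a91_al, block SD, item Qag: averaging over conjugation, compact modulo the centre
-/

set_option autoImplicit false
set_option linter.unusedSectionVars false

noncomputable section

namespace Pool.Agent.Work.MP_481a91_al.SD

open scoped TensorProduct BigOperators
open MeasureTheory

universe u

namespace XQag

section cpt

variable {Q : Type u} [Group Q] [TopologicalSpace Q] [IsTopologicalGroup Q]

/-- The left coset `q`. -/
def cs (V : Subgroup Q) (q : Q ⧸ V) : Set Q := (fun g : Q => q.out⁻¹ * g) ⁻¹' (V : Set Q)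

theorem mem_cs (V : Subgroup Q) (q : Q ⧸ V) (g : Q) :
    g ∈ cs V q ↔ (QuotientGroup.mk g : Q ⧸ V) = q := by
  have h1 : g ∈ cs V q ↔ q.out⁻¹ * g ∈ V := Iff.rfl
  rw [h1, ← QuotientGroup.eq, QuotientGroup.out_eq', eq_comm]

theorem meas_cs [MeasurableSpace Q] [BorelSpace Q] (V : Subgroup Q) (hV : IsOpen (V : Set Q))
    (q : Q ⧸ V) : MeasurableSet (cs V q) :=
  (hV.preimage (continuous_const.mul continuous_id)).measurableSet

theorem int_formula [CompactSpace Q] [MeasurableSpace Q] [BorelSpace Q]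
    (μ : Measure Q) [μ.IsHaarMeasure] (V : Subgroup Q) (hV : IsOpen (V : Set Q))
    [Fintype (Q ⧸ V)] (F : Q → ℂ) (hF : ∀ g : Q, ∀ v ∈ V, F (g * v) = F g) :
    ∫ g, F g ∂μ = ∑ q : Q ⧸ V, ((μ.real (V : Set Q) : ℝ) : ℂ) * F q.out := by
  classical
  have e1 : F = fun g => ∑ q : Q ⧸ V, (cs V q).indicator (fun _ => F q.out) g := by
    funext g
    rw [Finset.sum_eq_single (QuotientGroup.mk g : Q ⧸ V)]
    · rw [Set.indicator_of_mem ((mem_cs V _ g).2 rfl)]
      obtain ⟨v, hv⟩ := QuotientGroup.mk_out_eq_mul V g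
      rw [hv, hF g v v.2]
    · intro q _ hq
      rw [Set.indicator_of_notMem]
      intro h
      exact hq ((mem_cs V q g).1 h).symm
    · intro h
      exact absurd (Finset.mem_univ _) h
  have e2 : ∀ q : Q ⧸ V, μ.real (cs V q) = μ.real (V : Set Q) := by
    intro q
    unfold Measure.real cs
    rw [measure_preimage_mul]
  have e3 : ∫ g, F g ∂μ =
      ∫ g, (∑ q : Q ⧸ V, (cs V q).indicator (fun _ => F q.out) g) ∂μ :=
    congrArg (fun H : Q → ℂ => ∫ g, H g ∂μ) e1
  rw [e3, integral_finsetSum]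
  · refine Finset.sum_congr rfl fun q _ => ?_
    rw [integral_indicator_const _ (meas_cs V hV q), e2 q]
    rfl
  · intro q _
    exact (integrable_const _).indicator (meas_cs V hV q)

theorem core_open [CompactSpace Q] (V : Subgroup Q) (hV : IsOpen (V : Set Q)) :
    IsOpen (V.normalCore : Set Q) := by
  have hfin : Finite (Q ⧸ V) := Subgroup.quotient_finite_of_isOpen V hV
  have hfi : V.FiniteIndex := Subgroup.finiteIndex_of_finite_quotient
  have h2 : IsClosed (V.normalCore : Set Q) := V.normalCore_isClosed (V.isClosed_of_isOpen hV)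
  exact Subgroup.isOpen_of_isClosed_of_finiteIndex _ h2

end cpt

section quot

variable {G : Type u} [Group G]

/-- The value of a function at a conjugate depends only on the class modulo the centre. -/
theorem out_conj (f : G → ℂ) (x g : G) :
    f ((QuotientGroup.mk g : G ⧸ Subgroup.center G).out * x *
      ((QuotientGroup.mk g : G ⧸ Subgroup.center G).out)⁻¹) = f (g * x * g⁻¹) := by
  obtain ⟨z, hz⟩ := QuotientGroup.mk_out_eq_mul (Subgroup.center G) g
  have hc : x * (z : G) = (z : G) * x := Subgroup.mem_center_iff.1 z.2 x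
  rw [hz]
  congr 1
  rw [mul_inv_rev]
  calc g * (z : G) * x * ((z : G)⁻¹ * g⁻¹) = g * ((z : G) * x) * ((z : G)⁻¹ * g⁻¹) := by group
    _ = g * (x * (z : G)) * ((z : G)⁻¹ * g⁻¹) := by rw [hc]
    _ = g * x * g⁻¹ := by group

theorem inv_core (V : Subgroup G) (f : G → ℂ)
    (hf : ∀ v ∈ V, ∀ x : G, f (v * x) = f x ∧ f (x * v) = f x) (x : G)
    (q : G ⧸ Subgroup.center G) (v : G ⧸ Subgroup.center G)
    (hv : v ∈ (V.map (QuotientGroup.mk' (Subgroup.center G))).normalCore) :
    f ((q * v).out * x * ((q * v).out)⁻¹) = f (q.out * x * (q.out)⁻¹) := by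
  have h1 : q * v * q⁻¹ ∈ (V.map (QuotientGroup.mk' (Subgroup.center G))).normalCore :=
    (Subgroup.normalCore_normal _).conj_mem v hv q
  obtain ⟨w, hw, hwq⟩ := Subgroup.mem_map.1 (Subgroup.normalCore_le _ h1)
  obtain ⟨g, rfl⟩ := QuotientGroup.mk_surjective q
  have h2 : (QuotientGroup.mk g : G ⧸ Subgroup.center G) * v = QuotientGroup.mk (w * g) := by
    rw [QuotientGroup.mk_mul]
    have h3 : (QuotientGroup.mk w : G ⧸ Subgroup.center G) =
        QuotientGroup.mk g * v * (QuotientGroup.mk g)⁻¹ := hwq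
    rw [h3, inv_mul_cancel_right]
  rw [h2, out_conj f x (w * g), out_conj f x g]
  have h4 : w * g * x * (w * g)⁻¹ = w * (g * x * g⁻¹ * w⁻¹) := by group
  rw [h4, (hf w hw _).1, (hf w⁻¹ (V.inv_mem hw) _).2]

end quot

end XQag

theorem pr_Qag (hQun : StQun.{u}) : StQag.{u} := by
  intro G _ _ _ _ _ _ μ _ f
  obtain ⟨V, hV, hf⟩ := hQun G f
  set V' : Subgroup (G ⧸ Subgroup.center G) := V.map (QuotientGroup.mk' (Subgroup.center G))
    with hV'
  have hVo : IsOpen (V' : Set (G ⧸ Subgroup.center G)) := by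
    have := QuotientGroup.isOpenMap_coe (N := Subgroup.center G) _ hV
    rw [hV', Subgroup.coe_map]
    exact this
  set W : Subgroup (G ⧸ Subgroup.center G) := V'.normalCore with hW
  have hWo : IsOpen (W : Set (G ⧸ Subgroup.center G)) := XQag.core_open V' hVo
  have hfin : Finite ((G ⧸ Subgroup.center G) ⧸ W) := Subgroup.quotient_finite_of_isOpen W hWo
  have hft : Fintype ((G ⧸ Subgroup.center G) ⧸ W) := Fintype.ofFinite _
  refine ⟨((μ.real (W : Set (G ⧸ Subgroup.center G)) : ℝ) : ℂ) •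
    ∑ q : (G ⧸ Subgroup.center G) ⧸ W, tr q.out.out q.out.out⁻¹ f, ?_, ?_⟩
  · intro x
    rw [XQag.int_formula μ W hWo (fun q => f.1 (q.out * x * q.out⁻¹))]
    · have e : (∑ q : (G ⧸ Subgroup.center G) ⧸ W, tr q.out.out q.out.out⁻¹ f).1 x =
          ∑ q : (G ⧸ Subgroup.center G) ⧸ W, f.1 (q.out.out * x * q.out.out⁻¹) := by
        rw [Submodule.coe_sum, Finset.sum_apply]
        rfl
      rw [← Finset.mul_sum, ← e]
      rfl
    · intro q v hv
      exact XQag.inv_core V f.1 hf x q v hv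
  · intro T hT
    have h1 : ∀ q : (G ⧸ Subgroup.center G) ⧸ W, T (tr q.out.out q.out.out⁻¹ f) = T f := by
      intro q
      have := hT q.out.out⁻¹ f
      rw [inv_inv] at this
      exact this
    have h2 : ((μ Set.univ).toReal : ℂ) =
        ∑ _q : (G ⧸ Subgroup.center G) ⧸ W,
          ((μ.real (W : Set (G ⧸ Subgroup.center G)) : ℝ) : ℂ) := by
      have := XQag.int_formula μ W hWo (fun _ => (1 : ℂ)) (fun _ _ _ => rfl)
      rw [integral_const] at this
      simp only [mul_one] at this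
      rw [← this]
      show _ = (μ.real Set.univ) • (1 : ℂ)
      rw [Complex.real_smul, mul_one]
      rfl
    rw [map_smul, map_sum, h2, smul_eq_mul, Finset.sum_congr rfl fun q _ => h1 q,
      Finset.sum_const, Finset.sum_const, nsmul_eq_mul, nsmul_eq_mul]
    ring

end Pool.Agent.Work.MP_481a91_al.SD
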