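import Pool.Agent.Work.MP_481a91_al.SD.StmtsH

/-!
# MP_481a91_al, block SD, item Qcn: convolutions of two elements of the Bernstein centre
-/

set_option autoImplicit false

noncomputable section

namespace Pool.Agent.Work.MP_481a91_al.SD

open scoped TensorProduct BigOperators
open MeasureTheory

universe u

namespace XQcn

variable {G : Type u} [Group G] [TopologicalSpace G] [IsTopologicalGroup G]

theorem tr_add (a b : G) (f g : Tst G) : tr a b (f + g) = tr a b f + tr a b g := rfl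

theorem tr_smul (a b : G) (c : ℂ) (f : Tst G) : tr a b (c • f) = c • tr a b f := rfl

/-- the function `x ↦ T (y ↦ f (x y))` -/
def hh (T : Dst G) (hT : BC T) (f : Tst G) : Tst G := iv (Classical.choose (hT.ess (iv f)))

theorem hh_apply (T : Dst G) (hT : BC T) (f : Tst G) (x : G) :
    (hh T hT f).1 x = T (tr x 1 f) := by
  have h := Classical.choose_spec (hT.ess (iv f)) x⁻¹
  have e : iv (tr 1 x⁻¹ (iv f)) = tr x 1 f := by
    apply Subtype.ext
    funext y
    show f.1 (1 * y⁻¹ * x⁻¹)⁻¹ = f.1 (x * y * 1)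
    group
  rw [e] at h
  exact h

end XQcn

open XQcn in
theorem pr_Qcn : StQcn.{u} := by
  intro G _ _ _ T₁ T₂ h1 h2
  refine ⟨{ toFun := fun f => T₁ (hh T₂ h2 f), map_add' := ?_, map_smul' := ?_ }, ?_, ?_⟩
  · intro f g
    rw [← map_add]
    congr 1
    apply Subtype.ext
    funext x
    show (hh T₂ h2 (f + g)).1 x = (hh T₂ h2 f).1 x + (hh T₂ h2 g).1 x
    rw [hh_apply, hh_apply, hh_apply, tr_add, map_add]
  · intro c f
    rw [RingHom.id_apply, ← map_smul]
    congr 1
    apply Subtype.ext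
    funext x
    show (hh T₂ h2 (c • f)).1 x = c • (hh T₂ h2 f).1 x
    rw [hh_apply, hh_apply, tr_smul, map_smul]
  · intro f
    exact ⟨hh T₂ h2 f, fun x => hh_apply T₂ h2 f x, rfl⟩
  · intro f
    obtain ⟨k, hk⟩ := h2.ess f
    obtain ⟨l, hl⟩ := h1.ess k
    refine ⟨l, fun x => ?_⟩
    rw [hl x]
    show T₁ (iv (tr 1 x k)) = T₁ (hh T₂ h2 (iv (tr 1 x f)))
    congr 1
    apply Subtype.ext
    funext z
    rw [hh_apply]
    show k.1 (1 * z⁻¹ * x) = T₂ (tr z 1 (iv (tr 1 x f)))
    rw [hk]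
    congr 1
    apply Subtype.ext
    funext y
    show f.1 (1 * y⁻¹ * (1 * z⁻¹ * x)) = f.1 (1 * (z * y * 1)⁻¹ * x)
    group

end Pool.Agent.Work.MP_481a91_al.SD
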