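import Pool.Agent.Work.MP_481a91_al.SD.StmtsH

/-! Item Qun of block SDH (helper55). -/

set_option autoImplicit false

noncomputable section

namespace Pool.Agent.Work.MP_481a91_al.SD

open scoped TensorProduct BigOperators Topology
open MeasureTheory

universe u

namespace XQun

variable {G : Type u} [Group G] [TopologicalSpace G]

/-- the elements under which `f` is invariant on both sides -/
def stab (f : G → ℂ) : Subgroup G where
  carrier := {v | ∀ x : G, f (v * x) = f x ∧ f (x * v) = f x}
  one_mem' := fun x => by simp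
  mul_mem' := by
    intro v w hv hw x
    constructor
    · rw [mul_assoc, (hv _).1, (hw _).1]
    · rw [← mul_assoc, (hw _).2, (hv _).2]
  inv_mem' := by
    intro v hv x
    constructor
    · have h := (hv (v⁻¹ * x)).1
      rw [mul_inv_cancel_left] at h
      exact h.symm
    · have h := (hv (x * v⁻¹)).2
      rw [inv_mul_cancel_right] at h
      exact h.symm

theorem mem_stab (f : G → ℂ) (v : G) :
    v ∈ stab f ↔ ∀ x : G, f (v * x) = f x ∧ f (x * v) = f x := Iff.rfl

variable [IsTopologicalGroup G]

theorem near (f : G → ℂ) (hf : IsLocallyConstant f) (p : G × G → G) (hp : Continuous p)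
    (x : G) (hx : p (1, x) = x) : ∀ᶠ z : G × G in 𝓝 (1, x), f (p z) = f z.2 := by
  have h1 : ∀ᶠ z : G × G in 𝓝 (1, x), f (p z) = f x := by
    have h := (hf.comp_continuous hp).eventually_eq (1, x)
    filter_upwards [h] with z hz
    have h2 : f (p z) = f (p (1, x)) := hz
    rw [h2, hx]
  have h2 : ∀ᶠ z : G × G in 𝓝 (1, x), f z.2 = f x :=
    (hf.comp_continuous continuous_snd).eventually_eq (1, x)
  filter_upwards [h1, h2] with z hz hz'
  rw [hz, hz']

theorem near_all (f : G → ℂ) (hf : IsLocallyConstant f) (hc : HasCompactSupport f) :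
    ∀ᶠ v in 𝓝 (1 : G), ∀ x ∈ tsupport f, (f (v * x) = f x ∧ f (x * v) = f x) ∧
      (f (v⁻¹ * x) = f x ∧ f (x * v⁻¹) = f x) := by
  refine IsCompact.eventually_forall_of_forall_eventually hc ?_
  intro x _
  have h1 := near f hf (fun z => z.1 * z.2) (by fun_prop) x (by simp)
  have h2 := near f hf (fun z => z.2 * z.1) (by fun_prop) x (by simp)
  have h3 := near f hf (fun z => z.1⁻¹ * z.2) (by fun_prop) x (by simp)
  have h4 := near f hf (fun z => z.2 * z.1⁻¹) (by fun_prop) x (by simp)
  filter_upwards [h1, h2, h3, h4] with z a b c d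
  exact ⟨⟨a, b⟩, ⟨c, d⟩⟩

end XQun

theorem pr_Qun : StQun.{u} := by
  intro G _ _ _ f
  refine ⟨XQun.stab f.1, ?_, fun v hv => (XQun.mem_stab f.1 v).mp hv⟩
  refine Subgroup.isOpen_of_mem_nhds (g := 1) _ ?_
  filter_upwards [XQun.near_all f.1 f.2.1 f.2.2] with v hv
  change v ∈ XQun.stab f.1
  rw [XQun.mem_stab]
  intro x
  by_cases hx : x ∈ tsupport f.1
  · exact (hv x hx).1
  · have h0 : f.1 x = 0 := image_eq_zero_of_notMem_tsupport hx
    constructor
    · by_cases h1 : v * x ∈ tsupport f.1
      · have h2 := (hv _ h1).2.1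
        rw [inv_mul_cancel_left] at h2
        exact h2.symm
      · rw [h0, image_eq_zero_of_notMem_tsupport h1]
    · by_cases h1 : x * v ∈ tsupport f.1
      · have h2 := (hv _ h1).2.2
        rw [mul_inv_cancel_right] at h2
        exact h2.symm
      · rw [h0, image_eq_zero_of_notMem_tsupport h1]

end Pool.Agent.Work.MP_481a91_al.SD
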