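import Pool.Agent.Work.MP_481a91_al.SD.GenH
import Pool.Agent.Work.MP_481a91_al.SD.I_Aut
import Pool.Agent.Work.MP_481a91_al.SD.I_Ms
import Pool.Agent.Work.MP_481a91_al.SD.I_A0
import Pool.Agent.Work.MP_481a91_al.SD.I_Jac
import Pool.Agent.Work.MP_481a91_al.SD.I_SN
import Pool.Agent.Work.MP_481a91_al.SD.I_Ln
import Pool.Agent.Work.MP_481a91_al.SD.I_Pw
import Pool.Agent.Work.MP_481a91_al.SD.I_Nm
import Pool.Agent.Work.MP_481a91_al.SD.I_Rg
import Pool.Agent.Work.MP_481a91_al.SD.I_Ex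
import Pool.Agent.Work.MP_481a91_al.SD.I_Nc
import Pool.Agent.Work.MP_481a91_al.SD.I_Rt
import Pool.Agent.Work.MP_481a91_al.SD.I_Fi
import Pool.Agent.Work.MP_481a91_al.SD.I_Kp
import Pool.Agent.Work.MP_481a91_al.SD.I_Dn
import Pool.Agent.Work.MP_481a91_al.SD.I_Qun
import Pool.Agent.Work.MP_481a91_al.SD.I_Qag
import Pool.Agent.Work.MP_481a91_al.SD.I_Qcn
import Pool.Agent.Work.MP_481a91_al.SD.I_Q1
import Pool.Agent.Work.MP_481a91_al.SD.I_Q2
import Pool.Agent.Work.MP_481a91_al.SD.I_Dmp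
import Pool.Agent.Work.MP_481a91_al.SD.I_Dcj
import Pool.Agent.Work.MP_481a91_al.SD.I_Dw
import Pool.Agent.Work.MP_481a91_al.SD.I_Emb
import Pool.Agent.Work.MP_481a91_al.SD.I_Ixh
import Pool.Agent.Work.MP_481a91_al.SD.I_Hds
import Pool.Agent.Work.MP_481a91_al.SD.I_Hcp

/-! # MP_481a91_al, block SD: the general theorem -/

set_option autoImplicit false

noncomputable section

namespace Pool.Agent.Work.MP_481a91_al.SD

universe u

theorem finalH : MainHD.{u} := by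
  have hMs : StMs.{u} := pr_Ms
  have hA0 : StA0.{u} := pr_A0
  have hJac : StJac.{u} := pr_Jac
  have hLn : StLn.{u} := pr_Ln
  have hPw : StPw.{u} := pr_Pw
  have hNm : StNm.{u} := pr_Nm hLn hPw
  have hNc : StNc.{u} := pr_Nc
  have hRt : StRt.{u} := pr_Rt
  have hFi : StFi.{u} := pr_Fi hRt
  have hKp : StKp.{u} := pr_Kp hNm hNc
  have hIxh : StIxh.{u} := pr_Ixh hNm hFi
  have hQag : StQag.{u} := pr_Qag pr_Qun
  have hDw : StDw.{u} := pr_Dw hNm hNc hRt pr_Rg pr_Ex pr_Dn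
  exact mainHD pr_Qcn pr_Aut hA0 (pr_Q1 hMs) (pr_Q2 hQag hA0) (pr_SN hJac) pr_Dmp pr_Dcj hIxh
    (pr_Hds hDw pr_Emb) (pr_Hcp hKp hIxh)

end Pool.Agent.Work.MP_481a91_al.SD
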