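import Pool.Agent.Work.MP_481a91_al.SD.StmtsQ

/-!
# MP_481a91_al, block SD: item Gds, Galois descent
-/

set_option autoImplicit false

noncomputable section

namespace Pool.Agent.Work.MP_481a91_al.SD

open scoped TensorProduct BigOperators
open MeasureTheory

universe u

theorem pr_Gds : StGds.{u} := by
  intro F B _ _ _ _ x hx
  have b := Module.Free.chooseBasis F B
  have hrep : ∀ (σ : AlgebraicClosure F ≃ₐ[F] AlgebraicClosure F) (y : AlgebraicClosure F ⊗[F] B)
      (j : Module.Free.ChooseBasisIndex F B),
      (Algebra.TensorProduct.basis (AlgebraicClosure F) b).repr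
        (Algebra.TensorProduct.map (σ : AlgebraicClosure F →ₐ[F] AlgebraicClosure F)
          (AlgHom.id F B) y) j =
        σ ((Algebra.TensorProduct.basis (AlgebraicClosure F) b).repr y j) := by
    intro σ y j
    induction y using TensorProduct.induction_on with
    | zero => simp
    | tmul k m =>
      rw [Algebra.TensorProduct.map_tmul, Algebra.TensorProduct.basis_repr_tmul,
        Algebra.TensorProduct.basis_repr_tmul]
      simp only [Finsupp.smul_apply, Finsupp.mapRange_apply, smul_eq_mul, map_mul]
      simp
    | add y z hy hz =>
      rw [map_add, map_add, Finsupp.add_apply, hy, hz, map_add, Finsupp.add_apply, map_add]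
  have hfix : ∀ j, ∃ c : F, algebraMap F (AlgebraicClosure F) c =
      (Algebra.TensorProduct.basis (AlgebraicClosure F) b).repr x j := by
    intro j
    have h : (Algebra.TensorProduct.basis (AlgebraicClosure F) b).repr x j ∈
        Set.range (algebraMap F (AlgebraicClosure F)) := by
      rw [InfiniteGalois.mem_range_algebraMap_iff_fixed]
      intro σ
      rw [← hrep σ x j, hx σ]
    exact h
  choose c hc using hfix
  have hsupp : ∀ j, c j ≠ 0 →
      j ∈ ((Algebra.TensorProduct.basis (AlgebraicClosure F) b).repr x).support := by
    intro j hj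
    rw [Finsupp.mem_support_iff, ← hc j]
    intro h0
    apply hj
    rwa [map_eq_zero] at h0
  let cc : Module.Free.ChooseBasisIndex F B →₀ F := Finsupp.onFinset
    ((Algebra.TensorProduct.basis (AlgebraicClosure F) b).repr x).support c hsupp
  refine ⟨b.repr.symm cc, ?_⟩
  apply (Algebra.TensorProduct.basis (AlgebraicClosure F) b).repr.injective
  ext j
  rw [Algebra.TensorProduct.basis_repr_tmul, ← hc j]
  simp [cc]

end Pool.Agent.Work.MP_481a91_al.SD
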