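import Pool.Agent.Work.MP_481a91_al.SD.StmtsQ

/-!
# Quotients are compact modulo the centre
-/

set_option autoImplicit false

namespace Pool.Agent.Work.MP_481a91_al.SD

universe u

namespace XQcp

/-- The class of a central element is central. -/
theorem cen {G : Type u} [Group G] (Z₀ : Subgroup G) [Z₀.Normal] (z : G)
    (hz : z ∈ Subgroup.center G) : (z : G ⧸ Z₀) ∈ Subgroup.center (G ⧸ Z₀) := by
  rw [Subgroup.mem_center_iff]
  intro q
  obtain ⟨g, rfl⟩ := QuotientGroup.mk_surjective q
  rw [← QuotientGroup.mk_mul, ← QuotientGroup.mk_mul, Subgroup.mem_center_iff.mp hz g]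

end XQcp

open XQcp in
theorem pr_Qcp : StQcp.{u} := by
  intro G _ _ _ Z₀ _ hc
  let f : G ⧸ Subgroup.center G →* (G ⧸ Z₀) ⧸ Subgroup.center (G ⧸ Z₀) :=
    QuotientGroup.lift (Subgroup.center G)
      ((QuotientGroup.mk' (Subgroup.center (G ⧸ Z₀))).comp (QuotientGroup.mk' Z₀)) (by
        intro z hz
        exact (QuotientGroup.eq_one_iff _).mpr (cen Z₀ z hz))
  have hf : Continuous f := by
    apply continuous_quot_lift
    exact continuous_quot_mk.comp continuous_quot_mk
  have hs : Function.Surjective f := by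
    intro q
    obtain ⟨r, rfl⟩ := QuotientGroup.mk_surjective q
    obtain ⟨g, rfl⟩ := QuotientGroup.mk_surjective r
    exact ⟨(g : G ⧸ Subgroup.center G), rfl⟩
  exact hs.compactSpace hf

end Pool.Agent.Work.MP_481a91_al.SD
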