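import Pool.Agent.Work.MP_481a91_al.SD.StmtsQ

/-!
# MP_481a91_al, block SD, item Qds: the strongly regular elements are dense in `H/Z₀`
-/

set_option autoImplicit false

noncomputable section

namespace Pool.Agent.Work.MP_481a91_al.SD

open scoped TensorProduct BigOperators

universe u

namespace XQds

theorem mem_SL1_of_nrd {F D : Type u} [Field F] [DivisionRing D] [Algebra F D] {n : ℕ}
    (φ : AlgebraicClosure F ⊗[F] D ≃ₐ[AlgebraicClosure F] Matrix (Fin n) (Fin n) (AlgebraicClosure F))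
    (w v : Dˣ) (h : nrd φ w = nrd φ v) : w * v⁻¹ ∈ SL1 φ := by
  show nrd φ (w * v⁻¹) = 1
  rw [map_mul, h, ← map_mul, mul_inv_cancel, map_one]

end XQds

theorem pr_Qds (hDwt : StDwt.{u}) (hEmb : StEmb.{u}) (hQtr : StQtr.{u}) : StQds.{u} := by
  intro F _ N E D _ _ _ _ _ _ _ _ _ _ _ _ _ n φ H Zk Z₀ _ hH
  have he : Topology.IsEmbedding (Pi.map (fun (i : Fin N) (x : (D i)ˣ) => (x : D i))) :=
    Topology.IsEmbedding.piMap fun i => hEmb (E i) (D i)
  have heH : Topology.IsEmbedding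
      ((Pi.map (fun (i : Fin N) (x : (D i)ˣ) => (x : D i))) ∘ (Subtype.val : H → PU D)) :=
    he.comp Topology.IsEmbedding.subtypeVal
  rw [dense_iff_inter_open]
  rintro U hU ⟨q, hq⟩
  obtain ⟨v, rfl⟩ := QuotientGroup.mk_surjective q
  have hU' : IsOpen ((QuotientGroup.mk : H → H ⧸ Z₀) ⁻¹' U) :=
    hU.preimage QuotientGroup.continuous_mk
  obtain ⟨V, hV, hVU⟩ := heH.toIsInducing.isOpen_iff.mp hU'
  have hvV : (fun i : Fin N => (((v : PU D) i : (D i)ˣ) : D i)) ∈ V := by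
    have h1 : v ∈ ((Pi.map (fun (i : Fin N) (x : (D i)ˣ) => (x : D i))) ∘
      (Subtype.val : H → PU D)) ⁻¹' V := by rw [hVU]; exact hq
    exact h1
  obtain ⟨O, hO, hOV⟩ := (isOpen_pi_iff'.mp hV) _ hvV
  have key : ∀ i : Fin N, ∃ w : (D i)ˣ, (w : D i) ∈ O i ∧ nrd (φ i) w = nrd (φ i) ((v : PU D) i) ∧
      (mat (φ i) (w : D i)).charpoly.Separable ∧
      LinearMap.trace (E i) (D i) (LinearMap.mulLeft (E i) (w : D i)) ≠ 0 := fun i =>
    hDwt (E i) (D i) (n i) (φ i) ((v : PU D) i) (O i) ((hO i).1.mem_nhds (hO i).2)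
  choose w hw1 hw2 hw3 hw4 using key
  have hmem : (fun i => w i * ((v : PU D) i)⁻¹ : PU D) ∈ PS1 φ := by
    rw [PS1, Subgroup.mem_pi]
    intro i _
    exact XQds.mem_SL1_of_nrd (φ i) (w i) ((v : PU D) i) (hw2 i)
  have hwH : (w : PU D) ∈ H := by
    have h1 := H.mul_mem (hH hmem) v.2
    have h2 : (fun i => w i * ((v : PU D) i)⁻¹ : PU D) * (v : PU D) = w := by
      funext i
      exact inv_mul_cancel_right (w i) ((v : PU D) i)
    rw [h2] at h1
    exact h1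
  refine ⟨((⟨w, hwH⟩ : H) : H ⧸ Z₀), ?_, ⟨w, hwH⟩, rfl, fun i => hw3 i, fun g z _ hgz => ?_⟩
  · have h3 : (⟨w, hwH⟩ : H) ∈ (QuotientGroup.mk : H → H ⧸ Z₀) ⁻¹' U := by
      rw [← hVU]
      exact hOV fun i _ => hw1 i
    exact h3
  · exact hQtr F N E D w hw4 g z hgz

end Pool.Agent.Work.MP_481a91_al.SD
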