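import Pool.Agent.Work.MP_481a91_al.SD.StmtsQ

/-!
# MP_481a91_al, block SD, item Qtr
-/

set_option autoImplicit false

noncomputable section

namespace Pool.Agent.Work.MP_481a91_al.SD

open scoped TensorProduct BigOperators
open MeasureTheory

universe u

namespace XQtr

variable (F : Type u) [Field F] {N : ℕ} (E D : Fin N → Type u) [∀ i, Field (E i)]
  [∀ i, DivisionRing (D i)] [∀ i, Algebra F (E i)] [∀ i, Algebra (E i) (D i)] [∀ i, Algebra F (D i)]
  [∀ i, IsScalarTower F (E i) (D i)]

/-- The trace of the left multiplication. -/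
def trA (A B : Type u) [Field A] [DivisionRing B] [Algebra A B] : B →ₗ[A] A :=
  (LinearMap.trace A B).comp (Algebra.lmul A B).toLinearMap

theorem trA_apply (A B : Type u) [Field A] [DivisionRing B] [Algebra A B] (x : B) :
    trA A B x = LinearMap.trace A B (LinearMap.mulLeft A x) := rfl

/-- The traces of the left multiplications. -/
def t : (∀ i, D i) →ₗ[F] (∀ i, E i) :=
  LinearMap.pi fun i => ((trA (E i) (D i)).restrictScalars F).comp (LinearMap.proj i)

theorem t_apply (x : ∀ i, D i) (i : Fin N) : t F E D x i = trA (E i) (D i) (x i) := rfl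

theorem tr_comm (A B : Type u) [Field A] [DivisionRing B] [Algebra A B] (x y : B) :
    trA A B (x * y) = trA A B (y * x) := by
  have h1 : LinearMap.mulLeft A (x * y) = LinearMap.mulLeft A x * LinearMap.mulLeft A y := by
    ext w
    simp [mul_assoc]
  have h2 : LinearMap.mulLeft A (y * x) = LinearMap.mulLeft A y * LinearMap.mulLeft A x := by
    ext w
    simp [mul_assoc]
  rw [trA_apply, trA_apply, h1, h2, LinearMap.trace_mul_comm]

theorem t_comm (x y : ∀ i, D i) : t F E D (x * y) = t F E D (y * x) := by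
  funext i
  rw [t_apply, t_apply, Pi.mul_apply, Pi.mul_apply, tr_comm]

theorem t_eD (e : ∀ i, E i) (x : ∀ i, D i) : t F E D (eD F E D e * x) = e * t F E D x := by
  funext i
  rw [Pi.mul_apply, t_apply, t_apply, Pi.mul_apply]
  have h : eD F E D e i * x i = e i • x i := by
    rw [Algebra.smul_def]
    rfl
  rw [h, map_smul, smul_eq_mul]

/-- The extension of `t` to `K ⊗ A`. -/
def T : KD F D →ₗ[F] KE F E := TensorProduct.map LinearMap.id (t F E D)

theorem T_tmul (k : AlgebraicClosure F) (x : ∀ i, D i) : T F E D (k ⊗ₜ[F] x) = k ⊗ₜ[F] (t F E D x) := by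
  rw [T, TensorProduct.map_tmul]
  rfl

theorem T_comm (X Y : KD F D) : T F E D (X * Y) = T F E D (Y * X) := by
  induction X using TensorProduct.induction_on with
  | zero => rw [zero_mul, mul_zero]
  | add X₁ X₂ h₁ h₂ => rw [add_mul, mul_add, map_add, map_add, h₁, h₂]
  | tmul k x =>
    induction Y using TensorProduct.induction_on with
    | zero => rw [zero_mul, mul_zero]
    | add X₁ X₂ h₁ h₂ => rw [add_mul, mul_add, map_add, map_add, h₁, h₂]
    | tmul l y =>
      rw [Algebra.TensorProduct.tmul_mul_tmul, Algebra.TensorProduct.tmul_mul_tmul, T_tmul, T_tmul, t_comm, mul_comm k l]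

theorem T_zK (z : KE F E) (X : KD F D) : T F E D (zK F E D z * X) = z * T F E D X := by
  induction z using TensorProduct.induction_on with
  | zero => rw [map_zero, zero_mul, zero_mul, map_zero]
  | add X₁ X₂ h₁ h₂ => rw [map_add, add_mul, add_mul, map_add, h₁, h₂]
  | tmul k x =>
    induction X using TensorProduct.induction_on with
    | zero => rw [mul_zero, map_zero, mul_zero]
    | add X₁ X₂ h₁ h₂ => rw [mul_add, map_add, map_add, mul_add, h₁, h₂]
    | tmul l y =>
      have h : zK F E D (k ⊗ₜ[F] x) = k ⊗ₜ[F] (eD F E D x) := by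
        rw [zK, Algebra.TensorProduct.map_tmul]
        rfl
      rw [h, Algebra.TensorProduct.tmul_mul_tmul, T_tmul, T_tmul, t_eD, Algebra.TensorProduct.tmul_mul_tmul]

end XQtr

open XQtr in
/-- Qtr. -/
theorem pr_Qtr : StQtr.{u} := by
  intro F _ N E D _ _ _ _ _ _ _ γ hγ g z h
  have h1 : (g : KD F D) * jK F γ * ((g⁻¹ : (KD F D)ˣ) : KD F D) = zK F E D (z : KE F E) * jK F γ := by
    rw [h, mul_assoc, Units.mul_inv, mul_one]
  have h2 : T F E D (jK F γ) = (z : KE F E) * T F E D (jK F γ) := by
    have h3 := congrArg (T F E D) h1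
    rw [T_comm, ← mul_assoc, Units.inv_mul, one_mul, T_zK] at h3
    exact h3
  have h4 : T F E D (jK F γ) * ((1 : AlgebraicClosure F) ⊗ₜ[F]
      (fun i => (t F E D (fun i => ((γ i : (D i)ˣ) : D i)) i)⁻¹)) = 1 := by
    rw [jK, T_tmul, Algebra.TensorProduct.tmul_mul_tmul, mul_one, Algebra.TensorProduct.one_def]
    congr 1
    funext i
    rw [Pi.mul_apply, Pi.one_apply]
    exact mul_inv_cancel₀ (hγ i)
  have h5 : (z : KE F E) = 1 := by
    calc (z : KE F E) = (z : KE F E) * (T F E D (jK F γ) * ((1 : AlgebraicClosure F) ⊗ₜ[F]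
          (fun i => (t F E D (fun i => ((γ i : (D i)ˣ) : D i)) i)⁻¹))) := by rw [h4, mul_one]
      _ = 1 := by rw [← mul_assoc, ← h2, h4]
  exact Units.ext h5

end Pool.Agent.Work.MP_481a91_al.SD
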