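import Pool.Agent.Work.MP_481a91_al.SD.StmtsQ

/-!
# MP_481a91_al, block SD, item Tgl: the factor `z` is rational
-/

set_option autoImplicit false

noncomputable section

namespace Pool.Agent.Work.MP_481a91_al.SD

open scoped TensorProduct BigOperators
open MeasureTheory

universe u

namespace XTgl

variable (F : Type u) [Field F] {N : ℕ} (E D : Fin N → Type u) [∀ i, Field (E i)]
  [∀ i, DivisionRing (D i)] [∀ i, Algebra F (E i)]
  [∀ i, Algebra (E i) (D i)] [∀ i, Algebra F (D i)] [∀ i, IsScalarTower F (E i) (D i)]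

/-- the action of the Galois group on `KD` -/
def s (σ : AlgebraicClosure F ≃ₐ[F] AlgebraicClosure F) : KD F D →ₐ[F] KD F D :=
  Algebra.TensorProduct.map (σ : AlgebraicClosure F →ₐ[F] AlgebraicClosure F)
    (AlgHom.id F (∀ i, D i))

theorem s_jK (σ : AlgebraicClosure F ≃ₐ[F] AlgebraicClosure F) (x : PU D) :
    s F D σ (jK F x) = jK F x := by
  unfold s jK
  rw [Algebra.TensorProduct.map_tmul, map_one]
  rfl

theorem s_zK (σ : AlgebraicClosure F ≃ₐ[F] AlgebraicClosure F) (z : KE F E) :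
    s F D σ (zK F E D z) = zK F E D (gal F E σ z) := by
  induction z using TensorProduct.induction_on with
  | zero => simp only [map_zero]
  | add x y hx hy => simp only [map_add, hx, hy]
  | tmul k e =>
    unfold s zK gal
    simp only [Algebra.TensorProduct.map_tmul]
    rfl

theorem zK_comm (z : KE F E) (X : KD F D) : zK F E D z * X = X * zK F E D z := by
  induction z using TensorProduct.induction_on with
  | zero => simp only [map_zero, zero_mul, mul_zero]
  | add x y hx hy => simp only [map_add, add_mul, mul_add, hx, hy]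
  | tmul k e =>
    induction X using TensorProduct.induction_on with
    | zero => simp only [zero_mul, mul_zero]
    | add x y hx hy => simp only [add_mul, mul_add, hx, hy]
    | tmul k' x =>
      unfold zK
      rw [Algebra.TensorProduct.map_tmul, Algebra.TensorProduct.tmul_mul_tmul,
        Algebra.TensorProduct.tmul_mul_tmul]
      have e1 : (AlgHom.id F (AlgebraicClosure F)) k * k' =
          k' * (AlgHom.id F (AlgebraicClosure F)) k := mul_comm _ _
      have e2 : eD F E D e * x = x * eD F E D e := by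
        funext i
        exact Algebra.commutes (e i) (x i)
      rw [e1, e2]

end XTgl

/-- item Tgl -/
theorem pr_Tgl (hGds : StGds.{u}) : StTgl.{u} := by
  intro F _ _ N E D _ _ _ _ _ _ Zk γ δ hGSt hZ g z hz hrel
  refine hGds F (∀ i, E i) (z : KE F E) fun σ => ?_
  obtain ⟨w, hw, hwz⟩ := hGSt σ z hz
  have h2 : (XTgl.s F D σ (g : KD F D)) * jK F γ =
      zK F E D (w : KE F E) * jK F δ * (XTgl.s F D σ (g : KD F D)) := by
    have h3 := congrArg (XTgl.s F D σ) hrel
    rw [map_mul, map_mul, map_mul, XTgl.s_jK, XTgl.s_jK, XTgl.s_zK, ← hwz] at h3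
    exact h3
  -- J G' = G' Z Dl
  have hG1 : ((g⁻¹ : (KD F D)ˣ) : KD F D) * (g : KD F D) = 1 := Units.inv_mul g
  have hG2 : (g : KD F D) * ((g⁻¹ : (KD F D)ˣ) : KD F D) = 1 := Units.mul_inv g
  have h4 : jK F γ * ((g⁻¹ : (KD F D)ˣ) : KD F D) =
      ((g⁻¹ : (KD F D)ˣ) : KD F D) * (zK F E D (z : KE F E) * jK F δ) := by
    calc jK F γ * ((g⁻¹ : (KD F D)ˣ) : KD F D)
        = (((g⁻¹ : (KD F D)ˣ) : KD F D) * (g : KD F D)) * jK F γ *
            ((g⁻¹ : (KD F D)ˣ) : KD F D) := by rw [hG1, one_mul]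
      _ = ((g⁻¹ : (KD F D)ˣ) : KD F D) * ((g : KD F D) * jK F γ) *
            ((g⁻¹ : (KD F D)ˣ) : KD F D) := by simp only [mul_assoc]
      _ = ((g⁻¹ : (KD F D)ˣ) : KD F D) * (zK F E D (z : KE F E) * jK F δ * g) *
            ((g⁻¹ : (KD F D)ˣ) : KD F D) := by rw [hrel]
      _ = ((g⁻¹ : (KD F D)ˣ) : KD F D) * (zK F E D (z : KE F E) * jK F δ) *
            ((g : KD F D) * ((g⁻¹ : (KD F D)ˣ) : KD F D)) := by simp only [mul_assoc]
      _ = _ := by rw [hG2, mul_one]
  have hzi : zK F E D ((z⁻¹ : (KE F E)ˣ) : KE F E) * zK F E D (z : KE F E) = 1 := by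
    rw [← map_mul, Units.inv_mul, map_one]
  have h5 : zK F E D ((z⁻¹ : (KE F E)ˣ) : KE F E) * (jK F γ * ((g⁻¹ : (KD F D)ˣ) : KD F D)) =
      ((g⁻¹ : (KD F D)ˣ) : KD F D) * jK F δ := by
    rw [h4, ← mul_assoc, XTgl.zK_comm F E D _ ((g⁻¹ : (KD F D)ˣ) : KD F D), mul_assoc,
      ← mul_assoc (zK F E D ((z⁻¹ : (KE F E)ˣ) : KE F E)), hzi, one_mul]
  have h6 := hZ (g⁻¹ * Units.map (XTgl.s F D σ : KD F D →* KD F D) g) (w * z⁻¹)
    (Zk.mul_mem hw (Zk.inv_mem hz)) (by
      rw [Units.val_mul, Units.coe_map, Units.val_mul, map_mul]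
      show ((g⁻¹ : (KD F D)ˣ) : KD F D) * XTgl.s F D σ (g : KD F D) * jK F γ =
        zK F E D (w : KE F E) * zK F E D ((z⁻¹ : (KE F E)ˣ) : KE F E) * jK F γ *
          (((g⁻¹ : (KD F D)ˣ) : KD F D) * XTgl.s F D σ (g : KD F D))
      calc ((g⁻¹ : (KD F D)ˣ) : KD F D) * XTgl.s F D σ (g : KD F D) * jK F γ
          = ((g⁻¹ : (KD F D)ˣ) : KD F D) * (XTgl.s F D σ (g : KD F D) * jK F γ) := by
            rw [mul_assoc]
        _ = ((g⁻¹ : (KD F D)ˣ) : KD F D) *
              (zK F E D (w : KE F E) * jK F δ * XTgl.s F D σ (g : KD F D)) := by rw [h2]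
        _ = (((g⁻¹ : (KD F D)ˣ) : KD F D) * zK F E D (w : KE F E)) * jK F δ *
              XTgl.s F D σ (g : KD F D) := by simp only [mul_assoc]
        _ = zK F E D (w : KE F E) * (((g⁻¹ : (KD F D)ˣ) : KD F D) * jK F δ) *
              XTgl.s F D σ (g : KD F D) := by
            rw [← XTgl.zK_comm F E D]
            simp only [mul_assoc]
        _ = zK F E D (w : KE F E) * (zK F E D ((z⁻¹ : (KE F E)ˣ) : KE F E) *
              (jK F γ * ((g⁻¹ : (KD F D)ˣ) : KD F D))) * XTgl.s F D σ (g : KD F D) := by rw [h5]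
        _ = _ := by simp only [mul_assoc])
  have h7 : w = z := by
    have h8 := mul_inv_eq_one.1 h6
    exact h8
  show gal F E σ (z : KE F E) = (z : KE F E)
  rw [← hwz, h7]

end Pool.Agent.Work.MP_481a91_al.SD
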