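import Pool.Agent.Work.MP_481a91_al.SD.StmtsQ

/-! Item Tsn of block SD, part Q: Skolem-Noether for products. -/

set_option autoImplicit false

namespace Pool.Agent.Work.MP_481a91_al.SD

open scoped TensorProduct

universe u

namespace XTsn

/-- Elements `1 ⊗ a` with `a` central commute with everything. -/
theorem cent {F K D : Type u} [Field F] [Field K] [Algebra F K] [Ring D] [Algebra F D] (a : D)
    (ha : ∀ b : D, a * b = b * a) (z : K ⊗[F] D) :
    z * ((1 : K) ⊗ₜ[F] a) = ((1 : K) ⊗ₜ[F] a) * z := by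
  induction z using TensorProduct.induction_on with
  | zero => simp
  | tmul k b => simp only [Algebra.TensorProduct.tmul_mul_tmul, mul_one, one_mul, ha b]
  | add u v hu hv => rw [add_mul, mul_add, hu, hv]

/-- The relation for polynomials. -/
theorem poly {F K E D : Type u} [Field F] [Field K] [Algebra F K] [Field E] [Ring D] [Algebra F D]
    [Algebra E D] (x y : D) (g : K ⊗[F] D)
    (h : g * ((1 : K) ⊗ₜ[F] x) = ((1 : K) ⊗ₜ[F] y) * g) (p : Polynomial E) :
    g * ((1 : K) ⊗ₜ[F] (Polynomial.aeval x p)) = ((1 : K) ⊗ₜ[F] (Polynomial.aeval y p)) * g := by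
  induction p using Polynomial.induction_on with
  | C a =>
    rw [Polynomial.aeval_C, Polynomial.aeval_C]
    exact cent _ (fun b => Algebra.commutes a b) g
  | add p q hp hq =>
    rw [map_add, map_add, TensorProduct.tmul_add, TensorProduct.tmul_add, mul_add, add_mul, hp, hq]
  | monomial n a hn =>
    have e1 : ∀ w : D, Polynomial.aeval w (Polynomial.C a * Polynomial.X ^ (n + 1)) =
        Polynomial.aeval w (Polynomial.C a * Polynomial.X ^ n) * w := by
      intro w
      rw [pow_succ, ← mul_assoc, map_mul (Polynomial.aeval w) (Polynomial.C a * Polynomial.X ^ n),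
        Polynomial.aeval_X]
    have e2 : ∀ v w : D, ((1 : K) ⊗ₜ[F] (v * w)) = ((1 : K) ⊗ₜ[F] v) * ((1 : K) ⊗ₜ[F] w) := by
      intro v w
      rw [Algebra.TensorProduct.tmul_mul_tmul, one_mul]
    rw [e1, e1, e2, e2, ← mul_assoc, hn, mul_assoc, h, mul_assoc]

/-- Equal minimal polynomials. -/
theorem mp {F K E D : Type u} [Field F] [Field K] [Algebra F K] [Field E] [DivisionRing D] [Algebra F D]
    [Algebra E D] [FiniteDimensional E D] (x y : D) (g : (K ⊗[F] D)ˣ)
    (h : (g : K ⊗[F] D) * ((1 : K) ⊗ₜ[F] x) = ((1 : K) ⊗ₜ[F] y) * g) :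
    minpoly E x = minpoly E y := by
  have inj : ∀ a : D, ((1 : K) ⊗ₜ[F] a) = 0 → a = 0 := by
    intro a ha
    have h1 : Function.Injective (Algebra.TensorProduct.includeRight : D →ₐ[F] K ⊗[F] D) :=
      Algebra.TensorProduct.includeRight_injective (algebraMap F K).injective
    apply h1
    rw [map_zero]
    exact ha
  have hx : IsIntegral E x := Algebra.IsIntegral.isIntegral x
  have hy : IsIntegral E y := Algebra.IsIntegral.isIntegral y
  apply Polynomial.eq_of_monic_of_associated (minpoly.monic hx) (minpoly.monic hy)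
  apply associated_of_dvd_dvd
  · apply minpoly.dvd
    apply inj
    have h2 := poly x y (g : K ⊗[F] D) h (minpoly E y)
    rw [minpoly.aeval, TensorProduct.tmul_zero, zero_mul] at h2
    exact (Units.mul_right_eq_zero g).1 h2
  · apply minpoly.dvd
    apply inj
    have h2 := poly x y (g : K ⊗[F] D) h (minpoly E x)
    rw [minpoly.aeval, TensorProduct.tmul_zero, mul_zero] at h2
    exact (Units.mul_left_eq_zero g).1 h2.symm

end XTsn

open XTsn in
theorem pr_Tsn (hSN : StSN.{u}) : StTsn.{u} := by
  intro F _ N E D _ _ _ _ _ _ _ _ x y g hg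
  have key : ∀ i, ∃ d : (D i)ˣ, (d : D i) * x i = y i * d := by
    intro i
    apply hSN (E i) (D i) (x i) (y i)
    let π : KD F D →ₐ[F] AlgebraicClosure F ⊗[F] D i :=
      Algebra.TensorProduct.map (AlgHom.id F (AlgebraicClosure F)) (Pi.evalAlgHom F D i)
    have hπ : ∀ w : ∀ i, D i, π ((1 : AlgebraicClosure F) ⊗ₜ[F] w) = (1 : AlgebraicClosure F) ⊗ₜ[F] (w i) := by
      intro w
      simp [π]
    have h1 := congrArg π hg
    rw [map_mul, map_mul, hπ, hπ] at h1
    let gi : (AlgebraicClosure F ⊗[F] D i)ˣ := Units.map π.toRingHom.toMonoidHom g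
    have h2 : (gi : AlgebraicClosure F ⊗[F] D i) = π g := rfl
    rw [← h2] at h1
    exact mp (F := F) (K := AlgebraicClosure F) (x i) (y i) gi h1
  choose d hd using key
  exact ⟨d, hd⟩

end Pool.Agent.Work.MP_481a91_al.SD
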