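import Pool.Agent.Work.MP_481a91_al.SD.GenQ
import Pool.Agent.Work.MP_481a91_al.SD.I_Aut
import Pool.Agent.Work.MP_481a91_al.SD.I_Ms
import Pool.Agent.Work.MP_481a91_al.SD.I_A0
import Pool.Agent.Work.MP_481a91_al.SD.I_Jac
import Pool.Agent.Work.MP_481a91_al.SD.I_SN
import Pool.Agent.Work.MP_481a91_al.SD.I_Ln
import Pool.Agent.Work.MP_481a91_al.SD.I_Pw
import Pool.Agent.Work.MP_481a91_al.SD.I_Nm
import Pool.Agent.Work.MP_481a91_al.SD.I_Rg
import Pool.Agent.Work.MP_481a91_al.SD.I_Ex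
import Pool.Agent.Work.MP_481a91_al.SD.I_Nc
import Pool.Agent.Work.MP_481a91_al.SD.I_Rt
import Pool.Agent.Work.MP_481a91_al.SD.I_Fi
import Pool.Agent.Work.MP_481a91_al.SD.I_Kp
import Pool.Agent.Work.MP_481a91_al.SD.I_Dn
import Pool.Agent.Work.MP_481a91_al.SD.I_Qun
import Pool.Agent.Work.MP_481a91_al.SD.I_Qag
import Pool.Agent.Work.MP_481a91_al.SD.I_Qcn
import Pool.Agent.Work.MP_481a91_al.SD.I_Q1
import Pool.Agent.Work.MP_481a91_al.SD.I_Q2
import Pool.Agent.Work.MP_481a91_al.SD.I_Emb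
import Pool.Agent.Work.MP_481a91_al.SD.I_Ixh
import Pool.Agent.Work.MP_481a91_al.SD.I_Hcp
import Pool.Agent.Work.MP_481a91_al.SD.I_Gds
import Pool.Agent.Work.MP_481a91_al.SD.I_Tgl
import Pool.Agent.Work.MP_481a91_al.SD.I_Tsn
import Pool.Agent.Work.MP_481a91_al.SD.I_Qtr
import Pool.Agent.Work.MP_481a91_al.SD.I_Dwt
import Pool.Agent.Work.MP_481a91_al.SD.I_Qds
import Pool.Agent.Work.MP_481a91_al.SD.I_Qcp

/-! # MP_481a91_al, block SD: the general theorem, part Q -/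

set_option autoImplicit false

noncomputable section

namespace Pool.Agent.Work.MP_481a91_al.SD

universe u

theorem finalQ : MainQD.{u} := by
  have hQtr : StQtr.{u} := pr_Qtr
  have hMs : StMs.{u} := pr_Ms
  have hA0 : StA0.{u} := pr_A0
  have hJac : StJac.{u} := pr_Jac
  have hLn : StLn.{u} := pr_Ln
  have hPw : StPw.{u} := pr_Pw
  have hNm : StNm.{u} := pr_Nm hLn hPw
  have hNc : StNc.{u} := pr_Nc
  have hRt : StRt.{u} := pr_Rt
  have hFi : StFi.{u} := pr_Fi hRt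
  have hKp : StKp.{u} := pr_Kp hNm hNc
  have hIxh : StIxh.{u} := pr_Ixh hNm hFi
  have hQag : StQag.{u} := pr_Qag pr_Qun
  have hDwt : StDwt.{u} := pr_Dwt hNm hNc hRt pr_Rg pr_Ex pr_Dn
  exact mainQD pr_Qcn pr_Aut hA0 (pr_Q1 hMs) (pr_Q2 hQag hA0) hIxh (pr_Hcp hKp hIxh) (pr_Tgl pr_Gds)
    (pr_Tsn (pr_SN hJac)) (pr_Qds hDwt pr_Emb hQtr) pr_Qcp

end Pool.Agent.Work.MP_481a91_al.SD
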