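import Pool.Agent.Work.MP_481a91_al.SD.Stmts
import Pool.Agent.Work.MP_481a91_al.SD.DefsP

/-! # MP_481a91_al, block SD: assembly for compact groups -/

set_option autoImplicit false

noncomputable section

namespace Pool.Agent.Work.MP_481a91_al.SD

open scoped TensorProduct BigOperators
open MeasureTheory

universe u

namespace XGen

theorem inv_iff {G : Type u} [Group G] [TopologicalSpace G] [IsTopologicalGroup G] (T : Dst G) :
    (∀ (g : G) (f : Tst G), T (tr g⁻¹ g f) = T f) ↔ ∀ g : G, AInv (MulAut.conj g : G → G) T := by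
  constructor
  · intro h g f k hk
    have h1 : k = tr g⁻¹⁻¹ g⁻¹ f := by
      apply Subtype.ext
      funext x
      rw [hk x]
      simp [tr, MulAut.conj_apply]
    rw [h1]
    exact h g⁻¹ f
  · intro h g f
    refine h g⁻¹ f _ fun x => ?_
    simp [tr, MulAut.conj_apply]

theorem gen (hCnv : StCnv.{u}) (hEss : StEss.{u}) (hAut : StAut.{u}) (hA0 : StA0.{u}) (hA1 : StA1.{u}) (hA2 : StA2.{u})
    (G : Type u) [Group G] [TopologicalSpace G] [IsTopologicalGroup G] [CompactSpace G] [T2Space G]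
    [MeasurableSpace G] [BorelSpace G] (μ : Measure G) [μ.IsHaarMeasure] (Γ : Type u) [Group Γ] (a : Γ →* MulAut G) (S : Set G)
    (st : G → G → Prop) (N : Finset Γ) (hc : ∀ d : Γ, Continuous (a d)) (hst : ∀ γ δ : G, st γ δ ↔ ∃ d : Γ, a d γ = δ)
    (hN : ∀ d : Γ, ∃ t ∈ N, ∃ g : G, ∀ x : G, a d x = g * a t x * g⁻¹) (hS : Dense S) :
    (∀ γ : G, ∃ R : Finset G, Sys st γ R) ∧ ZSt μ S st (dirac G) ∧
    (∀ T₁ T₂ : Dst G, ZSt μ S st T₁ → ZSt μ S st T₂ → ∃ T₃ : Dst G, Conv T₁ T₂ T₃ ∧ ZSt μ S st T₃) ∧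
    ∀ T : Dst G, BC T → (Stg μ S st T ↔ ∀ d : Γ, AInv (a d) T) := by
  have heq : ∀ T : Dst G, BC T → (Stg μ S st T ↔ ∀ d : Γ, AInv (a d) T) := by
    intro T hT
    constructor
    · intro h d
      exact hA1 G μ Γ a S st hc (fun γ _ δ => hst γ δ) T h d
    · intro h f hf
      exact hA2 G μ Γ a S st N hc (fun γ _ δ => hst γ δ) hN hS T hT.inv h f hf
  have hdir : BC (dirac G) := by
    refine ⟨fun g f => ?_, fun f => ⟨f, fun x => ?_⟩⟩
    · simp [dirac, tr]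
    · simp [dirac, tr, iv]
  refine ⟨fun γ => hA0 G Γ a N st γ hN (hst γ), ⟨hdir, (heq _ hdir).2 fun d f h hh => ?_⟩, ?_, heq⟩
  · show h.1 1 = f.1 1
    rw [hh 1, map_one]
  · intro T₁ T₂ h₁ h₂
    obtain ⟨T₃, h₃⟩ := hCnv G T₁ T₂
    have hb : BC T₃ := by
      refine ⟨(inv_iff T₃).2 fun g => ?_, hEss G T₃⟩
      exact hAut G (MulAut.conj g) T₁ T₂ T₃ h₃ ((inv_iff T₁).1 h₁.1.inv g) ((inv_iff T₂).1 h₂.1.inv g)
    refine ⟨T₃, h₃, hb, (heq T₃ hb).2 fun d => ?_⟩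
    exact hAut G (a d) T₁ T₂ T₃ h₃ ((heq T₁ h₁.1).1 h₁.2 d) ((heq T₂ h₂.1).1 h₂.2 d)

end XGen

end Pool.Agent.Work.MP_481a91_al.SD
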