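import Pool.Agent.Work.MP_481a91_al.SD.StmtsH
import Pool.Agent.Work.MP_481a91_al.SD.Gen

/-! # MP_481a91_al, block SD: assembly for part H -/

set_option autoImplicit false

noncomputable section

namespace Pool.Agent.Work.MP_481a91_al.SD

open scoped TensorProduct BigOperators
open MeasureTheory

universe u

namespace XGnh

theorem gen (hQcn : StQcn.{u}) (hAut : StAut.{u}) (hA0 : StA0.{u}) (hQ1 : StQ1.{u}) (hQ2 : StQ2.{u})
    (G : Type u) [Group G] [TopologicalSpace G] [IsTopologicalGroup G] [T2Space G]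
    [CompactSpace (G ⧸ Subgroup.center G)] [MeasurableSpace (G ⧸ Subgroup.center G)] [BorelSpace (G ⧸ Subgroup.center G)]
    (μ : Measure (G ⧸ Subgroup.center G)) [μ.IsHaarMeasure] (Γ : Type u) [Group Γ] (a : Γ →* MulAut G) (S : Set G)
    (st : G → G → Prop) (N : Finset Γ) (hc : ∀ d : Γ, Continuous (a d))
    (hst : ∀ γ ∈ S, ∀ δ : G, st γ δ ↔ ∃ d : Γ, a d γ = δ)
    (hN : ∀ d : Γ, ∃ t ∈ N, ∃ g : G, ∀ x : G, a d x = g * a t x * g⁻¹) (hS : Dense S) :
    (∀ γ ∈ S, ∃ R : Finset G, Sys st γ R) ∧ ZSq μ S st (dirac G) ∧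
    (∀ T₁ T₂ : Dst G, ZSq μ S st T₁ → ZSq μ S st T₂ → ∃ T₃ : Dst G, Conv T₁ T₂ T₃ ∧ ZSq μ S st T₃) ∧
    ∀ T : Dst G, BC T → (Stq μ S st T ↔ ∀ d : Γ, AInv (a d) T) := by
  have heq : ∀ T : Dst G, BC T → (Stq μ S st T ↔ ∀ d : Γ, AInv (a d) T) := by
    intro T hT
    constructor
    · intro h d
      exact hQ1 G μ Γ a S st hc hst T h d
    · intro h f hf
      exact hQ2 G μ Γ a S st N hc hst hN hS T hT.inv h f hf
  have hdir : BC (dirac G) := by
    refine ⟨fun g f => ?_, fun f => ⟨f, fun x => ?_⟩⟩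
    · simp [dirac, tr]
    · simp [dirac, tr, iv]
  refine ⟨fun γ hγ => hA0 G Γ a N st γ hN (hst γ hγ), ⟨hdir, (heq _ hdir).2 fun d f h hh => ?_⟩, ?_, heq⟩
  · show h.1 1 = f.1 1
    rw [hh 1, map_one]
  · intro T₁ T₂ h₁ h₂
    obtain ⟨T₃, h₃, he⟩ := hQcn G T₁ T₂ h₁.1 h₂.1
    have hb : BC T₃ := by
      refine ⟨(XGen.inv_iff T₃).2 fun g => ?_, he⟩
      exact hAut G (MulAut.conj g) T₁ T₂ T₃ h₃ ((XGen.inv_iff T₁).1 h₁.1.inv g) ((XGen.inv_iff T₂).1 h₂.1.inv g)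
    refine ⟨T₃, h₃, hb, (heq T₃ hb).2 fun d => ?_⟩
    exact hAut G (a d) T₁ T₂ T₃ h₃ ((heq T₁ h₁.1).1 h₁.2 d) ((heq T₂ h₂.1).1 h₂.2 d)

section prod

variable {N : ℕ} {F D : Fin N → Type u} [∀ i, Field (F i)] [∀ i, DivisionRing (D i)] [∀ i, Algebra (F i) (D i)] {n : Fin N → ℕ}
  (φ : ∀ i, AlgebraicClosure (F i) ⊗[F i] D i ≃ₐ[AlgebraicClosure (F i)] Matrix (Fin (n i)) (Fin (n i)) (AlgebraicClosure (F i)))

theorem mem_PS1 (x : PU D) : x ∈ PS1 φ ↔ ∀ i, nrd (φ i) (x i) = 1 := by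
  constructor
  · intro h i
    exact (MonoidHom.mem_ker).1 (h i (Set.mem_univ i))
  · intro h i _
    exact (MonoidHom.mem_ker).2 (h i)

theorem normal (H : Subgroup (PU D)) (hH : PS1 φ ≤ H) : H.Normal := by
  refine ⟨fun x hx d => ?_⟩
  have h : d * x * d⁻¹ * x⁻¹ ∈ PS1 φ := by
    rw [mem_PS1]
    intro i
    have h1 : (d * x * d⁻¹ * x⁻¹) i = d i * x i * (d i)⁻¹ * (x i)⁻¹ := rfl
    rw [h1]
    simp only [map_mul]
    have h2 : nrd (φ i) (d i) * nrd (φ i) (d i)⁻¹ = 1 := by rw [← map_mul, mul_inv_cancel, map_one]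
    have h3 : nrd (φ i) (x i) * nrd (φ i) (x i)⁻¹ = 1 := by rw [← map_mul, mul_inv_cancel, map_one]
    calc nrd (φ i) (d i) * nrd (φ i) (x i) * nrd (φ i) (d i)⁻¹ * nrd (φ i) (x i)⁻¹
        = (nrd (φ i) (d i) * nrd (φ i) (d i)⁻¹) * (nrd (φ i) (x i) * nrd (φ i) (x i)⁻¹) := by ring
      _ = 1 := by rw [h2, h3, mul_one]
  have h4 : d * x * d⁻¹ = (d * x * d⁻¹ * x⁻¹) * x := by group
  rw [h4]
  exact H.mul_mem (hH h) hx

theorem cont_conj [∀ i, TopologicalSpace (D i)] [∀ i, IsTopologicalRing (D i)] (H : Subgroup (PU D)) [H.Normal] (d : PU D) :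
    Continuous (MulAut.conjNormal d : H → H) := by
  refine continuous_induced_rng.2 ?_
  have h : (Subtype.val ∘ (MulAut.conjNormal d : H → H)) = fun x : H => d * (x : PU D) * d⁻¹ := by
    funext x
    simp [MulAut.conjNormal_apply]
  rw [h]
  exact (continuous_const.mul continuous_subtype_val).mul continuous_const

theorem cinv_iff [∀ i, TopologicalSpace (D i)] [∀ i, IsTopologicalRing (D i)] (H : Subgroup (PU D)) [H.Normal] (d : PU D)
    (T : Dst H) : CInv d T ↔ AInv (MulAut.conjNormal d : H → H) T := by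
  constructor
  · intro h f k hk
    refine h f k fun x y hy => ?_
    have h1 : MulAut.conjNormal d x = y := Subtype.ext (by rw [MulAut.conjNormal_apply, hy])
    rw [hk x, h1]
  · intro h f k hk
    refine h f k fun x => hk x _ ?_
    rw [MulAut.conjNormal_apply]

theorem stc_iff (hSN : StSN.{u}) (hDmp : StDmp.{u}) (hDcj : StDcj.{u}) [∀ i, FiniteDimensional (F i) (D i)]
    [∀ i, Algebra.IsCentral (F i) (D i)] (H : Subgroup (PU D)) [H.Normal] (γ δ : H) :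
    HStC φ H γ δ ↔ ∃ d : PU D, MulAut.conjNormal d γ = δ := by
  constructor
  · intro h
    choose g hg using h
    choose d hd using fun i => hSN (F i) (D i) _ _ (hDmp (F i) (D i) (n i) (φ i) _ _ (g i) (hg i))
    refine ⟨d, ?_⟩
    apply Subtype.ext
    rw [MulAut.conjNormal_apply]
    funext i
    have h2 : d i * (γ : PU D) i = (δ : PU D) i * d i := Units.ext (by simpa using hd i)
    show d i * (γ : PU D) i * (d i)⁻¹ = (δ : PU D) i
    rw [h2, mul_inv_cancel_right]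
  · rintro ⟨d, hd⟩ i
    have h1 : (δ : PU D) i = d i * (γ : PU D) i * (d i)⁻¹ := by
      rw [← hd, MulAut.conjNormal_apply]
      rfl
    refine hDcj (F i) (D i) (n i) (φ i) _ _ (d i) ?_
    have h2 : d i * (γ : PU D) i = (δ : PU D) i * d i := by rw [h1, inv_mul_cancel_right]
    simpa using congrArg (fun u : (D i)ˣ => (u : D i)) h2

end prod

end XGnh

theorem mainHD (hQcn : StQcn.{u}) (hAut : StAut.{u}) (hA0 : StA0.{u}) (hQ1 : StQ1.{u}) (hQ2 : StQ2.{u})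
    (hSN : StSN.{u}) (hDmp : StDmp.{u}) (hDcj : StDcj.{u}) (hIxh : StIxh.{u}) (hHds : StHds.{u}) (hHcp : StHcp.{u}) :
    MainHD.{u} := by
  intro N F D _ _ _ _ _ _ _ _ _ _ _ _ n φ H hcl hH _ _ μ _
  haveI : H.Normal := XGnh.normal φ H hH
  haveI hcp : CompactSpace (H ⧸ Subgroup.center H) := hHcp N F D n φ H hH
  choose M hM using fun i => hIxh (F i) (D i) (n i) (φ i)
  have hg := XGnh.gen hQcn hAut hA0 hQ1 hQ2 H μ (PU D) MulAut.conjNormal (HReg φ H) (HStC φ H) (Fintype.piFinset M)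
    (fun d => XGnh.cont_conj H d) (fun γ _ δ => XGnh.stc_iff φ hSN hDmp hDcj H γ δ)
    (fun d => by
      choose t ht g hg c hc0 hc using fun i => hM i (d i)
      have hgH : (g : PU D) ∈ H := hH ((XGnh.mem_PS1 φ _).2 hg)
      refine ⟨t, Fintype.mem_piFinset.2 ht, ⟨g, hgH⟩, fun x => ?_⟩
      apply Subtype.ext
      simp only [MulAut.conjNormal_apply, Subgroup.coe_mul, Subgroup.coe_inv]
      funext i
      apply Units.ext
      have h1 : ((d i : (D i)ˣ) : D i) = c i • ((g i : D i) * (t i : D i)) := hc i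
      have h2 : (((d i)⁻¹ : (D i)ˣ) : D i) = (c i)⁻¹ • ((((t i)⁻¹ : (D i)ˣ) : D i) * (((g i)⁻¹ : (D i)ˣ) : D i)) := by
        rw [Units.val_inv_eq_inv_val, h1, smul_inv₀, mul_inv_rev, Units.val_inv_eq_inv_val, Units.val_inv_eq_inv_val]
      show ((d i : (D i)ˣ) : D i) * ((x : PU D) i : D i) * (((d i)⁻¹ : (D i)ˣ) : D i) =
        (g i : D i) * ((t i : D i) * ((x : PU D) i : D i) * (((t i)⁻¹ : (D i)ˣ) : D i)) * (((g i)⁻¹ : (D i)ˣ) : D i)
      rw [h1, h2]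
      simp only [smul_mul_assoc, mul_smul_comm, smul_smul]
      rw [inv_mul_cancel₀ (hc0 i), one_smul]
      simp only [mul_assoc])
    (hHds N F D n φ H hH)
  refine ⟨hcp, hg.1, hg.2.1, hg.2.2.1, fun T hT => (hg.2.2.2 T hT).trans ?_⟩
  exact forall_congr' fun d => (XGnh.cinv_iff H d T).symm

end Pool.Agent.Work.MP_481a91_al.SD
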