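import Pool.Agent.Work.MP_481a91_al.SD.StmtsQ
import Pool.Agent.Work.MP_481a91_al.SD.GenH

/-! # MP_481a91_al, block SD: assembly for part Q -/

set_option autoImplicit false

noncomputable section

namespace Pool.Agent.Work.MP_481a91_al.SD

open scoped TensorProduct BigOperators
open MeasureTheory

universe u

namespace XGnq

section alg

variable (F : Type u) [Field F] {N : ℕ} {E D : Fin N → Type u} [∀ i, Field (E i)] [∀ i, DivisionRing (D i)] [∀ i, Algebra F (E i)]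
  [∀ i, Algebra (E i) (D i)] [∀ i, Algebra F (D i)] [∀ i, IsScalarTower F (E i) (D i)]

theorem zK_comm (z : KE F E) (x : KD F D) : zK F E D z * x = x * zK F E D z := by
  induction z using TensorProduct.induction_on with
  | zero => simp
  | add a b ha hb => rw [map_add, add_mul, mul_add, ha, hb]
  | tmul k e =>
    induction x using TensorProduct.induction_on with
    | zero => simp
    | add a b ha hb => rw [add_mul, mul_add, ha, hb]
    | tmul l y =>
      have h1 : zK F E D (k ⊗ₜ[F] e) = k ⊗ₜ[F] (eD F E D e) := by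
        simp [zK]
      rw [h1, Algebra.TensorProduct.tmul_mul_tmul, Algebra.TensorProduct.tmul_mul_tmul, mul_comm k l]
      congr 1
      funext i
      simp only [Pi.mul_apply, eD, AlgHom.pi_apply, AlgHom.comp_apply, IsScalarTower.coe_toAlgHom', Pi.evalAlgHom_apply]
      exact Algebra.commutes _ _

theorem one_tmul_inj (x y : ∀ i, D i) (h : (1 : AlgebraicClosure F) ⊗ₜ[F] x = (1 : AlgebraicClosure F) ⊗ₜ[F] y) : x = y := by
  have := Algebra.TensorProduct.includeRight_injective (R := F) (A := AlgebraicClosure F) (B := ∀ i, D i)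
    (algebraMap F (AlgebraicClosure F)).injective
  exact this (by simpa using h)

theorem jK_mul (x y : PU D) : jK F (x * y) = jK F x * jK F y := by
  simp only [jK, Algebra.TensorProduct.tmul_mul_tmul, one_mul]
  rfl

theorem jK_one : jK F (1 : PU D) = 1 := rfl

/-- the unit of `K ⊗ A` given by `d` -/
def jU (d : PU D) : (KD F D)ˣ where
  val := jK F d
  inv := jK F d⁻¹
  val_inv := by rw [← jK_mul, mul_inv_cancel, jK_one]
  inv_val := by rw [← jK_mul, inv_mul_cancel, jK_one]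

end alg

section quo

variable {N : ℕ} {D : Fin N → Type u} [∀ i, DivisionRing (D i)]

theorem map_eq (H : Subgroup (PU D)) [H.Normal] (Z₀ : Subgroup H)
    (hfix : ∀ (d : PU D) (z : H), z ∈ Z₀ → MulAut.conjNormal d z = z) (d : PU D) :
    Z₀.map ((MulAut.conjNormal d : H ≃* H) : H →* H) = Z₀ := by
  ext z
  constructor
  · rintro ⟨w, hw, rfl⟩
    have h := hfix d w hw
    show (MulAut.conjNormal d : H ≃* H) w ∈ Z₀
    rw [h]
    exact hw
  · intro hz
    exact ⟨z, hz, hfix d z hz⟩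

/-- the action on the quotient -/
def qa (H : Subgroup (PU D)) [H.Normal] (Z₀ : Subgroup H) [Z₀.Normal]
    (hfix : ∀ (d : PU D) (z : H), z ∈ Z₀ → MulAut.conjNormal d z = z) : PU D →* MulAut (H ⧸ Z₀) where
  toFun d := QuotientGroup.congr Z₀ Z₀ (MulAut.conjNormal d) (map_eq H Z₀ hfix d)
  map_one' := by
    ext q
    induction q using QuotientGroup.induction_on with
    | H x => simp [QuotientGroup.congr_mk]
  map_mul' a b := by
    ext q
    induction q using QuotientGroup.induction_on with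
    | H x => simp [QuotientGroup.congr_mk]

theorem qa_mk (H : Subgroup (PU D)) [H.Normal] (Z₀ : Subgroup H) [Z₀.Normal]
    (hfix : ∀ (d : PU D) (z : H), z ∈ Z₀ → MulAut.conjNormal d z = z) (d : PU D) (x : H) :
    qa H Z₀ hfix d (x : H ⧸ Z₀) = ((MulAut.conjNormal d x : H) : H ⧸ Z₀) := rfl

theorem qa_cont [∀ i, TopologicalSpace (D i)] [∀ i, IsTopologicalRing (D i)] (H : Subgroup (PU D)) [H.Normal] (Z₀ : Subgroup H)
    [Z₀.Normal] (hfix : ∀ (d : PU D) (z : H), z ∈ Z₀ → MulAut.conjNormal d z = z) (d : PU D) :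
    Continuous (qa H Z₀ hfix d) := by
  refine (QuotientGroup.isQuotientMap_mk (N := Z₀)).continuous_iff.2 ?_
  exact QuotientGroup.continuous_mk.comp (XGnh.cont_conj H d)

theorem qinv_iff [∀ i, TopologicalSpace (D i)] [∀ i, IsTopologicalRing (D i)] (H : Subgroup (PU D)) [H.Normal] (Z₀ : Subgroup H)
    [Z₀.Normal] (hfix : ∀ (d : PU D) (z : H), z ∈ Z₀ → MulAut.conjNormal d z = z) (d : PU D)
    (T : Dst (H ⧸ Z₀)) : QInv Z₀ d T ↔ AInv (qa H Z₀ hfix d : H ⧸ Z₀ → H ⧸ Z₀) T := by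
  constructor
  · intro h f k hk
    refine h f k fun x y hy => ?_
    have h1 : MulAut.conjNormal d x = y := Subtype.ext (by rw [MulAut.conjNormal_apply, hy])
    rw [hk x, qa_mk, h1]
  · intro h f k hk
    refine h f k fun q => ?_
    induction q using QuotientGroup.induction_on with
    | H x =>
      rw [qa_mk]
      exact hk x _ (by rw [MulAut.conjNormal_apply])

end quo

section main

variable (F : Type u) [Field F] [CharZero F] {N : ℕ} {E D : Fin N → Type u} [∀ i, Field (E i)] [∀ i, DivisionRing (D i)]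
  [∀ i, Algebra F (E i)] [∀ i, Algebra (E i) (D i)] [∀ i, Algebra F (D i)] [∀ i, IsScalarTower F (E i) (D i)] {n : Fin N → ℕ}
  (φ : ∀ i, AlgebraicClosure (E i) ⊗[E i] D i ≃ₐ[AlgebraicClosure (E i)] Matrix (Fin (n i)) (Fin (n i)) (AlgebraicClosure (E i)))

omit [CharZero F] in
theorem hfix (Zk : Subgroup (KE F E)ˣ) (H : Subgroup (PU D)) [H.Normal] (Z₀ : Subgroup H)
    (hZ : (Z₀ : Set H) = Zr F E D Zk H) (d : PU D) (z : H) (hz : z ∈ Z₀) : MulAut.conjNormal d z = z := by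
  have h1 : z ∈ Zr F E D Zk H := by rw [← hZ]; exact hz
  obtain ⟨w, _, hw⟩ := h1
  apply Subtype.ext
  rw [MulAut.conjNormal_apply]
  have h2 : jK F (d * (z : PU D)) = jK F ((z : PU D) * d) := by
    rw [jK_mul, jK_mul, hw, zK_comm]
  have h3 : d * (z : PU D) = (z : PU D) * d := by
    have h4 := one_tmul_inj F _ _ h2
    funext i
    exact Units.ext (congrFun h4 i)
  rw [h3, mul_inv_cancel_right]

theorem hst (hTgl : StTgl.{u}) (hTsn : StTsn.{u}) [∀ i, FiniteDimensional (E i) (D i)] [∀ i, Algebra.IsCentral (E i) (D i)]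
    (Zk : Subgroup (KE F E)ˣ) (H : Subgroup (PU D)) [H.Normal] (Z₀ : Subgroup H) [Z₀.Normal] (hG : GSt F E Zk)
    (hZ : (Z₀ : Set H) = Zr F E D Zk H) (q r : H ⧸ Z₀) (hq : q ∈ QReg F φ Zk H Z₀) :
    QStC F Zk H Z₀ q r ↔ ∃ d : PU D, qa H Z₀ (hfix F Zk H Z₀ hZ) d q = r := by
  obtain ⟨γ₀, hγ₀, _, hcond⟩ := hq
  constructor
  · rintro ⟨γ, δ, hγ, hδ, g, z, hz, hrel⟩
    -- γ = γ₀ ζ
    have h1 : γ₀⁻¹ * γ ∈ Z₀ := QuotientGroup.eq.1 (hγ₀.trans hγ.symm)
    have h2 : γ₀⁻¹ * γ ∈ Zr F E D Zk H := by rw [← hZ]; exact h1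
    obtain ⟨w, hw, hw'⟩ := h2
    have h3 : jK F (γ : PU D) = jK F (γ₀ : PU D) * zK F E D (w : KE F E) := by
      rw [← hw', ← jK_mul]
      congr 1
      simp
    have hwinv : zK F E D (w : KE F E) * zK F E D ((w⁻¹ : (KE F E)ˣ) : KE F E) = 1 := by
      rw [← map_mul, Units.mul_inv, map_one]
    have hrel' : (g : KD F D) * jK F (γ₀ : PU D) =
        zK F E D ((z * w⁻¹ : (KE F E)ˣ) : KE F E) * jK F (δ : PU D) * g := by
      have h4 : (g : KD F D) * jK F (γ₀ : PU D) =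
          (g : KD F D) * jK F (γ : PU D) * zK F E D ((w⁻¹ : (KE F E)ˣ) : KE F E) := by
        rw [h3, mul_assoc, mul_assoc, hwinv, mul_one]
      have h5 : (g : KD F D) * jK F (γ : PU D) = zK F E D (z : KE F E) * jK F (δ : PU D) * g := hrel
      rw [h4, h5, ← zK_comm F ((w⁻¹ : (KE F E)ˣ) : KE F E) (zK F E D (z : KE F E) * jK F (δ : PU D) * (g : KD F D)), Units.val_mul, map_mul,
        zK_comm F (z : KE F E) (zK F E D ((w⁻¹ : (KE F E)ˣ) : KE F E))]
      simp only [mul_assoc]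
    obtain ⟨e, he⟩ := hTgl F N E D Zk γ₀ δ hG hcond g (z * w⁻¹) (Zk.mul_mem hz (Zk.inv_mem hw)) hrel'
    have h5 : zK F E D ((z * w⁻¹ : (KE F E)ˣ) : KE F E) = (1 : AlgebraicClosure F) ⊗ₜ[F] (eD F E D e) := by
      rw [he]
      simp [zK]
    obtain ⟨d, hd⟩ := hTsn F N E D (fun i => (((γ₀ : PU D) i : (D i)ˣ) : D i))
      (eD F E D e * fun i => (((δ : PU D) i : (D i)ˣ) : D i)) g (by
        have h6 : (1 : AlgebraicClosure F) ⊗ₜ[F] (eD F E D e * fun i => (((δ : PU D) i : (D i)ˣ) : D i)) =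
            zK F E D ((z * w⁻¹ : (KE F E)ˣ) : KE F E) * jK F (δ : PU D) := by
          rw [h5, jK, Algebra.TensorProduct.tmul_mul_tmul, one_mul]
        rw [h6]
        exact hrel')
    -- ε = d γ₀ d⁻¹ δ⁻¹
    have h7 : ∀ i, (((d * (γ₀ : PU D) * d⁻¹ * (δ : PU D)⁻¹ : PU D) i : (D i)ˣ) : D i) = eD F E D e i := by
      intro i
      have h8 : (d i : D i) * (((γ₀ : PU D) i : (D i)ˣ) : D i) = eD F E D e i * (((δ : PU D) i : (D i)ˣ) : D i) * (d i : D i) := hd i
      show (d i : D i) * (((γ₀ : PU D) i : (D i)ˣ) : D i) * (((d i)⁻¹ : (D i)ˣ) : D i) * ((((δ : PU D) i)⁻¹ : (D i)ˣ) : D i) = _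
      rw [h8, mul_assoc (eD F E D e i * _), Units.mul_inv, mul_one, mul_assoc, Units.mul_inv, mul_one]
    refine ⟨d, ?_⟩
    rw [← hγ₀, qa_mk, ← hδ]
    refine (QuotientGroup.eq.2 ?_).symm
    have h9 : (MulAut.conjNormal d γ₀ * δ⁻¹ : H) ∈ Z₀ := by
      have : (MulAut.conjNormal d γ₀ * δ⁻¹ : H) ∈ Zr F E D Zk H := by
        refine ⟨z * w⁻¹, Zk.mul_mem hz (Zk.inv_mem hw), ?_⟩
        rw [h5]
        show jK F ((MulAut.conjNormal d γ₀ * δ⁻¹ : H) : PU D) = _
        unfold jK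
        congr 1
        funext i
        rw [← h7 i]
        simp [MulAut.conjNormal_apply]
      rw [← hZ] at this
      exact this
    have h10 : δ⁻¹ * MulAut.conjNormal d γ₀ = δ⁻¹ * (MulAut.conjNormal d γ₀ * δ⁻¹) * δ⁻¹⁻¹ := by group
    rw [h10]
    exact ‹Z₀.Normal›.conj_mem _ h9 δ⁻¹
  · rintro ⟨d, hd⟩
    refine ⟨γ₀, MulAut.conjNormal d γ₀, hγ₀, ?_, jU F d, 1, Zk.one_mem, ?_⟩
    · rw [← hd, ← hγ₀, qa_mk]
    · rw [Units.val_one, map_one, one_mul]
      show jK F d * jK F (γ₀ : PU D) = jK F ((MulAut.conjNormal d γ₀ : H) : PU D) * jK F d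
      rw [← jK_mul, ← jK_mul, MulAut.conjNormal_apply, inv_mul_cancel_right]

end main

end XGnq

theorem mainQD (hQcn : StQcn.{u}) (hAut : StAut.{u}) (hA0 : StA0.{u}) (hQ1 : StQ1.{u}) (hQ2 : StQ2.{u})
    (hIxh : StIxh.{u}) (hHcp : StHcp.{u}) (hTgl : StTgl.{u}) (hTsn : StTsn.{u}) (hQds : StQds.{u}) (hQcp : StQcp.{u}) :
    MainQD.{u} := by
  intro F _ _ _ _ N E D _ _ _ _ _ _ _ _ _ _ _ _ _ _ _ _ n φ H Zk Z₀ _ hcl hH hG hZ hcl0 _ _ μ _
  haveI : H.Normal := XGnh.normal φ H hH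
  haveI hcp : CompactSpace (H ⧸ Subgroup.center H) := hHcp N E D n φ H hH
  haveI hcp' : CompactSpace ((H ⧸ Z₀) ⧸ Subgroup.center (H ⧸ Z₀)) := hQcp H Z₀ hcp
  haveI : IsClosed (Z₀ : Set H) := hcl0
  choose M hM using fun i => hIxh (E i) (D i) (n i) (φ i)
  have hN : ∀ d : PU D, ∃ t ∈ Fintype.piFinset M, ∃ g : H, ∀ x : H,
      MulAut.conjNormal d x = g * MulAut.conjNormal t x * g⁻¹ := by
    intro d
    choose t ht g hg c hc0 hc using fun i => hM i (d i)
    have hgH : (g : PU D) ∈ H := hH ((XGnh.mem_PS1 φ _).2 hg)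
    refine ⟨t, Fintype.mem_piFinset.2 ht, ⟨g, hgH⟩, fun x => ?_⟩
    apply Subtype.ext
    simp only [MulAut.conjNormal_apply, Subgroup.coe_mul, Subgroup.coe_inv]
    funext i
    apply Units.ext
    have h1 : ((d i : (D i)ˣ) : D i) = c i • ((g i : D i) * (t i : D i)) := hc i
    have h2 : (((d i)⁻¹ : (D i)ˣ) : D i) = (c i)⁻¹ • ((((t i)⁻¹ : (D i)ˣ) : D i) * (((g i)⁻¹ : (D i)ˣ) : D i)) := by
      rw [Units.val_inv_eq_inv_val, h1, smul_inv₀, mul_inv_rev, Units.val_inv_eq_inv_val, Units.val_inv_eq_inv_val]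
    show ((d i : (D i)ˣ) : D i) * ((x : PU D) i : D i) * (((d i)⁻¹ : (D i)ˣ) : D i) =
      (g i : D i) * ((t i : D i) * ((x : PU D) i : D i) * (((t i)⁻¹ : (D i)ˣ) : D i)) * (((g i)⁻¹ : (D i)ˣ) : D i)
    rw [h1, h2]
    simp only [smul_mul_assoc, mul_smul_comm, smul_smul]
    rw [inv_mul_cancel₀ (hc0 i), one_smul]
    simp only [mul_assoc]
  have hg := XGnh.gen hQcn hAut hA0 hQ1 hQ2 (H ⧸ Z₀) μ (PU D) (XGnq.qa H Z₀ (XGnq.hfix F Zk H Z₀ hZ)) (QReg F φ Zk H Z₀)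
    (QStC F Zk H Z₀) (Fintype.piFinset M) (fun d => XGnq.qa_cont H Z₀ _ d)
    (fun q hq r => XGnq.hst F φ hTgl hTsn Zk H Z₀ hG hZ q r hq)
    (fun d => by
      obtain ⟨t, ht, g, hgg⟩ := hN d
      refine ⟨t, ht, (g : H ⧸ Z₀), fun q => ?_⟩
      induction q using QuotientGroup.induction_on with
      | H x => rw [XGnq.qa_mk, XGnq.qa_mk, hgg x]; rfl)
    (hQds F N E D n φ H Zk Z₀ hH)
  refine ⟨hcp', hg.1, hg.2.1, hg.2.2.1, fun T hT => (hg.2.2.2 T hT).trans ?_⟩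
  exact forall_congr' fun d => (XGnq.qinv_iff H Z₀ _ d T).symm

end Pool.Agent.Work.MP_481a91_al.SD
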