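import Pool.Agent.Work.MP_481a91_al.SD.Stmts

/-!
# MP_481a91_al, block SD, item Asm
-/

set_option autoImplicit false

noncomputable section

namespace Pool.Agent.Work.MP_481a91_al.SD

open scoped TensorProduct BigOperators
open MeasureTheory

universe u

namespace XAsm

section gen

variable {G : Type u} [Group G] [TopologicalSpace G] [IsTopologicalGroup G]

theorem bc_dirac : BC (dirac G) := by
  refine ⟨fun g f => ?_, fun f => ⟨f, fun x => ?_⟩⟩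
  · change f.1 (g⁻¹ * 1 * g) = f.1 1
    rw [mul_one, inv_mul_cancel]
  · change f.1 x = f.1 (1 * 1⁻¹ * x)
    rw [inv_one, mul_one, one_mul]

theorem ainv_conj (T : Dst G) (hT : ∀ (g : G) (f : Tst G), T (tr g⁻¹ g f) = T f) (g : G) :
    AInv (MulAut.conj g⁻¹ : G ≃* G) T := by
  intro f h hfh
  have e : h = tr g⁻¹ g f := by
    apply Subtype.ext
    funext x
    rw [hfh x]
    change f.1 (MulAut.conj g⁻¹ x) = f.1 (g⁻¹ * x * g)
    rw [MulAut.conj_apply, inv_inv]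
  rw [e, hT]

theorem inv_of_ainv (T : Dst G) (g : G) (hT : AInv (MulAut.conj g⁻¹ : G ≃* G) T) (f : Tst G) :
    T (tr g⁻¹ g f) = T f := by
  apply hT
  intro x
  change f.1 (g⁻¹ * x * g) = f.1 (MulAut.conj g⁻¹ x)
  rw [MulAut.conj_apply, inv_inv]

end gen

end XAsm

open XAsm in
/-- Item Asm. -/
theorem pr_Asm (hUni : StUni.{u}) (hAvg : StAvg.{u}) (hCnv : StCnv.{u}) (hEss : StEss.{u})
    (hAut : StAut.{u}) (hMs : StMs.{u}) (hA0 : StA0.{u}) (hA1 : StA1.{u}) (hA2 : StA2.{u})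
    (hSN : StSN.{u}) (hMp : StMp.{u}) (hCj : StCj.{u}) (hKp : StKp.{u}) (hDs : StDs.{u})
    (hIx : StIx.{u}) : StAsm.{u} := by
  intro F D _ _ _ _ _ _ _ _ _ _ _ _ n φ _ _ μ _
  haveI hK : CompactSpace (SL1 φ) := hKp F D n φ
  have ha : ∀ d : Dˣ, Continuous (MulAut.conjNormal d : SL1 φ → SL1 φ) := by
    intro d
    have h : Continuous fun x : SL1 φ => d * (x : Dˣ) * d⁻¹ := by fun_prop
    exact Continuous.subtype_mk h _
  have hst : ∀ γ δ : SL1 φ, StC φ γ δ ↔ ∃ d : Dˣ, MulAut.conjNormal d γ = δ := by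
    intro γ δ
    constructor
    · intro h
      obtain ⟨d, hd⟩ := hSN F D _ _ (hMp F D n φ γ δ h)
      refine ⟨d, ?_⟩
      apply Subtype.ext
      rw [MulAut.conjNormal_apply]
      have h2 : d * (γ : Dˣ) = (δ : Dˣ) * d := by
        apply Units.ext
        push_cast
        exact hd
      rw [h2, mul_assoc, mul_inv_cancel, mul_one]
    · rintro ⟨d, hd⟩
      exact hCj F D n φ γ δ d hd
  obtain ⟨N, hN⟩ := hIx F D n φ
  have hsys : ∀ γ : SL1 φ, ∃ R : Finset (SL1 φ), Sys (StC φ) γ R := fun γ =>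
    hA0 (SL1 φ) Dˣ MulAut.conjNormal N (StC φ) γ hN (hst γ)
  have hD : Dense (SReg φ) := hDs F D n φ
  have h1 : ∀ T : Dst (SL1 φ), Stb φ μ T → ∀ d : Dˣ, AInv (MulAut.conjNormal d : SL1 φ → SL1 φ) T :=
    fun T hT d => hA1 (SL1 φ) μ Dˣ MulAut.conjNormal (SReg φ) (StC φ) ha (fun γ _ δ => hst γ δ) T hT d
  have h2 : ∀ T : Dst (SL1 φ), BC T →
      (∀ d : Dˣ, AInv (MulAut.conjNormal d : SL1 φ → SL1 φ) T) → Stb φ μ T :=
    fun T hT h f hf => hA2 (SL1 φ) μ Dˣ MulAut.conjNormal (SReg φ) (StC φ) N ha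
      (fun γ _ δ => hst γ δ) hN hD T hT.inv h f hf
  refine ⟨hK, hsys, ⟨bc_dirac, h2 _ bc_dirac ?_⟩, ?_, fun T hT => ⟨h1 T, h2 T hT⟩⟩
  · intro d f h hfh
    change h.1 1 = f.1 1
    rw [hfh 1, map_one]
  · intro T₁ T₂ b1 b2 s1 s2
    obtain ⟨T₃, h3⟩ := hCnv (SL1 φ) T₁ T₂
    have b3 : BC T₃ := ⟨fun g f => inv_of_ainv T₃ g (hAut (SL1 φ) (MulAut.conj g⁻¹) T₁ T₂ T₃ h3
      (ainv_conj T₁ b1.inv g) (ainv_conj T₂ b2.inv g)) f, hEss (SL1 φ) T₃⟩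
    exact ⟨T₃, h3, b3, h2 T₃ b3 fun d => hAut (SL1 φ) (MulAut.conjNormal d) T₁ T₂ T₃ h3
      (h1 T₁ s1 d) (h1 T₂ s2 d)⟩

end Pool.Agent.Work.MP_481a91_al.SD
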