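import Pool.Agent.Work.MP_481a91_al.SD.Defs

/-!
# MP_481a91_al, block SD: statements of the items, with complete proofs in the docstrings

Part 1: compact groups.  Part 2: algebra of `D`.  Part 3: topology of `D`.  `K` is the algebraic closure of `F`.
-/

set_option autoImplicit false

noncomputable section

namespace Pool.Agent.Work.MP_481a91_al.SD

open scoped TensorProduct BigOperators
open MeasureTheory

universe u

/-! ## Part 1: compact groups -/

/-- Uni (EASY-MEDIUM; no hypotheses).  A locally constant function `f` on a compact group is invariant under an open normal subgroup.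
PROOF.  `V = {v : f (x v y) = f (x y) for all x, y}` is a subgroup, normal, since `x (g v g⁻¹) y = (x g) v (g⁻¹ y)`.  Open: it is enough
that `V` contains a neighbourhood of `1`.  The set of all `(x, y, v)` with `f (x v y) = f (x y)` is open in `G × G × G` (`f` is locally
constant) and contains `G × G × {1}`; `G × G` is compact, tube lemma (`generalized_tube_lemma` or
`IsCompact.eventually_forall_of_forall_eventually`). -/
def StUni : Prop := ∀ (G : Type u) [Group G] [TopologicalSpace G] [IsTopologicalGroup G] [CompactSpace G] (f : Tst G),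
  ∃ V : Subgroup G, V.Normal ∧ IsOpen (V : Set G) ∧ ∀ v ∈ V, ∀ x y : G, f.1 (x * v * y) = f.1 (x * y)

/-- Avg (MEDIUM; hypothesis hUni).  Averaging over conjugation.
PROOF.  `V` as in Uni: `f (g v x v⁻¹ g⁻¹) = f (g x g⁻¹)` for `v` in `V` (use the property twice; write `g v x v⁻¹ g⁻¹ = (g) v (x v⁻¹ g⁻¹)`
and `= (g x) v⁻¹ (g⁻¹)` afterwards).  So `g ↦ f (g x g⁻¹)` is constant on the left cosets of `V`; the quotient `G ⧸ V` is finite (`V`
is open, `G` compact), and all cosets have measure `μ V`.  Hence the integral is `c * ∑ over q : G ⧸ V of f (q.out x q.out⁻¹)`,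
`c = (μ V).toReal`, and `h = c • ∑_q tr q.out q.out⁻¹ f`.  Every term has `T (tr q.out q.out⁻¹ f) = T f` (take `g = q.out⁻¹`), and
`c * card (G ⧸ V) = (μ univ).toReal`.  (Alternatively: integrate the finite valued function `g ↦ (class of g)`; or prove the two
formulas for the integral by `integral` of a function constant on the members of a finite open partition.) -/
def StAvg : Prop := ∀ (G : Type u) [Group G] [TopologicalSpace G] [IsTopologicalGroup G] [CompactSpace G] [MeasurableSpace G]
  [BorelSpace G] (μ : Measure G) [μ.IsHaarMeasure] (f : Tst G), ∃ h : Tst G, (∀ x : G, h.1 x = ∫ g, f.1 (g * x * g⁻¹) ∂μ) ∧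
    ∀ T : Dst G, (∀ (g : G) (f : Tst G), T (tr g⁻¹ g f) = T f) → T h = ((μ Set.univ).toReal : ℂ) * T f

/-- Cnv (EASY-MEDIUM; hypothesis hUni).  On a compact group any two distributions have a convolution.
PROOF.  For `f` put `h_f x = T₂ (tr x 1 f)`.  By Uni (`V` for `f`) `tr (x v) 1 f = tr x 1 f` for `v` in `V`: `f (x v y) = f (x y)`.  So `h_f`
is constant on the open sets `x V`: locally constant; the support is closed in a compact space.  `T₃ f = T₁ h_f` is linear in `f`. -/
def StCnv : Prop := ∀ (G : Type u) [Group G] [TopologicalSpace G] [IsTopologicalGroup G] [CompactSpace G] (T₁ T₂ : Dst G),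
  ∃ T₃ : Dst G, Conv T₁ T₂ T₃

/-- Ess (EASY; hypothesis hUni).  On a compact group every distribution is essentially compact.
PROOF.  As in Cnv: `iv (tr 1 (x v) f) = iv (tr 1 x f)` for `v` in `V`, as `f (y⁻¹ x v) = f (y⁻¹ x v 1) = f (y⁻¹ x)`. -/
def StEss : Prop := ∀ (G : Type u) [Group G] [TopologicalSpace G] [IsTopologicalGroup G] [CompactSpace G] (T : Dst G) (f : Tst G),
  ∃ h : Tst G, ∀ x : G, h.1 x = T (iv (tr 1 x f))

/-- Aut (EASY; no hypotheses).  The convolution of invariant distributions is invariant.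
PROOF.  Let `h x = f (α x)`; take `H_f`, `H_h` from `Conv T₁ T₂ T₃`.  `H_h x = T₂ (tr x 1 h)`, and `(tr x 1 h) y = h (x y) = f (α x * α y) =
(tr (α x) 1 f) (α y)`, so `H_h x = T₂ (tr (α x) 1 f) = H_f (α x)` (`AInv α T₂`).  `AInv α T₁` gives `T₁ H_h = T₁ H_f`. -/
def StAut : Prop := ∀ (G : Type u) [Group G] [TopologicalSpace G] [IsTopologicalGroup G] (α : G ≃* G) (T₁ T₂ T₃ : Dst G),
  Conv T₁ T₂ T₃ → AInv α T₁ → AInv α T₂ → AInv α T₃

/-- Ms (EASY-MEDIUM; no hypotheses).  A continuous automorphism of a compact group preserves the Haar measure.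
PROOF.  `μ.map α` is a Haar measure (Mathlib: `MulEquiv.isHaarMeasure_map` or `ContinuousMulEquiv.isHaarMeasure_map`; the inverse of a
continuous bijection of compact Hausdorff spaces is continuous), so `μ.map α = c • μ` (uniqueness), and both have the same total
mass, finite and not zero, so `c = 1`.  (Mathlib may have it: `MeasureTheory.Measure` ... `map_eq_self` for compact groups.) -/
def StMs : Prop := ∀ (G : Type u) [Group G] [TopologicalSpace G] [IsTopologicalGroup G] [CompactSpace G] [T2Space G]
  [MeasurableSpace G] [BorelSpace G] (μ : Measure G) [μ.IsHaarMeasure] (α : G ≃* G), Continuous α → μ.map α = μ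

/-- A0 (EASY; no hypotheses).  Finite systems of representatives exist.
PROOF.  By `hN` every `δ = a d γ` of the orbit is conjugate to some `a t γ`, `t` in `N`.  The finite set `{a t γ : t ∈ N}` with the
setoid `IsConj` has a subset `R` which contains exactly one element of every class which meets it (choose one element for every class
in the finite image under `ConjClasses.mk`).  All elements of `R` are in the orbit. -/
def StA0 : Prop := ∀ (G : Type u) [Group G] (Γ : Type u) [Group Γ] (a : Γ →* MulAut G) (N : Finset Γ) (st : G → G → Prop) (γ : G),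
  (∀ d : Γ, ∃ t ∈ N, ∃ g : G, ∀ x : G, a d x = g * a t x * g⁻¹) → (∀ δ : G, st γ δ ↔ ∃ d : Γ, a d γ = δ) →
  ∃ R : Finset G, Sys st γ R

/-- A1 (MEDIUM; hypotheses hAvg hMs).  Stable distributions are invariant under `Γ`.
PROOF.  Let `h x = f (a d x)`.  It is enough that `f - h` is unstable (`T h = T f - T (f - h)`).  Let `γ ∈ S`, `R` a system.  Put `A x = ∫ f (g x
g⁻¹)` (a class function: `A (k x k⁻¹) = A x`, substitution `g ↦ g k`, the Haar measure of a compact group is right invariant).  By
Ms for `a d`: `∫ h (g ρ g⁻¹) = ∫ f (a d g * a d ρ * (a d g)⁻¹) = A (a d ρ)`.  So the sum for `f - h` is `∑_ρ A ρ - ∑_ρ A (a d ρ)` (the integrals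
exist: bounded continuous functions, compact).  For `ρ ∈ R` the element `a d ρ` is in the orbit of `γ`, so it is
conjugate to exactly one `ρ' = s ρ ∈ R`; `s : R → R` is injective (`a d ρ₁`, `a d ρ₂` conjugate gives `ρ₁`, `ρ₂` conjugate, apply `(a d)⁻¹`, then
`ρ₁ = ρ₂` by uniqueness), hence bijective (finite), and `A (a d ρ) = A (s ρ)`: the two sums are equal. -/
def StA1 : Prop := ∀ (G : Type u) [Group G] [TopologicalSpace G] [IsTopologicalGroup G] [CompactSpace G] [T2Space G]
  [MeasurableSpace G] [BorelSpace G] (μ : Measure G) [μ.IsHaarMeasure] (Γ : Type u) [Group Γ] (a : Γ →* MulAut G) (S : Set G)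
  (st : G → G → Prop), (∀ d : Γ, Continuous (a d)) → (∀ γ ∈ S, ∀ δ : G, st γ δ ↔ ∃ d : Γ, a d γ = δ) →
  ∀ T : Dst G, (∀ f : Tst G, Unst μ S st f → T f = 0) → ∀ d : Γ, AInv (a d) T

/-- A2 (MEDIUM; hypotheses hAvg hA0 hMs).  `Γ`-invariant distributions are stable.
PROOF.  Let `f` be unstable, `A = h` of Avg for `f` (class function, as in A1: `A (k x k⁻¹) = A x`).  `H = {d : exists g, a d = conjugation by
g}` is a normal subgroup of `Γ`, of finite index (`hN`: every `d` lies in `H t`, `t ∈ N`: `a (d t⁻¹) = conjugation by g`).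
`B x = ∑ over c : Γ ⧸ H of A (a c.out x)`.  For every `d` in the class `c`: `A (a d x) = A (a c.out x)` (`d = c.out k`, `a k` is conjugation by some `g`,
so `a d x = (a c.out g) (a c.out x) (a c.out g)⁻¹`).  Hence `B (a e x) = B x` (`c ↦ c e` permutes `Γ ⧸ H`, `H` is normal).  `B` is in `Tst G`
(sum of the functions `A ∘ a c.out`, `a c.out` is continuous).  Let `γ ∈ S` and `R` a system (A0).  For every `t`: `{a t ρ : ρ ∈ R}` is a system
for `γ` too, so (Unst) `∑_ρ A (a t ρ) = 0`; hence `∑_ρ B ρ = 0`.  But `ρ = a d γ`, so `B ρ = B γ`: `card R * B γ = 0`, and `R` is not empty (`γ = a 1 γ`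
is conjugate to some element of `R`).  So `B = 0` on the dense set `S`; `B` is locally constant, so `B = 0`.  Finally `0 = T B = ∑_c T (A ∘ a
c.out) = card (Γ ⧸ H) * T A = card (Γ ⧸ H) * (μ univ).toReal * T f`, and the first two factors are not zero. -/
def StA2 : Prop := ∀ (G : Type u) [Group G] [TopologicalSpace G] [IsTopologicalGroup G] [CompactSpace G] [T2Space G]
  [MeasurableSpace G] [BorelSpace G] (μ : Measure G) [μ.IsHaarMeasure] (Γ : Type u) [Group Γ] (a : Γ →* MulAut G) (S : Set G)
  (st : G → G → Prop) (N : Finset Γ), (∀ d : Γ, Continuous (a d)) → (∀ γ ∈ S, ∀ δ : G, st γ δ ↔ ∃ d : Γ, a d γ = δ) →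
  (∀ d : Γ, ∃ t ∈ N, ∃ g : G, ∀ x : G, a d x = g * a t x * g⁻¹) → Dense S →
  ∀ T : Dst G, (∀ (g : G) (f : Tst G), T (tr g⁻¹ g f) = T f) → (∀ d : Γ, AInv (a d) T) →
  ∀ f : Tst G, Unst μ S st f → T f = 0

/-! ## Part 2: algebra -/

/-- Jac (EASY-MEDIUM; no hypotheses).
PROOF.  Strong induction on the number `s` of `i` with `a i ≠ 0`.  Suppose `a j ≠ 0`.  Multiply from the left by `(a j)⁻¹`: we may assume `a j = 1`.
For `d : D`: replace `c` by `d c`, and multiply the relation from the left by `d`; the difference is `∑ (a i d - d a i) c b i = 0`, with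
coefficient `0` at `j` and at all `i` with `a i = 0`: by induction `a i d = d a i` for all `i` and `d`.  So all `a i` are in the centre, `a i =
algebraMap (t i)` (`Algebra.IsCentral.out`), and `c = 1` gives `∑ t i • b i = 0`: `t j = 0` by independence, a contradiction. -/
def StJac : Prop := ∀ (F D : Type u) [Field F] [DivisionRing D] [Algebra F D] [Algebra.IsCentral F D] (m : ℕ) (a b : Fin m → D),
  LinearIndependent F b → (∀ c : D, ∑ i, a i * c * b i = 0) → ∀ i, a i = 0

/-- SN (MEDIUM; hypothesis hJac).  Skolem-Noether for elements.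
PROOF.  `p = minpoly F x = minpoly F y`, monic of degree `m ≥ 1`, `p = ∑_k p_k X^k`.  For `a : D` put `b = ∑_{k ≤ m} p_k ∑_{i + j = k - 1} y^i a x^j =
∑_{j < m} r_j a x^j`, `r_j = ∑_{k > j} p_k y^(k-1-j)`.  Then `y b - b x = p(y) a - a p(x) = 0` (telescoping: `y * ∑_{i+j=k-1} y^i a x^j -
(∑_{i+j=k-1} y^i a x^j) * x = y^k a - a x^k`).  `1, x, ..., x^(m-1)` are linearly independent over `F` (`m` is the degree of the minimal
polynomial) and `r_(m-1) = p_m = 1 ≠ 0`: by Jac there is `a` with `b ≠ 0`.  Then `y b = b x`, and `b` is a unit of the division algebra. -/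
def StSN : Prop := ∀ (F D : Type u) [Field F] [DivisionRing D] [Algebra F D] [FiniteDimensional F D] [Algebra.IsCentral F D]
  (x y : D), minpoly F x = minpoly F y → ∃ d : Dˣ, (d : D) * x = y * d

/-- Mp (EASY; no hypotheses).  Stably conjugate elements have the same minimal polynomial.
PROOF.  `mat φ` is injective (`x ↦ 1 ⊗ x` is injective, `φ` is bijective; or: `D` is a division ring and `M_n(K)` is not the zero ring).
So `minpoly F x = minpoly F (mat φ x)` (`minpoly.algHom_eq`), and conjugate elements of `M_n(K)` have the same minimal polynomial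
(`minpoly.algEquiv_eq`, conjugation by `g`; or: the same polynomials vanish). -/
def StMp : Prop := ∀ (F D : Type u) [Field F] [DivisionRing D] [Algebra F D] (n : ℕ)
  (φ : AlgebraicClosure F ⊗[F] D ≃ₐ[AlgebraicClosure F] Matrix (Fin n) (Fin n) (AlgebraicClosure F)) (γ δ : SL1 φ),
  StC φ γ δ → minpoly F ((γ : Dˣ) : D) = minpoly F ((δ : Dˣ) : D)

/-- Cj (EASY; no hypotheses).  Elements conjugate under the multiplicative group of `D` are stably conjugate.
PROOF.  `d γ d⁻¹ = δ`.  `g₀ = mat φ d` has `det g₀ ≠ 0` (`d` is a unit) and `g₀ * mat φ γ = mat φ δ * g₀`.  If `n = 0` take `g = 1`.  If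
`n ≥ 1` choose `c` in `K` with `c^n = det g₀` (`IsAlgClosed.exists_pow_nat_eq`), `c ≠ 0`, `g = c⁻¹ • g₀` has determinant `c^(-n) det g₀ = 1`. -/
def StCj : Prop := ∀ (F D : Type u) [Field F] [DivisionRing D] [Algebra F D] (n : ℕ)
  (φ : AlgebraicClosure F ⊗[F] D ≃ₐ[AlgebraicClosure F] Matrix (Fin n) (Fin n) (AlgebraicClosure F)) (γ δ : SL1 φ) (d : Dˣ),
  MulAut.conjNormal d γ = δ → StC φ γ δ

/-- Ln (EASY-MEDIUM; no hypotheses).  The norm of the algebra `M_n(K)` is the `n`-th power of the determinant.
PROOF.  `Algebra.norm K A` is the determinant of `B ↦ A B`.  `M_n(K)` is the product of `n` columns, each is mapped to itself by `A`: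
in the basis `Matrix.stdBasis` (indexed by pairs) the matrix is `A ⊗ 1` (Kronecker product, `Matrix.det_kronecker`), or use
`LinearMap.det_pi`, or a block diagonal matrix (`Matrix.det_blockDiagonal`). -/
def StLn : Prop := ∀ (K : Type u) [Field K] (n : ℕ) (A : Matrix (Fin n) (Fin n) K), Algebra.norm K A = A.det ^ n

/-- Pw (EASY-MEDIUM; no hypotheses).
PROOF.  `K/F` is Galois (characteristic zero).  For `σ` in `K ≃ₐ[F] K`: `σ P` (`P.map σ`) is monic and `(σ P)^n = σ (P^n) = Q = P^n`.  In the factorial ring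
`K[X]` this gives `σ P ∣ P` and `P ∣ σ P` (`pow_dvd_pow_iff`), and both are monic: `σ P = P`.  So all coefficients of `P` are fixed by
all `σ`, hence in `F` (`IsGalois.mem_bot_iff_fixed` or `InfiniteGalois`/`IsGalois.tfae`...). Then `P` is in the range of `Polynomial.map`
(`Polynomial.mem_lifts`).  (Another proof: the coefficients of `P` are determined by those of `P^n` recursively, division by `n`.) -/
def StPw : Prop := ∀ (F : Type u) [Field F] [CharZero F] (n : ℕ) (P : Polynomial (AlgebraicClosure F)) (Q : Polynomial F), 1 ≤ n →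
  P.Monic → P ^ n = Q.map (algebraMap F (AlgebraicClosure F)) → ∃ P₀ : Polynomial F, P = P₀.map (algebraMap F (AlgebraicClosure F))

/-- Nm (MEDIUM; hypotheses hLn hPw).  The reduced norm has values in `F`.
PROOF.  `n ≥ 1`, as `M_0(K)` is the zero ring and `K ⊗ D` is not.  Fix `x`; `P = charpoly (mat φ (-x)) ∈ K[X]`, `Q = ` the characteristic polynomial of
`y ↦ -x y` on `D` over `F` (`LinearMap.charpoly`).  For `t ∈ F`: `P(t) = det (t + mat φ x) = det (mat φ (t + x))`, `P(t)^n = norm of mat φ (t + x) over
K` (Ln) `= norm of 1 ⊗ (t + x) in K ⊗ D over K` (`Algebra.norm_eq_of_algEquiv`) `= algebraMap (norm of t + x over F)` (base change: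
`LinearMap.det_baseChange`, or `Algebra.norm` of the tensor product; the matrix of the multiplication in the basis `1 ⊗ b_i`) `=
algebraMap (Q(t))`.  So `P^n` and `Q` agree at the infinitely many `t ∈ F`: `P^n = Q.map`.  Pw: `P = P₀.map`; `N x = P₀(0)`,
`algebraMap (N x) = P(0) = det (mat φ x)`. -/
def StNm : Prop := ∀ (F D : Type u) [Field F] [CharZero F] [DivisionRing D] [Algebra F D] [FiniteDimensional F D] (n : ℕ)
  (φ : AlgebraicClosure F ⊗[F] D ≃ₐ[AlgebraicClosure F] Matrix (Fin n) (Fin n) (AlgebraicClosure F)),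
  1 ≤ n ∧ ∃ N : D → F, ∀ x : D, algebraMap F (AlgebraicClosure F) (N x) = (mat φ x).det

/-- Rg (EASY-MEDIUM; no hypotheses).
PROOF.  The powers `x^i`, `i < n`, are independent over `F`, so `1 ⊗ x^i` are independent over `K` in `K ⊗ D` (`LinearIndependent.tmul` / base
change of a basis or of an independent family over a field), and the powers `(mat φ x)^i`, `i < n`, over `K`: the minimal polynomial of `mat φ x` over
`K` has degree `≥ n`, so it is the characteristic polynomial (`minpoly ∣ charpoly`, both monic, degree `n`).  `q = minpoly F x` has `q(mat φ x) = 0`, so the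
minimal polynomial of `mat φ x` over `K` divides `q.map`; `q` is irreducible (`D` is a domain), hence separable (characteristic zero),
and a divisor of the separable polynomial `q.map` is separable (`Polynomial.Separable.of_dvd`). -/
def StRg : Prop := ∀ (F D : Type u) [Field F] [CharZero F] [DivisionRing D] [Algebra F D] [FiniteDimensional F D] (n : ℕ)
  (φ : AlgebraicClosure F ⊗[F] D ≃ₐ[AlgebraicClosure F] Matrix (Fin n) (Fin n) (AlgebraicClosure F)) (x : D),
  LinearIndependent F (fun i : Fin n => x ^ (i : ℕ)) → (mat φ x).charpoly.Separable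

/-- Ex (MEDIUM; no hypotheses).  `D` has an element of degree `n`.
PROOF.  `b_j` a basis of `D` over `F` (`j < m`), `B_j = mat φ b_j`; `1 ⊗ b_j` is a basis of `K ⊗ D` over `K`, so the `B_j` generate `M_n(K)` over `K`.  For `t : Fin m → K`
put `Y(t) = ∑ t_j B_j` and `g(t) = det (v_0, ..., v_(n-1))`, the columns being `v_k = Y(t)^k * w`, `w = ` the vector with all entries `1`.  `g` is the
evaluation of a polynomial `G : MvPolynomial (Fin m) K` (compute with `∑ X_j • B_j.map C` in the matrices over `MvPolynomial (Fin m) K`).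
`G ≠ 0`: take `t` with `Y(t) = diagonal a`, `a_i` different elements of `K`: then `v_k = (a_i^k)_i` and `g(t)` is a Vandermonde determinant, not
zero (`Matrix.det_vandermonde_ne_zero_iff`).  A nonzero polynomial over `K` does not vanish on `F^m` (`F` is infinite: `MvPolynomial.funext_set` or
induction on `m`), so there is `t : Fin m → F` with `g(t) ≠ 0`.  Let `y = ∑ t_j b_j`, `Y(t) = mat φ y`.  A relation `∑_k c_k y^k = 0` over `F` gives
`∑_k c_k v_k = 0`, and the columns `v_k` are independent over `K` (determinant not zero): all `c_k = 0`. -/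
def StEx : Prop := ∀ (F D : Type u) [Field F] [CharZero F] [DivisionRing D] [Algebra F D] [FiniteDimensional F D] (n : ℕ),
  Nonempty (AlgebraicClosure F ⊗[F] D ≃ₐ[AlgebraicClosure F] Matrix (Fin n) (Fin n) (AlgebraicClosure F)) →
  ∃ y : D, LinearIndependent F (fun i : Fin n => y ^ (i : ℕ))

/-! ## Part 3: topology -/

/-- Nc (MEDIUM; no hypotheses).  The reduced norm is continuous.
PROOF.  Let `π : K → F` be an `F`-linear map with `π (algebraMap a) = a` (vector space complement, `LinearMap.exists_leftInverse_of_injective`).  So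
`N x = π (det (mat φ x)) = ∑_σ sign σ * π (∏_i (mat φ x) (σ i) i)` and it is enough that `x ↦ π (∏_i L_i x)` is continuous for `F`-linear maps
`L_i : D → K`.  This is the restriction to the diagonal of a multilinear map on `D^n` over `F`; in a basis `b_j` of `D` with coordinates `x_j(x)`
(continuous linear forms, `LinearMap.continuous_of_finiteDimensional`; the field is complete since it is proper): `π (∏_i ∑_j x_j L_i b_j) = ∑ over `s : Fin
n → Fin m` of `(∏_i x_(s i)) * π (∏_i L_i b_(s i))`, a polynomial in the `x_j` (`Finset.prod_univ_sum`), continuous. -/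
def StNc : Prop := ∀ (F D : Type u) [NontriviallyNormedField F] [ProperSpace F] [CharZero F] [DivisionRing D] [Algebra F D]
  [FiniteDimensional F D] [TopologicalSpace D] [IsTopologicalRing D] [ContinuousSMul F D] [T2Space D] (n : ℕ)
  (φ : AlgebraicClosure F ⊗[F] D ≃ₐ[AlgebraicClosure F] Matrix (Fin n) (Fin n) (AlgebraicClosure F)) (N : D → F),
  (∀ x : D, algebraMap F (AlgebraicClosure F) (N x) = (mat φ x).det) → Continuous N

/-- Rt (EASY; no hypotheses).  Elements near `1` are `n`-th powers of elements near `1`.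
PROOF.  `c ↦ c^n` has the strict derivative `n ≠ 0` at `1`, so it is open at `1`: `HasStrictDerivAt.map_nhds_eq` (the image of the neighbourhood
filter of `1` is the neighbourhood filter of `1^n = 1`): the image of `W` is a neighbourhood of `1`. -/
def StRt : Prop := ∀ (F : Type u) [NontriviallyNormedField F] [CompleteSpace F] [CharZero F] (n : ℕ), 1 ≤ n →
  ∀ W ∈ nhds (1 : F), ∃ V ∈ nhds (1 : F), ∀ a ∈ V, ∃ c ∈ W, c ^ n = a

/-- Fi (EASY-MEDIUM; hypothesis hRt).  There are finitely many classes modulo `n`-th powers.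
PROOF.  `V` of Rt for `W = {c : c ≠ 0}`.  Let `‖b‖ > 1`.  `C = {a : 1 ≤ ‖a‖ ≤ ‖b‖^n}` is compact (closed and bounded, `F` is proper) and does not contain
`0`.  For `e ∈ C` the set `{a : e⁻¹ a ∈ V}` is a neighbourhood of `e`; finitely many of them cover `C` (`IsCompact.elim_nhds_subcover`): `E`.
So every `a ∈ C` is `e c^n`, `c ≠ 0`.  If `a ≠ 0` is arbitrary there is an integer `k` with `‖b‖^(n k) ≤ ‖a‖ < ‖b‖^(n (k + 1))`
(`exists_mem_Ico_zpow` for `‖b‖^n > 1`), and `a b^(-n k)` is in `C`. -/
def StFi : Prop := ∀ (F : Type u) [NontriviallyNormedField F] [ProperSpace F] [CharZero F] (n : ℕ), 1 ≤ n →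
  ∃ E : Finset F, ∀ a : F, a ≠ 0 → ∃ e ∈ E, ∃ c : F, c ≠ 0 ∧ a = e * c ^ n

/-- Kp (MEDIUM; hypotheses hNm hNc).  `SL_1(D)` is compact.
PROOF.  `N` of Nm, continuous (Nc), multiplicative, `N (t x) = t^n N x`, `N x ≠ 0` for `x ≠ 0` (`mat φ x` is invertible).  `S = {x : N x = 1}` is
closed.  It is bounded: choose a linear homeomorphism of `D` with `Fin m → F` (`LinearEquiv.toContinuousLinearEquiv`) and transport the norm:
`‖x‖`.  Let `‖b‖ > 1` in `F`; the shell `C = {x : 1 ≤ ‖x‖ ≤ ‖b‖}` is compact, `|N| ≥ c > 0` on `C`.  For `x ∈ S` choose an integer `k` with `b^k x ∈ C`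
(`exists_mem_Ico_zpow`): `‖b‖^(k n) = |N (b^k x)| ≥ c`, so `‖b‖^k ≥ c'` and `‖x‖ ≤ ‖b‖ ‖b‖^(-k) ≤ ‖b‖/c'`.  So `S` is compact (`D` is a proper space).
The group: the units have the topology of `{(x, y) : x y = y x = 1}` in `D × Dᵐᵒᵖ` (`Units.isEmbedding_embedProduct`, closed:
`Units.isClosedEmbedding_embedProduct` for a `T2` ring), and `SL_1(D)` is mapped onto the closed subset `{(x, y) : x y = 1, y x = 1, N x = 1}` of the compact set
`S × S`.  (`u ∈ SL1 φ` iff `N u = 1`, as `algebraMap` is injective; the inverse is in `SL1 φ` too.) -/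
def StKp : Prop := ∀ (F D : Type u) [NontriviallyNormedField F] [ProperSpace F] [CharZero F] [DivisionRing D] [Algebra F D]
  [FiniteDimensional F D] [TopologicalSpace D] [IsTopologicalRing D] [ContinuousSMul F D] [T2Space D] (n : ℕ)
  (φ : AlgebraicClosure F ⊗[F] D ≃ₐ[AlgebraicClosure F] Matrix (Fin n) (Fin n) (AlgebraicClosure F)), CompactSpace (SL1 φ)

/-- Dn (MEDIUM; no hypotheses).  Elements of degree `n` are dense in `D`, if there is one.
PROOF.  Let `x₀ : D`, `U` a neighbourhood, `y` of degree `n`.  Put `z(s) = x₀ + s (y - x₀)`, `s ∈ F`.  Choose a linear form which detects the independence at `s =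
1`: there are `F`-linear forms `ℓ_1, ..., ℓ_n` on `D` with `det (ℓ_i (y^j))_{i,j} ≠ 0` (dual family of an independent family).  `g(s) = det (ℓ_i
(z(s)^j))` is a polynomial in `s` with coefficients in `F` (`z(s)^j` is a polynomial in `s` with coefficients in `D`) and `g(1) ≠ 0`: it has finitely many zeros.
If `g(s) ≠ 0` then the powers `z(s)^j`, `j < n`, are independent.  Every neighbourhood of `0` in `F` is infinite (the field is nontrivially
normed), and `z(s) → x₀` for `s → 0`. -/
def StDn : Prop := ∀ (F D : Type u) [NontriviallyNormedField F] [CharZero F] [DivisionRing D] [Algebra F D]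
  [FiniteDimensional F D] [TopologicalSpace D] [IsTopologicalRing D] [ContinuousSMul F D] (n : ℕ) (y : D),
  LinearIndependent F (fun i : Fin n => y ^ (i : ℕ)) → Dense {x : D | LinearIndependent F (fun i : Fin n => x ^ (i : ℕ))}

/-- Ds (MEDIUM; hypotheses hNm hNc hRt hRg hEx hDn hKp).  The strongly regular elements are dense in `SL_1(D)`.
PROOF.  The map `SL1 φ → D` is continuous and injective, `SL1 φ` is compact (Kp) and `D` is Hausdorff: it is an embedding.  Let `u ∈ SL1 φ`, `U` a
neighbourhood of `u` in `SL1 φ`: there is a neighbourhood `O'` of `u` in `D` such that all `w ∈ SL1 φ` with `w ∈ O'` are in `U`.  The map `(c, x) ↦ c⁻¹ x` is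
continuous at `(1, u)` from `F × D` to `D`: there are neighbourhoods `W` of `1` in `F` (with `0 ∉ W`) and `O` of `u` in `D` with `c⁻¹ x ∈ O'` for `c ∈ W`, `x ∈ O`.
`N` of Nm (continuous, Nc); `V` of Rt for `W`.  `N u = 1`, so `N x ∈ V` for `x` near `u`; by Ex and Dn there is such an `x ∈ O` of degree `n` with `x ≠
0`.  `N x = c^n`, `c ∈ W`; `w = c⁻¹ x` has `N w = c^(-n) N x = 1`: it is in `SL1 φ`, and in `U`.  The powers of `w` are nonzero multiples of those of `x`, so
they are independent and `w` is strongly regular (Rg). -/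
def StDs : Prop := ∀ (F D : Type u) [NontriviallyNormedField F] [ProperSpace F] [CharZero F] [DivisionRing D] [Algebra F D]
  [FiniteDimensional F D] [TopologicalSpace D] [IsTopologicalRing D] [ContinuousSMul F D] [T2Space D] (n : ℕ)
  (φ : AlgebraicClosure F ⊗[F] D ≃ₐ[AlgebraicClosure F] Matrix (Fin n) (Fin n) (AlgebraicClosure F)), Dense (SReg φ)

/-- Ix (EASY-MEDIUM; hypotheses hNm hFi).  Modulo inner automorphisms finitely many elements of the multiplicative group of `D` act on `SL_1(D)`.
PROOF.  `N` of Nm, `E` of Fi.  For `e ∈ E` choose (if possible) a unit `t_e` with `N t_e = e c^n` for some `c ≠ 0`; `T` is the set of the `t_e`.  For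
`d : Dˣ` there are `e`, `c` with `N d = e c^n`, and `t = t_e`, `N t = e c'^n`: so `N (d t⁻¹) = (c/c')^n`, `g = (c'/c) • d t⁻¹` is in `SL1 φ` (`N (s x) =
s^n N x`), and `d x d⁻¹ = g (t x t⁻¹) g⁻¹`, as scalars are central. -/
def StIx : Prop := ∀ (F D : Type u) [NontriviallyNormedField F] [ProperSpace F] [CharZero F] [DivisionRing D] [Algebra F D]
  [FiniteDimensional F D] (n : ℕ)
  (φ : AlgebraicClosure F ⊗[F] D ≃ₐ[AlgebraicClosure F] Matrix (Fin n) (Fin n) (AlgebraicClosure F)),
  ∃ T : Finset Dˣ, ∀ d : Dˣ, ∃ t ∈ T, ∃ g : SL1 φ, ∀ x : SL1 φ, MulAut.conjNormal d x = g * MulAut.conjNormal t x * g⁻¹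

/-- Asm (MEDIUM; hypotheses hUni hAvg hCnv hEss hAut hMs hA0 hA1 hA2 hSN hMp hCj hKp hDs hIx).  The theorem.
PROOF.  Kp: compact.  `a = MulAut.conjNormal`, `Γ = Dˣ`: every `a d` is continuous (`x ↦ d x d⁻¹` on the topological group `Dˣ`).  For all `γ`, `δ`: `StC φ γ δ` iff
`a d γ = δ` for some `d` (Mp and SN; Cj).  A0 with Ix: systems exist.  The equivalence (last clause): A1, and A2 (Ds: dense, Ix).  The Dirac
distribution is in the centre (`h = f` in `ess`) and invariant under all `a d` (`a d 1 = 1`), so stable.  Convolution: Cnv gives `T₃`; it is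
invariant under conjugation (Aut for `MulAut.conj g`), essentially compact (Ess), and invariant under all `a d` (A1 for `T₁`, `T₂`, then Aut), so stable (A2). -/
def StAsm : Prop := MainSD.{u}

end Pool.Agent.Work.MP_481a91_al.SD
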