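import Pool.Agent.Work.MP_481a91_al.SD.Stmts
import Pool.Agent.Work.MP_481a91_al.SD.DefsH

/-!
# MP_481a91_al, block SD, part H: statements of the items, with complete proofs in the docstrings

Closed subgroups `H` of the product of the multiplicative groups of the `D_i` which contain the product of the `SL_1(D_i)`: compact modulo
the centre.  The items adapt items of `Stmts.lean` (all proved: I_Avg, I_A1, I_A2, I_Ds, I_Ix, I_Mp, I_Cj can be copied and changed).
-/

set_option autoImplicit false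

noncomputable section

namespace Pool.Agent.Work.MP_481a91_al.SD

open scoped TensorProduct BigOperators
open MeasureTheory

universe u

/-! ## Groups which are compact modulo the centre -/

/-- Qun (EASY-MEDIUM; no hypotheses).  A function in `C_c^∞(G)` is left and right invariant under an open subgroup.
PROOF.  `V = {v : for all x, f (v x) = f x and f (x v) = f x}` is a subgroup.  It contains a neighbourhood of `1`: let `C` be the (compact) support of
`f`.  By the tube lemma there is a symmetric neighbourhood `W` of `1` with `f (v x) = f x` and `f (x v) = f x` for `x ∈ C`, `v ∈ W` (`{(x, v) : f (v x) = f x}` is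
open and contains `C × {1}`).  For `x ∉ C`, `v ∈ W`: if `v x ∈ C` then `f x = f (v⁻¹ (v x)) = f (v x)`; otherwise both values are `0`. -/
def StQun : Prop := ∀ (G : Type u) [Group G] [TopologicalSpace G] [IsTopologicalGroup G] (f : Tst G),
  ∃ V : Subgroup G, IsOpen (V : Set G) ∧ ∀ v ∈ V, ∀ x : G, f.1 (v * x) = f.1 x ∧ f.1 (x * v) = f.1 x

/-- Qag (MEDIUM; hypothesis hQun).  Averaging over conjugation (compare I_Avg).
PROOF.  `Q = G ⧸ center G`; `f (g x g⁻¹)` depends only on the class of `g` in `Q` (so `q.out` may be replaced by any representative of `q`).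
`V` of Qun: `f (v g x g⁻¹ v⁻¹) = f (g x g⁻¹)`.  The image `V'` of `V` in `Q` is an open subgroup (the projection is open), of finite index; the function `q ↦ f (q x
q⁻¹)` is constant on the right cosets `V' q`, which all have the measure `μ V'` (the Haar measure of the compact group `Q` is right invariant; or
pass to left cosets with `q ↦ q⁻¹`).  Let `g_1, ..., g_r` be representatives in `G` of the right cosets: the integral is `c * ∑_j f (g_j x g_j⁻¹)`, `c =
(μ V').toReal`, and `h = c • ∑_j tr g_j g_j⁻¹ f`.  `T (tr g_j g_j⁻¹ f) = T f`, and `c * r = (μ univ).toReal`. -/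
def StQag : Prop := ∀ (G : Type u) [Group G] [TopologicalSpace G] [IsTopologicalGroup G] [CompactSpace (G ⧸ Subgroup.center G)]
  [MeasurableSpace (G ⧸ Subgroup.center G)] [BorelSpace (G ⧸ Subgroup.center G)] (μ : Measure (G ⧸ Subgroup.center G))
  [μ.IsHaarMeasure] (f : Tst G), ∃ h : Tst G, (∀ x : G, h.1 x = ∫ q, f.1 (q.out * x * q.out⁻¹) ∂μ) ∧
    ∀ T : Dst G, (∀ (g : G) (f : Tst G), T (tr g⁻¹ g f) = T f) → T h = ((μ Set.univ).toReal : ℂ) * T f

/-- Qcn (EASY-MEDIUM; no hypotheses).  The convolution of two elements of the Bernstein centre exists and is essentially compact.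
PROOF.  For `f` let `k` be the function of `T₂.ess` for `iv f`: `k x = T₂ (iv (tr 1 x (iv f)))` and `iv (tr 1 x (iv f)) y = (iv f) (y⁻¹ x) = f (x⁻¹ y)`, so `h_f =
iv k` satisfies `h_f x = k (x⁻¹) = T₂ (tr x 1 f)`: `x ↦ T₂ (tr x 1 f)` is in `C_c^∞(G)`, linear in `f`.  `T₃ f = T₁ h_f`.  Essentially compact: given `f`, let
`k` be `x ↦ T₂ (iv (tr 1 x f))` (`T₂.ess`) and `l` be `x ↦ T₁ (iv (tr 1 x k))` (`T₁.ess`).  For `F = iv (tr 1 x f)`, `F y = f (y⁻¹ x)`: `h_F z = T₂ (y ↦ F (z y)) = T₂ (y ↦ f (y⁻¹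
z⁻¹ x)) = k (z⁻¹ x)`, so `h_F = iv (tr 1 x k)` and `T₃ F = T₁ (iv (tr 1 x k)) = l x`. -/
def StQcn : Prop := ∀ (G : Type u) [Group G] [TopologicalSpace G] [IsTopologicalGroup G] (T₁ T₂ : Dst G), BC T₁ → BC T₂ →
  ∃ T₃ : Dst G, Conv T₁ T₂ T₃ ∧ ∀ f : Tst G, ∃ h : Tst G, ∀ x : G, h.1 x = T₃ (iv (tr 1 x f))

/-- Q1 (MEDIUM; hypothesis hMs).  Stable distributions are invariant under `Γ` (compare I_A1, with `Q = G ⧸ center G` in place of `G`).
PROOF.  As A1: `A x = ∫ q, f (q.out x q.out⁻¹)` is a class function (right invariance of the Haar measure of `Q`; representatives do not matter).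
`a d` maps the centre to itself and induces a continuous automorphism `b` of `Q`; by Ms for `Q` and `b` (`Q` is Hausdorff: the centre is closed):
`∫ h (q ρ q⁻¹) = ∫ f (b(q) (a d ρ) b(q)⁻¹) = A (a d ρ)` for `h x = f (a d x)`.  Then the argument with the injection `s : R → R`.  The integrands are
continuous functions on the compact space `Q`. -/
def StQ1 : Prop := ∀ (G : Type u) [Group G] [TopologicalSpace G] [IsTopologicalGroup G] [T2Space G]
  [CompactSpace (G ⧸ Subgroup.center G)] [MeasurableSpace (G ⧸ Subgroup.center G)] [BorelSpace (G ⧸ Subgroup.center G)]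
  (μ : Measure (G ⧸ Subgroup.center G)) [μ.IsHaarMeasure] (Γ : Type u) [Group Γ] (a : Γ →* MulAut G) (S : Set G)
  (st : G → G → Prop), (∀ d : Γ, Continuous (a d)) → (∀ γ ∈ S, ∀ δ : G, st γ δ ↔ ∃ d : Γ, a d γ = δ) →
  ∀ T : Dst G, (∀ f : Tst G, Unq μ S st f → T f = 0) → ∀ d : Γ, AInv (a d) T

/-- Q2 (MEDIUM; hypotheses hQag hA0).  `Γ`-invariant distributions are stable (compare I_A2, with `Q = G ⧸ center G` in place of `G`).
PROOF.  As A2, with `A = h` of Qag for `f` (a class function: right invariance of the Haar measure of `Q`), `B x = ∑ over c : Γ ⧸ H of A (a c.out x)`, in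
`Tst G` since `a c.out` is a homeomorphism.  `B` vanishes on the dense set `S`, so `B = 0` and `0 = card (Γ ⧸ H) * (μ univ).toReal * T f`. -/
def StQ2 : Prop := ∀ (G : Type u) [Group G] [TopologicalSpace G] [IsTopologicalGroup G] [T2Space G]
  [CompactSpace (G ⧸ Subgroup.center G)] [MeasurableSpace (G ⧸ Subgroup.center G)] [BorelSpace (G ⧸ Subgroup.center G)]
  (μ : Measure (G ⧸ Subgroup.center G)) [μ.IsHaarMeasure] (Γ : Type u) [Group Γ] (a : Γ →* MulAut G) (S : Set G)
  (st : G → G → Prop) (N : Finset Γ), (∀ d : Γ, Continuous (a d)) → (∀ γ ∈ S, ∀ δ : G, st γ δ ↔ ∃ d : Γ, a d γ = δ) →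
  (∀ d : Γ, ∃ t ∈ N, ∃ g : G, ∀ x : G, a d x = g * a t x * g⁻¹) → Dense S →
  ∀ T : Dst G, (∀ (g : G) (f : Tst G), T (tr g⁻¹ g f) = T f) → (∀ d : Γ, AInv (a d) T) →
  ∀ f : Tst G, Unq μ S st f → T f = 0

/-! ## The division algebras -/

/-- Dmp (EASY; no hypotheses).  Compare I_Mp. -/
def StDmp : Prop := ∀ (F D : Type u) [Field F] [DivisionRing D] [Algebra F D] (n : ℕ)
  (φ : AlgebraicClosure F ⊗[F] D ≃ₐ[AlgebraicClosure F] Matrix (Fin n) (Fin n) (AlgebraicClosure F)) (x y : D)
  (g : Matrix.SpecialLinearGroup (Fin n) (AlgebraicClosure F)), g.1 * mat φ x = mat φ y * g.1 → minpoly F x = minpoly F y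

/-- Dcj (EASY; no hypotheses).  Compare I_Cj. -/
def StDcj : Prop := ∀ (F D : Type u) [Field F] [DivisionRing D] [Algebra F D] (n : ℕ)
  (φ : AlgebraicClosure F ⊗[F] D ≃ₐ[AlgebraicClosure F] Matrix (Fin n) (Fin n) (AlgebraicClosure F)) (x y : D) (d : Dˣ),
  (d : D) * x = y * d → ∃ g : Matrix.SpecialLinearGroup (Fin n) (AlgebraicClosure F), g.1 * mat φ x = mat φ y * g.1

/-- Dw (MEDIUM; hypotheses hNm hNc hRt hRg hEx hDn).  Near every unit there are regular units of the same reduced norm.
PROOF.  `N` of Nm (continuous, Nc; `N u ≠ 0`).  The map `(c, x) ↦ c⁻¹ x` is continuous at `(1, u)` from `F × D` to `D`: there are neighbourhoods `W` of `1` in `F`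
(with `0 ∉ W`) and `O'` of `u` in `D` with `c⁻¹ x ∈ O` for `c ∈ W`, `x ∈ O'`.  `V` of Rt for `W`.  `N x / N u ∈ V` for `x` near `u`; by Ex and Dn there is such an `x ∈
O'` of degree `n` with `x ≠ 0`.  `N x = N u * c^n`, `c ∈ W`; `w = c⁻¹ x` has `N w = c^(-n) N x = N u` and is in `O`.  The powers of `w` are nonzero multiples of those
of `x`, so they are independent and the characteristic polynomial is separable (Rg). -/
def StDw : Prop := ∀ (F D : Type u) [NontriviallyNormedField F] [ProperSpace F] [CharZero F] [DivisionRing D] [Algebra F D]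
  [FiniteDimensional F D] [TopologicalSpace D] [IsTopologicalRing D] [ContinuousSMul F D] [T2Space D] (n : ℕ)
  (φ : AlgebraicClosure F ⊗[F] D ≃ₐ[AlgebraicClosure F] Matrix (Fin n) (Fin n) (AlgebraicClosure F)) (u : Dˣ),
  ∀ O ∈ nhds (u : D), ∃ w : Dˣ, (w : D) ∈ O ∧ nrd φ w = nrd φ u ∧ (mat φ (w : D)).charpoly.Separable

/-- Emb (EASY-MEDIUM; no hypotheses).  The topology of the units is induced by `D`.
PROOF.  It is enough that `x ↦ x⁻¹` is continuous on `D` without `0` (`Units.isEmbedding_val₀` with the class `ContinuousInv₀`, or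
`Units.isEmbedding_val_mk'`).  `L x ∈ M_m(F)` the matrix of the left multiplication by `x` in a basis of `D` over `F`, continuous in `x` (linear forms on `D`
are continuous: `F` is complete, `LinearMap.continuous_of_finiteDimensional`); `x⁻¹ = (L x)⁻¹ 1 = (det L x)⁻¹ adj (L x) 1` in coordinates, and the inverse of the
coordinate map is continuous.  (Or: `D` with a norm for which it is a normed algebra, `NormedRing` units are open and the inverse is continuous.) -/
def StEmb : Prop := ∀ (F D : Type u) [NontriviallyNormedField F] [ProperSpace F] [DivisionRing D] [Algebra F D]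
  [FiniteDimensional F D] [TopologicalSpace D] [IsTopologicalRing D] [ContinuousSMul F D] [T2Space D],
  Topology.IsEmbedding (fun u : Dˣ => (u : D))

/-- Ixh (EASY-MEDIUM; hypotheses hNm hFi).  Compare I_Ix: the same proof, `g = (c'/c) • d t⁻¹`. -/
def StIxh : Prop := ∀ (F D : Type u) [NontriviallyNormedField F] [ProperSpace F] [CharZero F] [DivisionRing D] [Algebra F D]
  [FiniteDimensional F D] (n : ℕ)
  (φ : AlgebraicClosure F ⊗[F] D ≃ₐ[AlgebraicClosure F] Matrix (Fin n) (Fin n) (AlgebraicClosure F)),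
  ∃ T : Finset Dˣ, ∀ d : Dˣ, ∃ t ∈ T, ∃ g : Dˣ, nrd φ g = 1 ∧ ∃ c : F, c ≠ 0 ∧ (d : D) = c • ((g : D) * (t : D))

/-- Hds (EASY-MEDIUM; hypotheses hDw hEmb).  The strongly regular elements are dense in `H`.
PROOF.  Let `u ∈ H`, `U` a neighbourhood of `u` in `H`.  The topology of `PU D` is induced from the product of the `D_i` (Emb), so there are neighbourhoods `O_i`
of `u_i` in `D_i` such that all `w ∈ H` with `w_i ∈ O_i` are in `U`.  Dw: `w_i ∈ O_i` regular with `nrd w_i = nrd u_i`.  `w u⁻¹` is in `PS1 φ ≤ H`, so `w ∈ H`. -/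
def StHds : Prop := ∀ (N : ℕ) (F D : Fin N → Type u) [∀ i, NontriviallyNormedField (F i)] [∀ i, ProperSpace (F i)]
  [∀ i, CharZero (F i)] [∀ i, DivisionRing (D i)] [∀ i, Algebra (F i) (D i)]
  [∀ i, FiniteDimensional (F i) (D i)] [∀ i, TopologicalSpace (D i)]
  [∀ i, IsTopologicalRing (D i)] [∀ i, ContinuousSMul (F i) (D i)] [∀ i, T2Space (D i)] (n : Fin N → ℕ)
  (φ : ∀ i, AlgebraicClosure (F i) ⊗[F i] D i ≃ₐ[AlgebraicClosure (F i)] Matrix (Fin (n i)) (Fin (n i)) (AlgebraicClosure (F i)))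
  (H : Subgroup (PU D)), PS1 φ ≤ H → Dense (HReg φ H)

/-- Hcp (MEDIUM; hypotheses hKp hIxh).  `H` is compact modulo its centre.
PROOF.  `T_i` of Ixh.  Every `d ∈ PU D` is `d = c g t` with `t_i ∈ T_i`, `g ∈ PS1 φ`, `c_i ∈ F_i` not zero (scalars, central).  For every `t` in the product of the
`T_i` for which there is some `h ∈ H` of the form `c g t` choose one, `h_t = c' g' t`.  If `h = c g t ∈ H` then `h h_t⁻¹ = (c/c') g g'⁻¹`, and `s = g g'⁻¹ ∈ PS1 φ ≤ H`, so the
scalar `z = c/c'` is in `H`, hence in the centre of `H`, and `h = z s h_t`.  So `H ⧸ center H` is the union of the finitely many sets `image of PS1 φ * h_t`, which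
are compact: `PS1 φ` is compact as the image of the product of the compact groups `SL1 (φ i)` (Kp). -/
def StHcp : Prop := ∀ (N : ℕ) (F D : Fin N → Type u) [∀ i, NontriviallyNormedField (F i)] [∀ i, ProperSpace (F i)]
  [∀ i, CharZero (F i)] [∀ i, DivisionRing (D i)] [∀ i, Algebra (F i) (D i)]
  [∀ i, FiniteDimensional (F i) (D i)] [∀ i, TopologicalSpace (D i)]
  [∀ i, IsTopologicalRing (D i)] [∀ i, ContinuousSMul (F i) (D i)] [∀ i, T2Space (D i)] (n : Fin N → ℕ)
  (φ : ∀ i, AlgebraicClosure (F i) ⊗[F i] D i ≃ₐ[AlgebraicClosure (F i)] Matrix (Fin (n i)) (Fin (n i)) (AlgebraicClosure (F i)))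
  (H : Subgroup (PU D)), PS1 φ ≤ H → CompactSpace (H ⧸ Subgroup.center H)

end Pool.Agent.Work.MP_481a91_al.SD
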