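import Pool.Agent.Work.MP_481a91_al.SD.StmtsH
import Pool.Agent.Work.MP_481a91_al.SD.DefsQ

/-!
# MP_481a91_al, block SD, part Q: quotients by central subgroups, statements with complete proofs in the docstrings

`K = AlgebraicClosure F`, `KE = K ⊗ ∏ E_i`, `KD = K ⊗ ∏ D_i`, `zK : KE → KD`, `jK x = 1 ⊗ x`.
-/

set_option autoImplicit false

noncomputable section

namespace Pool.Agent.Work.MP_481a91_al.SD

open scoped TensorProduct BigOperators
open MeasureTheory

universe u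

/-- Gds (EASY-MEDIUM; no hypotheses).  Galois descent.
PROOF.  Choose a basis `b_j` of `B` over `F`; `x = ∑ k_j ⊗ b_j` with unique `k_j ∈ K` (`Algebra.TensorProduct.basis` or `Basis.baseChange`), and `σ x = ∑ σ(k_j) ⊗
b_j`.  So `σ k_j = k_j` for all `σ` in the Galois group of `K/F` (Galois, characteristic zero), hence `k_j ∈ F` (compare I_Pw), and `x = 1 ⊗ ∑ k_j b_j`. -/
def StGds : Prop := ∀ (F B : Type u) [Field F] [CharZero F] [CommRing B] [Algebra F B] (x : AlgebraicClosure F ⊗[F] B),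
  (∀ σ : AlgebraicClosure F ≃ₐ[F] AlgebraicClosure F,
    Algebra.TensorProduct.map (σ : AlgebraicClosure F →ₐ[F] AlgebraicClosure F) (AlgHom.id F B) x = x) →
  ∃ b : B, x = 1 ⊗ₜ[F] b

/-- Tgl (MEDIUM; hypothesis hGds).  The factor `z` is rational.
PROOF.  For `σ` let `s : KD → KD` be `map σ id` (a ring homomorphism).  `s (jK x) = jK x` and `s (zK z) = zK (gal σ z)`.  Apply `s` to the relation: with `w ∈ Zk`, `w = gal σ z`:
`s(g) jK γ = zK w * jK δ * s(g)`.  Put `h = g⁻¹ s(g)` (a unit).  From the relation `g⁻¹ jK δ = (zK z)⁻¹ jK γ g⁻¹` (`zK z` is central in `KD`: it commutes with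
all `k ⊗ x`).  So `h jK γ = g⁻¹ zK w jK δ s(g) = zK w (zK z)⁻¹ jK γ g⁻¹ s(g) = zK (w z⁻¹) jK γ h`, and `hZ` gives `w z⁻¹ = 1`: `gal σ z = z`.  Gds (`B = ∏ E_i`). -/
def StTgl : Prop := ∀ (F : Type u) [Field F] [CharZero F] (N : ℕ) (E D : Fin N → Type u) [∀ i, Field (E i)]
  [∀ i, DivisionRing (D i)] [∀ i, Algebra F (E i)] [∀ i, Algebra (E i) (D i)] [∀ i, Algebra F (D i)]
  [∀ i, IsScalarTower F (E i) (D i)] (Zk : Subgroup (KE F E)ˣ) (γ δ : PU D), GSt F E Zk →
  (∀ (g : (KD F D)ˣ), ∀ z ∈ Zk, (g : KD F D) * jK F γ = zK F E D (z : KE F E) * jK F γ * g → z = 1) →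
  ∀ (g : (KD F D)ˣ), ∀ z ∈ Zk, (g : KD F D) * jK F γ = zK F E D (z : KE F E) * jK F δ * g →
  ∃ e : ∀ i, E i, (z : KE F E) = 1 ⊗ₜ[F] e

/-- Tsn (MEDIUM; hypothesis hSN).  Skolem-Noether for `∏ D_i`.
PROOF.  Fix `i`.  The projection `KD → K ⊗ D_i` (`Algebra.TensorProduct.map id (Pi.evalAlgHom ..)`) gives a unit `g_i` with `g_i (1 ⊗ x_i) = (1 ⊗ y_i) g_i`.  For a
polynomial `p` over `E_i`: `g_i (1 ⊗ p(x_i)) = (1 ⊗ p(y_i)) g_i`, as the `1 ⊗ c`, `c ∈ E_i`, are central in `K ⊗ D_i` (induction on `p`).  `D_i → K ⊗ D_i` is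
injective, so `p(x_i) = 0` if and only if `p(y_i) = 0`: `x_i` and `y_i` have the same minimal polynomial over `E_i` (each divides the other, monic).  SN. -/
def StTsn : Prop := ∀ (F : Type u) [Field F] (N : ℕ) (E D : Fin N → Type u) [∀ i, Field (E i)]
  [∀ i, DivisionRing (D i)] [∀ i, Algebra F (E i)] [∀ i, Algebra (E i) (D i)] [∀ i, Algebra F (D i)]
  [∀ i, IsScalarTower F (E i) (D i)] [∀ i, FiniteDimensional (E i) (D i)] [∀ i, Algebra.IsCentral (E i) (D i)]
  (x y : ∀ i, D i) (g : (KD F D)ˣ), (g : KD F D) * ((1 : AlgebraicClosure F) ⊗ₜ[F] x) = ((1 : AlgebraicClosure F) ⊗ₜ[F] y) * g →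
  ∃ d : PU D, ∀ i, ((d i : (D i)ˣ) : D i) * x i = y i * (d i : D i)

/-- Qtr (MEDIUM; no hypotheses).  If all traces of `γ` are nonzero then `g γ g⁻¹ = z γ` implies `z = 1`.
PROOF.  `t : ∏ D_i → ∏ E_i`, `t(x)_i = ` the trace over `E_i` of the left multiplication by `x_i`, is `F`-linear, `t(x y) = t(y x)` (the trace of a product of two linear maps, left multiplications
compose), `t(e x) = e t(x)` for `e ∈ ∏ E_i`.  `T = TensorProduct.map id t : KD → KE`: `T(X Y) = T(Y X)` and `T(zK(z) X) = z T(X)` (check on pure tensors, induction on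
sums).  The relation gives `g jK γ g⁻¹ = zK z jK γ`, so `T(jK γ) = z T(jK γ)`.  `T(jK γ) = 1 ⊗ t(γ)` is a unit of `KE`, since all components of `t(γ)` are nonzero.  So `z = 1`. -/
def StQtr : Prop := ∀ (F : Type u) [Field F] (N : ℕ) (E D : Fin N → Type u) [∀ i, Field (E i)]
  [∀ i, DivisionRing (D i)] [∀ i, Algebra F (E i)] [∀ i, Algebra (E i) (D i)] [∀ i, Algebra F (D i)]
  [∀ i, IsScalarTower F (E i) (D i)] [∀ i, FiniteDimensional (E i) (D i)] (γ : PU D),
  (∀ i, LinearMap.trace (E i) (D i) (LinearMap.mulLeft (E i) ((γ i : (D i)ˣ) : D i)) ≠ 0) → ∀ (g : (KD F D)ˣ) (z : (KE F E)ˣ),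
  (g : KD F D) * jK F γ = zK F E D (z : KE F E) * jK F γ * g → z = 1

/-- Dwt (MEDIUM; hypotheses hNm hNc hRt hRg hEx hDn).  Near every unit there are regular units of the same reduced norm with nonzero
trace.
PROOF.  As I_Dw; in addition `trace x ≠ 0` for the chosen `x` (then `trace (c⁻¹ x) = c⁻¹ trace x ≠ 0`).  The set of `x` with `trace x ≠ 0` is open (the trace is a
linear form, continuous) and dense (`trace (x + s) = trace x + s * trace 1`, `trace 1 = dim D ≠ 0`), and the elements of degree `n` are dense (Dn), so there are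
elements of degree `n` with nonzero trace in every nonempty open set. -/
def StDwt : Prop := ∀ (F D : Type u) [NontriviallyNormedField F] [ProperSpace F] [CharZero F] [DivisionRing D] [Algebra F D]
  [FiniteDimensional F D] [TopologicalSpace D] [IsTopologicalRing D] [ContinuousSMul F D] [T2Space D] (n : ℕ)
  (φ : AlgebraicClosure F ⊗[F] D ≃ₐ[AlgebraicClosure F] Matrix (Fin n) (Fin n) (AlgebraicClosure F)) (u : Dˣ),
  ∀ O ∈ nhds (u : D), ∃ w : Dˣ, (w : D) ∈ O ∧ nrd φ w = nrd φ u ∧ (mat φ (w : D)).charpoly.Separable ∧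
    LinearMap.trace F D (LinearMap.mulLeft F (w : D)) ≠ 0

/-- Qds (EASY-MEDIUM; hypotheses hDwt hEmb hQtr).  The strongly regular elements are dense in `H/Z₀`.
PROOF.  As I_Hds, with Dwt in place of Dw: for `u ∈ H` and a neighbourhood `U` of the class of `u` in `H/Z₀` the preimage of `U` in `H` contains some `w ∈ H`, regular, with
nonzero traces; its class is in `QReg` (Qtr). -/
def StQds : Prop := ∀ (F : Type u) [Field F] (N : ℕ) (E D : Fin N → Type u) [∀ i, NontriviallyNormedField (E i)]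
  [∀ i, ProperSpace (E i)] [∀ i, CharZero (E i)] [∀ i, Algebra F (E i)] [∀ i, DivisionRing (D i)] [∀ i, Algebra (E i) (D i)]
  [∀ i, Algebra F (D i)] [∀ i, IsScalarTower F (E i) (D i)] [∀ i, FiniteDimensional (E i) (D i)] [∀ i, TopologicalSpace (D i)]
  [∀ i, IsTopologicalRing (D i)] [∀ i, ContinuousSMul (E i) (D i)] [∀ i, T2Space (D i)] (n : Fin N → ℕ)
  (φ : ∀ i, AlgebraicClosure (E i) ⊗[E i] D i ≃ₐ[AlgebraicClosure (E i)] Matrix (Fin (n i)) (Fin (n i)) (AlgebraicClosure (E i)))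
  (H : Subgroup (PU D)) (Zk : Subgroup (KE F E)ˣ) (Z₀ : Subgroup H) [Z₀.Normal], PS1 φ ≤ H → Dense (QReg F φ Zk H Z₀)

/-- Qcp (EASY; no hypotheses).  If `G` is compact modulo its centre then so is `G/Z₀`.
PROOF.  The homomorphism `G → (G/Z₀)/centre` is continuous and surjective and maps the centre of `G` to `1`, so it gives a continuous surjective map from `G/centre`. -/
def StQcp : Prop := ∀ (G : Type u) [Group G] [TopologicalSpace G] [IsTopologicalGroup G] (Z₀ : Subgroup G) [Z₀.Normal],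
  CompactSpace (G ⧸ Subgroup.center G) → CompactSpace ((G ⧸ Z₀) ⧸ Subgroup.center (G ⧸ Z₀))

end Pool.Agent.Work.MP_481a91_al.SD
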